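import Pool.Agent.Lib.MP_1a1eb7_lc.Lv.TAlg

/-! Values of functions of level `M` at triangular points lie in towers of level `M`. -/

namespace Pool.Agent.Lib.MP_1a1eb7_lc

open Set Filter Topology Pool.Agent.Shared.OMin
open Ordinal (omega0)

variable {S : OStr} {s : Bool} {M m d n j k k' : ℕ} {A : Set (Fin m → ℝ)} {f g : Fn m}
  {P y z : ℕ → U} {R : ∀ j, Subalgebra ℝ (Fn j)} {E : ℕ → Fld} {a b : U}

theorem Tow.bump (h : Tow S (thM M) P d E) (hk : k ≤ d) {K : Fld} {α : Ordinal.{0}}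
    (hK : Pres S P k (E k) K α) (hα : α < thM M k) :
    ∃ E', Tow S (thM M) P d E' ∧ Ext E E' d ∧ K ≤ E' k := by
  obtain ⟨β, h1, h2⟩ := h.pres k hk
  have h3 := (h.down hk).top (τ := thM M) (h2.trans hK) (fun _ _ => le_rfl) (thM_add h1 hα)
  obtain ⟨E', h4, h5, h6⟩ := Tow.reattach (τ := thM M) h hk h3 (fun l hl => by
    rcases hl.lt_or_eq with e | rfl
    · rw [Function.update_of_ne e.ne]
    · rw [Function.update_self]
      exact hK.le) (fun _ _ => le_rfl) fun _ _ _ => le_rfl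
  exact ⟨E', h4, h6, by rw [h5 k le_rfl, Function.update_self]⟩

theorem TAble.mono (h : TAble S M P d k a) (hk : k ≤ k') (hd : k' ≤ d) : TAble S M P d k' a :=
  fun E hE => by
    obtain ⟨E', h1, h2, h3⟩ := h E hE
    exact ⟨E', h1, h2, h1.le hk hd h3⟩

theorem TAble.coord {i : ℕ} (hi : i < k) (hk : k ≤ d) : TAble S M P d k (P i) :=
  fun E hE => ⟨E, hE, Ext.refl E d, hE.mem hi hk⟩

theorem TAble.sub (hk : k ≤ d) (ha : TAble S M P d k a) (hb : TAble S M P d k b) :
    TAble S M P d k (a - b) := fun E hE => by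
  obtain ⟨E₁, h1, h2, h3⟩ := ha E hE
  obtain ⟨E₂, g1, g2, g3⟩ := hb E₁ h1
  exact ⟨E₂, g1, h2.trans g2, sub_mem (g2 k hk h3) g3⟩

theorem TAble.rhoi (hk : k ≤ d) (ha : TAble S M P d k a) (hb : |a| < 1) :
    TAble S M P d k (cl fun ω => rhoi (out a ω)) := fun E hE => by
  obtain ⟨E₁, h1, h2, h3⟩ := ha E hE
  exact ⟨E₁, h1, h2, pre2_rhoi_mem (h1.dfld hk).rc h3 hb⟩

theorem TAble.mem_dcl (hE : Tow S (thM M) P d E) (hk : k ≤ d) (ha : TAble S M P d k a) :
    a ∈ dcl S P k := by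
  obtain ⟨E₁, h1, -, h3⟩ := ha E hE
  exact (h1.dfld hk).le h3

theorem WTri.le (h : WTri S M P d y m k) : k ≤ m ∧ k ≤ d := by
  cases h with
  | zero => exact ⟨le_rfl, Nat.zero_le _⟩
  | succ _ _ h1 h2 _ => exact ⟨h1, h2⟩

theorem WTri.congr (h : WTri S M P d y m k) (e : Agree y z m) : WTri S M P d z m k := by
  induction h with
  | zero => exact .zero
  | @succ m k k' _ h1 h2 h3 h4 ih =>
    exact .succ (ih (e.mono m.le_succ)) h1 h2 h3 (e m m.lt_succ_self ▸ h4)

theorem WTri.able (h : WTri S M P d y m k) : ∀ i < m, TAble S M P d k (y i) := by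
  induction h with
  | zero => exact fun i hi => absurd hi (Nat.not_lt_zero _)
  | succ _ h1 _ h3 h4 ih =>
    intro i hi
    rcases (Nat.lt_succ_iff.1 hi).lt_or_eq with e | rfl
    exacts [(ih i e).mono h1 h3, h4]

theorem STri.le (h : STri S M P d y m k) : k ≤ d := by
  induction h with
  | zero => exact Nat.zero_le _
  | same _ _ ih => exact ih
  | new _ h _ _ _ => exact h

theorem STri.congr (h : STri S M P d y m k) (e : Agree y z m) : STri S M P d z m k := by
  induction h with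
  | zero => exact .zero
  | @same m k _ h1 ih => exact .same (ih (e.mono m.le_succ)) (e m m.lt_succ_self ▸ h1)
  | @new m k _ h1 h2 h3 ih =>
    exact .new (ih (e.mono m.le_succ)) h1 (e m m.lt_succ_self ▸ h2) (e m m.lt_succ_self ▸ h3)

theorem STri.inv (h : STri S M P d y (m + 1) k) :
    (∃ k₀, STri S M P d y m k₀) ∧ TAble S M P d d (y m) := by
  cases h with
  | same h0 h1 => exact ⟨⟨_, h0⟩, h1.mono h0.le le_rfl⟩
  | new h0 h1 h2 _ => exact ⟨⟨_, h0⟩, h2.mono h1 le_rfl⟩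

theorem talg_step (hR : TAlg S M A R) (hA : At (fun x => x ∈ A) y) (hj : j ≤ m) (hk : k ≤ j)
    (hd : k ≤ d) (hE : Tow S (thM M) P d E) (hy : ∀ i < j, y i ∈ E k) (hV : lowV R j y (E k)) :
    ∃ E', Tow S (thM M) P d E' ∧ Ext E E' d ∧ lowV R (j + 1) y (E' k) := by
  obtain ⟨K, α, h1, h2, h3⟩ := (hR j hj).pres P k y (E k) (hE.gen.mono hd) (hE.dfld hd) hy
    (prj_at hA j) hV
  obtain ⟨E', g1, g2, g3⟩ := hE.bump hd h2 (h1.trans_le (thM_anti hk))
  refine ⟨E', g1, g2, fun l hl φ hφ => ?_⟩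
  rcases (Nat.lt_succ_iff.1 hl).lt_or_eq with e | rfl
  exacts [g2 k hd (hV l e φ hφ), g3 (h3 φ hφ)]

theorem talg_tower (hR : TAlg S M A R) (hA : At (fun x => x ∈ A) y)
    (h : WTri S M P d y j k) (hj : j ≤ m) (hE : Tow S (thM M) P d E) :
    ∃ E', Tow S (thM M) P d E' ∧ Ext E E' d ∧ (∀ i < j, y i ∈ E' k) ∧ lowV R (j + 1) y (E' k) := by
  induction h with
  | zero =>
    obtain ⟨E', h1, h2, h3⟩ := talg_step hR hA hj le_rfl (Nat.zero_le _) hE
      (fun i hi => absurd hi (Nat.not_lt_zero _)) fun i hi => absurd hi (Nat.not_lt_zero _)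
    exact ⟨E', h1, h2, fun i hi => absurd hi (Nat.not_lt_zero _), h3⟩
  | @succ j k k' _ h1 h2 h3 h4 ih =>
    obtain ⟨E₁, a1, a2, a3, a4⟩ := ih (j.le_succ.trans hj)
    obtain ⟨E₂, b1, b2, b3⟩ := h4 E₁ a1
    have hle : E₁ k ≤ E₂ k' := (b2 k (h1.trans h3)).trans (b1.le h1 h3)
    have hy : ∀ i < j + 1, y i ∈ E₂ k' := fun i hi => by
      rcases (Nat.lt_succ_iff.1 hi).lt_or_eq with e | rfl
      exacts [hle (a3 i e), b3]
    obtain ⟨E₃, c1, c2, c3⟩ := talg_step hR hA hj h2 h3 b1 hy (lowV_mono a4 hle)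
    exact ⟨E₃, c1, a2.trans (b2.trans c2), fun i hi => c2 k' h3 (hy i hi), c3⟩

theorem PfM.table (hS : PfClosed S) (h : PfM s M m A (some f)) (hy : WTri S M P d y m k)
    (hA : At (fun x => x ∈ A) y) : TAble S M P d k (ev f y) := fun E hE => by
  obtain ⟨R, a1, f', a2, a3⟩ := talg_main hS h f rfl
  obtain ⟨E', b1, b2, -, b4⟩ := talg_tower a1 hA hy le_rfl hE
  exact ⟨E', b1, b2, ev_eq_iff.2 (hA.mono fun ω hω => a3 hω) ▸ b4 m m.lt_succ_self f' a2⟩

/-- the band coordinates of a cell that contains a strongly triangular point -/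
theorem STri.sel (hS : PfClosed S) (hE : Tow S (thM M) P d E) {d' : ℕ} {A' : Set (Fin d' → ℝ)}
    {ι : (Fin d' → ℝ) → Fin m → ℝ} (hg : GCell (PfM s M) m d' A' ι) (h : STri S M P d y m k)
    (hy : At (fun x => x ∈ ι '' A') y) :
    ∃ (σ : Fin d' → Fin m) (z : ℕ → U), (∀ x, (fun i => ι x (σ i)) = x) ∧
      (∀ i : Fin d', z i = y (σ i)) ∧ WTri S M P d z d' k := by
  induction hg generalizing k with
  | point =>
    cases h
    exact ⟨id, y, fun _ => rfl, fun _ => rfl, .zero⟩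
  | @graph m d' A' ι f hg hf ih =>
    have hy' : At (fun x => x ∈ ι '' A') y := hy.mono fun ω ⟨u, hu, e⟩ =>
      ⟨u, hu, by simpa only [Fin.init_snoc, init_tp] using congrArg Fin.init e⟩
    cases h with
    | same h0 _ =>
      obtain ⟨σ, z, a1, a2, a3⟩ := ih h0 hy'
      exact ⟨fun i => (σ i).castSucc, z, fun x => by simpa using a1 x, a2, a3⟩
    | new h0 h1 _ h3 =>
      obtain ⟨σ, z, a1, a2, a3⟩ := ih h0 hy'
      obtain ⟨f', df, ef⟩ := (hf.dp hS).2 f rfl
      refine absurd ?_ h3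
      have e : ev f' z = y m := ev_eq (hy.mono fun ω ⟨u, hu, e⟩ => by
        have e1 := congrArg Fin.init e
        have e2 := congrFun e (Fin.last m)
        simp only [Fin.init_snoc, Fin.snoc_last, init_tp, tp_last] at e1 e2
        have e3 : tp z d' ω = u := by
          rw [← a1 u, e1]
          funext i
          simp only [tp, a2]
        rw [e3, ef hu, e2])
      rw [← e]
      exact ev_mem (fun i hi => (a3.able i hi).mem_dcl hE h1.le) df
  | @band m d' A' ι g g' hg _ _ _ ih =>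
    have hy' : At (fun x => x ∈ ι '' A') y := hy.mono fun ω ⟨u, hu, e⟩ =>
      ⟨_, hu.1, by simpa only [Fin.init_snoc, init_tp] using congrArg Fin.init e⟩
    have key : ∀ k₀, STri S M P d y m k₀ → k₀ ≤ k → k ≤ k₀ + 1 → k ≤ d →
        TAble S M P d k (y m) → ∃ (σ : Fin (d' + 1) → Fin (m + 1)) (z : ℕ → U),
          (∀ x : Fin (d' + 1) → ℝ, (fun i => (Fin.snoc (ι (Fin.init x)) (x (Fin.last d')) :
            Fin (m + 1) → ℝ) (σ i)) = x) ∧
          (∀ i : Fin (d' + 1), z i = y (σ i)) ∧ WTri S M P d z (d' + 1) k :=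
      fun k₀ h0 h1 h2 h3 h4 => by
      obtain ⟨σ, z, a1, a2, a3⟩ := ih h0 hy'
      refine ⟨Fin.snoc (fun i => (σ i).castSucc) (Fin.last _), upd z d' (y m),
        fun x => funext fun i => ?_, fun i => ?_, .succ (a3.congr (agree_upd _).symm) h1
          (h2.trans (Nat.succ_le_succ a3.le.1)) h3 (by rwa [upd_self])⟩
      · refine Fin.lastCases ?_ (fun j => ?_) i
        · simp
        · simpa [Fin.init] using congrFun (a1 (Fin.init x)) j
      · refine Fin.lastCases ?_ (fun j => ?_) i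
        · simp [upd_self]
        · simp only [Fin.val_castSucc, Fin.snoc_castSucc]
          rw [upd_of_ne j.2.ne, a2]
    cases h with
    | same h0 h1 => exact key _ h0 le_rfl (Nat.le_succ _) h0.le h1
    | new h0 h1 h2 _ => exact key _ h0 (Nat.le_succ _) le_rfl h1 h2

end Pool.Agent.Lib.MP_1a1eb7_lc
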