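import Pool.Agent.Lib.MP_1a1eb7_lc.Lv.Defs
import Pool.Agent.Lib.MP_1a1eb7_lc.Cover

/-! The core statement `Main` for systems of level `M`: contexts and the algebraic case. -/

namespace Pool.Agent.Lib.MP_1a1eb7_lc

open Set Filter Topology Pool.Agent.Shared.OMin
open Ordinal (omega0)

variable {S : OStr} {M : ℕ} {Γ : SysM M} {θ θ₁ θ₂ τ : ℕ → Ordinal.{0}} {P Q Z Z' y : ℕ → U}
  {n m k r N : ℕ} {E E' : ℕ → Fld} {c c' : Ctx} {α β γ : Ordinal.{0}} {K K₀ K₀' K₁ K₂ K' : Fld}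

theorem MainAt.ctx (hM : MainAt S Γ θ n) {n₀ : ℕ} (hc : Sem S θ₁ c n₀) (hn : n₀ ≤ n)
    (hT : Tow S θ P n E) (hh : c.Has n₀ P) (hv : ∀ k ≤ n₀, c.Vals k P (E k)) {R : ℕ → Set U}
    (hR : Req R E n) : ∃ (c' : Ctx) (E' : ℕ → Fld), Sem S θ c' n ∧ FullM Γ c' n ∧
      Pt S θ c' P n E' ∧ Ext E E' n ∧ c'.Le c n₀ ∧
      ∀ k ≤ n, ∀ e ∈ R k, c'.Rep k P e ∧ Sg S c' k P e := by
  let G : ∀ k, Set (Fn k) := fun k => {φ | k ≤ n₀ ∧ φ ∈ c.gens k}
  have hG : ∀ k, (G k).Finite := fun k => by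
    by_cases hk : k ≤ n₀
    · exact (hc.fin k hk).subset fun _ hφ => hφ.2
    · exact finite_empty.subset fun _ hφ => hk hφ.1
  let R' : ℕ → Set U := fun k => (R k ∪ (fun e => e⁻¹) '' R k) ∪
    ((fun φ => ev φ P) '' G k ∪ {e | k ≤ n₀ ∧ e ∈ CtxB.ends c P k})
  have hR' : Req R' E n := by
    intro k hk
    refine ⟨((hR k hk).1.union ((hR k hk).1.image _)).union (((hG k).image _).union
      ((CtxB.ends_finite c P k).subset fun _ he => he.2)), ?_⟩
    rintro e ((he | ⟨e, he, rfl⟩) | (⟨φ, hφ, rfl⟩ | ⟨hk', he⟩))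
    · exact (hR k hk).2 he
    · exact (E k).inv_mem ((hR k hk).2 he)
    · exact hv k hφ.1 φ hφ.2
    · cases k with
      | zero => exact he.elim
      | succ k =>
        have h1 : P k ∈ E (k + 1) := hT.mem k.lt_succ_self hk
        have h2 : E k ≤ E (k + 1) := hT.le k.le_succ hk
        rcases he with rfl | rfl
        · exact (E (k + 1)).inv_mem ((E (k + 1)).sub_mem h1
            (h2 (hv k (by omega) _ (hc.lo_mem k hk'))))
        · exact (E (k + 1)).inv_mem ((E (k + 1)).sub_mem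
            (h2 (hv k (by omega) _ (hc.hi_mem k hk'))) h1)
  obtain ⟨c₁, E₁, s1, f1, p1, x1, r1⟩ := hM P E R' hT hR'
  have hsub : ∀ k ≤ n₀, c₁.cell k ⊆ c.cell k := fun k hk =>
    CtxB.cell_subset hc (s1.down hn) (hT.gen.mono hn) hh (p1.has.down hn)
      (fun j hj e he => r1 j (hj.trans hn) e (.inr (.inr ⟨hj, he⟩))) hk
  have hd : ∀ k ≤ n, ∀ φ ∈ G k, DF S φ ∧ ∃ ψ ∈ c₁.gens k, EqOn φ ψ (c₁.cell k) := by
    intro k hk φ hφ
    obtain ⟨ψ, hψ, e⟩ := r1 k hk _ (.inr (.inl ⟨φ, hφ, rfl⟩))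
    exact ⟨hc.df k hφ.1 φ hφ.2, ψ, hψ, s1.ident hk (hT.gen.mono hk) (p1.has.down hk)
      (hc.df k hφ.1 φ hφ.2) (s1.df k hk ψ hψ) ((hc.an k hφ.1 φ hφ.2).mono (hsub k hφ.1))
      (s1.an k hk ψ hψ) e.symm⟩
  refine ⟨⟨c₁.lo, c₁.hi, fun k => c₁.gens k ∪ G k⟩, E₁, CtxB.sem_addEq s1 (fun k _ => hG k) hd,
    fun k hk => ?_, ⟨p1.tow, CtxB.has_of_subset p1.has (CtxB.cell_gens _ _ _).symm.subset,
      fun k hk => ?_⟩, x1, fun k hk => ?_, fun k hk e he => ⟨?_, ?_⟩⟩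
  · rw [CtxB.cell_gens]
    refine ⟨(f1 k hk).1, ?_⟩
    rintro φ (hφ | hφ)
    · exact (f1 k hk).2 φ hφ
    · obtain ⟨ψ, hψ, e⟩ := (hd k hk φ hφ).2
      exact Γ.congr ((f1 k hk).2 ψ hψ) e
  · rintro φ (hφ | hφ)
    · exact p1.vals k hk φ hφ
    · exact x1 k hk (hv k hφ.1 φ hφ.2)
  · rw [CtxB.cell_gens]
    exact ⟨hsub k hk, fun φ hφ => .inr ⟨hk, hφ⟩⟩
  · obtain ⟨ψ, hψ, e⟩ := r1 k hk e (.inl (.inl he))
    exact ⟨ψ, .inl hψ, e⟩
  · have := CtxB.sg_of_rep s1 hk (hT.gen.mono hk) (p1.has.down hk)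
      (r1 k hk _ (.inl (.inr ⟨e, he, rfl⟩)))
    unfold Sg at this ⊢
    rwa [CtxB.cell_gens]

theorem MainAt.sg (hM : MainAt S Γ θ n) (hT : Tow S θ P n E) {R : ℕ → Set U} (hR : Req R E n) :
    ∃ (c' : Ctx) (E' : ℕ → Fld), Sem S θ c' n ∧ FullM Γ c' n ∧ Pt S θ c' P n E' ∧ Ext E E' n ∧
      ∀ k ≤ n, ∀ e ∈ R k, c'.Rep k P e ∧ Sg S c' k P e := by
  obtain ⟨c', E', h1, h2, h3, h4, -, h5⟩ := hM.ctx (CtxB.sem_zero S) n.zero_le hT
    (Eventually.of_forall fun _ => mem_univ _) (fun _ _ _ h => h.elim) hR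
  exact ⟨c', E', h1, h2, h3, h4, h5⟩

/-- requests only at the top level -/
theorem MainAt.top (hM : MainAt S Γ θ n) {n₀ : ℕ} (hc : Sem S θ₁ c n₀) (hn : n₀ ≤ n)
    (hT : Tow S θ P n E) (hh : c.Has n₀ P) (hv : ∀ k ≤ n₀, c.Vals k P (E k)) {R : Set U}
    (hR : R.Finite) (hR' : R ⊆ E n) : ∃ (c' : Ctx) (E' : ℕ → Fld), Sem S θ c' n ∧ FullM Γ c' n ∧
      Pt S θ c' P n E' ∧ Ext E E' n ∧ c'.Le c n₀ ∧
      ∀ e ∈ R, c'.Rep n P e ∧ Sg S c' n P e := by
  have hq : Req (fun k => {e | k = n ∧ e ∈ R}) E n := fun k _ =>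
    ⟨hR.subset fun _ he => he.2, by rintro e ⟨rfl, he⟩; exact hR' he⟩
  obtain ⟨c', E', h1, h2, h3, h4, h5, h6⟩ := hM.ctx hc hn hT hh hv hq
  exact ⟨c', E', h1, h2, h3, h4, h5, fun e he => h6 n le_rfl e ⟨rfl, he⟩⟩

theorem lv_main_zero (hT : Tow S θ P 0 E) {R : ℕ → Set U} (hR : Req R E 0) :
    ∃ (c : Ctx) (E' : ℕ → Fld), Sem S θ c 0 ∧ FullM Γ c 0 ∧ Pt S θ c P 0 E' ∧ Ext E E' 0 ∧
      ∀ k ≤ 0, ∀ e ∈ R k, c.Rep k P e := by
  have hv : ∀ (k : ℕ) (y : ℕ → U) (K : Fld), Ctx.Vals ⟨fun _ _ => 0, fun _ _ => 0,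
      fun _ => (fun r _ => r) '' {r : ℝ | algebraMap ℝ U r ∈ R 0}⟩ k y K := by
    rintro k y K _ ⟨r, -, rfl⟩
    rw [ev_const]
    exact K.algebraMap_mem r
  refine ⟨⟨fun _ _ => 0, fun _ _ => 0,
    fun _ => (fun r _ => r) '' {r : ℝ | algebraMap ℝ U r ∈ R 0}⟩, E,
    ⟨fun k _ => ?_, ?_, ?_, fun k hk => absurd hk k.not_lt_zero,
      fun k hk => absurd hk k.not_lt_zero, fun k hk => absurd hk k.not_lt_zero, fun k hk => ?_⟩,
    fun k hk => ?_, ⟨hT, Eventually.of_forall fun _ => mem_univ _, fun k _ => hv k P _⟩,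
    Ext.refl E 0, fun k hk e he => ?_⟩
  · exact ((hR 0 le_rfl).1.preimage (algebraMap ℝ U).injective.injOn).image _
  · rintro k - _ ⟨r, -, rfl⟩
    exact DF.const r
  · rintro k - _ ⟨r, -, rfl⟩
    exact analyticOnNhd_const
  · exact ⟨0, hT.pos hk, fun P m y K _ _ _ _ _ => ⟨K, Pres.nil, hv k y K⟩⟩
  · obtain rfl := Nat.le_zero.1 hk
    refine ⟨Γ.zero, ?_⟩
    rintro _ ⟨r, -, rfl⟩
    exact Γ.const r Γ.zero
  · obtain rfl := Nat.le_zero.1 hk
    have h1 : e ∈ dcl S P 0 := (hT.dfld le_rfl).le ((hR 0 le_rfl).2 he)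
    rw [dcl_zero] at h1
    obtain ⟨r, rfl⟩ := IntermediateField.mem_bot.1 h1
    exact ⟨_, ⟨r, he, rfl⟩, ev_const r P⟩

theorem lv_pf_poly {ι : Type} {A : Set (Fin k → ℝ)} (hA : Γ.Cell k A) {f : ι → Fn k}
    (hf : ∀ i, Γ.Pf k A (f i)) (p : MvPolynomial ι ℝ) :
    Γ.Pf k A fun x => MvPolynomial.eval (fun i => f i x) p := by
  induction p using MvPolynomial.induction_on with
  | C r => simpa using Γ.const r hA
  | add p q hp hq => simpa using Γ.add hp hq
  | mul_X p i hp => simpa using Γ.mul hp (hf i)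

/-- a context below on whose cell a semialgebraic condition holds -/
theorem lv_nil_lower (hM : MainAt S Γ τ n) (hT : Tow S τ P n E) {R : ℕ → Set U} (hR : Req R E n)
    {ι : Type} [Fintype ι] {a : ι → U} (ha : ∀ i, a i ∈ E n) {Ψ : (ι → ℝ) → Prop}
    (hΨ : DP semialg Ψ) (h : ∀ᶠ ω in 𝔲, Ψ (tup a ω)) :
    ∃ (c : Ctx) (E' : ℕ → Fld) (f : ι → Fn n), Sem S τ c n ∧ FullM Γ c n ∧ Pt S τ c P n E' ∧
      Ext E E' n ∧ (∀ k ≤ n, ∀ e ∈ R k, c.Rep k P e) ∧ (∀ i, f i ∈ c.gens n ∧ ev (f i) P = a i) ∧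
      ∀ x ∈ c.cell n, Ψ fun i => f i x := by
  obtain ⟨T, hT'⟩ := semialg_char hΨ
  obtain ⟨c, E', h1, h2, h3, h4, h5⟩ := hM.sg hT
    (R := Function.update R n (R n ∪ range a ∪ (fun p => MvPolynomial.aeval a p) ''
      (T : Set (MvPolynomial ι ℝ))))
    fun k hk => by
      rcases hk.eq_or_lt with rfl | hk'
      · rw [Function.update_self]
        refine ⟨((hR k le_rfl).1.union (finite_range a)).union (T.finite_toSet.image _),
          union_subset (union_subset (hR k le_rfl).2 (range_subset_iff.2 ha)) ?_⟩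
        rintro _ ⟨p, -, rfl⟩
        exact nil_aeval_mem ha p
      · rw [Function.update_of_ne hk'.ne]
        exact hR k hk
  have h6 := h5 n le_rfl
  rw [Function.update_self] at h6
  choose f hf hf' using fun i => (h6 (a i) (.inl (.inr (mem_range_self i)))).1
  refine ⟨c, E', f, h1, h2, h3, h4, fun k hk e he => (h5 k hk e ?_).1, fun i => ⟨hf i, hf' i⟩,
    fun x hx => ?_⟩
  · rcases hk.eq_or_lt with rfl | hk'
    · rw [Function.update_self]
      exact .inl (.inl he)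
    · rwa [Function.update_of_ne hk'.ne]
  · obtain ⟨ω, h7, h8, h9⟩ :=
      (h.and (h3.has.and (eventually_all.2 fun i => out_ev (f i) P))).exists
    have e : tup a ω = fun i => f i (tp P n ω) := funext fun i => by
      rw [← h9 i, hf' i]; rfl
    rw [e] at h7
    refine (hT' _ _ fun p hp => ?_).2 h7
    refine nil_sign (χ := fun x => MvPolynomial.eval (fun i => f i x) p) ((h6 _
      (.inr ⟨p, hp, rfl⟩)).2 _ (DF.mvPolynomial p fun i => h1.df n le_rfl _ (hf i))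
      (AnalyticOnNhd.aeval_mvPolynomial (f := fun x i => f i x)
        (fun i => h1.an n le_rfl _ (hf i)) p) ?_) hx h8
    rw [ev_mvPoly, funext hf']

theorem lv_main_nil (hM : MainAt S Γ τ n) (hτle : ∀ k ≤ n, τ k ≤ θ k) (hTτ : Tow S τ P n E)
    (hT : Tow S θ P (n + 1) E)
    (hnil : E (n + 1) = adj (E n) (P n)) {R : ℕ → Set U} (hR : Req R E (n + 1)) :
    ∃ (c : Ctx) (E' : ℕ → Fld), Sem S θ c (n + 1) ∧ FullM Γ c (n + 1) ∧ Pt S θ c P (n + 1) E' ∧
      Ext E E' (n + 1) ∧ ∀ k ≤ n + 1, ∀ e ∈ R k, c.Rep k P e := by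
  obtain ⟨hfin, hsub⟩ := hR (n + 1) le_rfl
  rw [hnil] at hsub
  obtain ⟨T, hT1, hT2, hT3⟩ := exists_finite_adj hfin hsub
  have := hT1.fintype
  have := hfin.to_subtype
  let b : Option T → U := fun o => o.elim (P n) Subtype.val
  have halg : ∀ e : R (n + 1), IsAlgebraic (IntermediateField.adjoin ℝ (range b)) (e : U) :=
    fun e => alg_mono (sup_le le_rfl (IntermediateField.adjoin.mono ℝ _ _
      (singleton_subset_iff.2 ⟨none, rfl⟩))) (mem_rcl.1 (hT3 _ (fun x hx =>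
        IntermediateField.subset_adjoin ℝ _ (mem_range_self (f := b) (some ⟨x, hx⟩))) e.2))
  choose σ Φ d q hσ hΦ hev hcont hq using fun e => cert b (halg e)
  have hE := hT.dfld n.le_succ
  have hΦ' : DP semialg fun z : (T → ℝ) × ℝ => ∀ e, Φ e fun o => o.elim z.2 z.1 :=
    DP.fin_and fun e => (hΦ e).comp (DF.pi fun o => by cases o <;> simp only [Option.elim] <;>
      fun_prop)
  obtain ⟨g, hg, h, hh, g1, g2, g3, g4, g5⟩ := exists_alg_interval (a := (Subtype.val : T → U))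
    (Φ := fun x t => ∀ e, Φ e fun o => o.elim t x) hE.rc (fun i => hT2 i.2)
    (fun h => hT.gen.last (hE.le h)) (hT.bd n n.lt_succ_self) hΦ' (by
      filter_upwards [eventually_all.2 hev] with ω h e
      convert (h e).1 using 2 with o
      cases o <;> rfl)
  let a : T ⊕ Bool → U := Sum.elim Subtype.val fun s => cond s h g
  have ha : ∀ i, a i ∈ E n := by
    rintro (i | _ | _)
    exacts [hT2 i.2, hg, hh]
  let Ψ : (T ⊕ Bool → ℝ) → Prop := fun x => x (.inr false) < x (.inr true) ∧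
    (∀ t, x (.inr false) < t ∧ t < x (.inr true) → ∀ e, Φ e fun o => o.elim t fun i => x (.inl i)) ∧
    (if g = -1 then x (.inr false) = -1 else -1 < x (.inr false)) ∧
    (if h = 1 then x (.inr true) = 1 else x (.inr true) < 1)
  have hΨ : DP semialg Ψ := by
    refine DP.and (by fun_prop) (DP.and (DP.all (DP.imp (by fun_prop) (hΦ'.comp
      (g := fun z : (T ⊕ Bool → ℝ) × ℝ => (fun i => z.1 (.inl i), z.2)) (by fun_prop))))
      (DP.and ?_ ?_))
    · split_ifs <;> fun_prop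
    · split_ifs <;> fun_prop
  have hΨa : ∀ᶠ ω in 𝔲, Ψ (tup a ω) := by
    have e1 : ∀ᶠ ω in 𝔲, if g = -1 then out g ω = -1 else -1 < out g ω := by
      split_ifs with e
      · filter_upwards [out_neg 1, out_one] with ω h1 h2
        rw [e, h1, h2]
      · filter_upwards [lt_iff.1 (g1.lt_of_ne' e), out_neg 1, out_one] with ω h0 h1 h2
        rwa [h1, h2] at h0
    have e2 : ∀ᶠ ω in 𝔲, if h = 1 then out h ω = 1 else out h ω < 1 := by
      split_ifs with e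
      · rw [e]; exact out_one
      · filter_upwards [lt_iff.1 (g4.lt_of_ne e), out_one] with ω h0 h2
        rwa [h2] at h0
    filter_upwards [lt_iff.1 (g2.trans g3), g5, e1, e2] with ω h1 h2 h3 h4
    exact ⟨h1, h2, h3, h4⟩
  obtain ⟨c, E₁, f, hc, hF, hp, hext, hrep, hf, hcell⟩ := lv_nil_lower hM
    hTτ (R := R) (fun k hk => hR k (hk.trans n.le_succ)) ha hΨ hΨa
  have hlo : (∀ x ∈ c.cell n, f (.inr false) x = -1) ∨ ∀ x ∈ c.cell n, -1 < f (.inr false) x := by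
    by_cases e : g = -1
    · exact .inl fun x hx => by simpa only [if_pos e] using (hcell x hx).2.2.1
    · exact .inr fun x hx => by simpa only [if_neg e] using (hcell x hx).2.2.1
  have hhi : (∀ x ∈ c.cell n, f (.inr true) x = 1) ∨ ∀ x ∈ c.cell n, f (.inr true) x < 1 := by
    by_cases e : h = 1
    · exact .inl fun x hx => by simpa only [if_pos e] using (hcell x hx).2.2.2
    · exact .inr fun x hx => by simpa only [if_neg e] using (hcell x hx).2.2.2
  set A := band (c.cell n) (f (.inr false)) (f (.inr true)) with hA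
  let B : Option T → Fn (n + 1) := nilB fun i => f (.inl i)
  have hB : ∀ z ∈ A, ∀ e, Φ e fun o => B o z := fun z hz => (hcell _ hz.1).2.1 _ hz.2
  have fan : ∀ i, AnalyticOnNhd ℝ (f i) (c.cell n) := fun i => hc.an n le_rfl _ (hf i).1
  have hAo : IsOpen A :=
    CtxB.isOpen_band (hc.isOpen le_rfl) (fan _).continuousOn (fan _).continuousOn
  have hAc : Γ.Cell (n + 1) A := Γ.band (hF n le_rfl).1 ((hF n le_rfl).2 _ (hf _).1)
    ((hF n le_rfl).2 _ (hf _).1) (fun x hx => (hcell x hx).1) hlo hhi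
  have Bd : ∀ o, DF S (B o) := by
    rintro (_ | i)
    · exact DF.apply (Fin.last n)
    · exact (hc.df n le_rfl _ (hf (.inl i)).1).comp (DF.init DF.id')
  have Ba : ∀ o, AnalyticOnNhd ℝ (B o) A := by
    rintro (_ | i)
    · exact fun z _ => (ContinuousLinearMap.proj (R := ℝ) (φ := fun _ : Fin (n + 1) => ℝ)
        (Fin.last n)).analyticAt z
    · exact analyticOnNhd_init (fan (.inl i)) fun z hz => hz.1
  have Bp : ∀ o, Γ.Pf (n + 1) A (B o) := by
    rintro (_ | i)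
    · exact Γ.coord (Fin.last n) hAc
    · exact Γ.lift ((hF n le_rfl).2 _ (hf (.inl i)).1) hAc fun z hz => hz.1
  let φ : R (n + 1) → Fn (n + 1) := fun e z => σ e fun o => B o z
  have φa : ∀ e, AnalyticOnNhd ℝ (φ e) A := fun e =>
    analyticOnNhd_simple_root hAo (q := fun i z => MvPolynomial.eval (fun o => B o z) (q e i))
      (fun i => AnalyticOnNhd.aeval_mvPolynomial (f := fun z o => B o z) Ba (q e i))
      ((hcont e).comp (continuousOn_pi.2 fun o => (Ba o).continuousOn) fun z hz => hB z hz e)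
      (fun z hz => (hq e _ (hB z hz e)).2.1) fun z hz => (hq e _ (hB z hz e)).2.2
  have φe : ∀ e, ev (φ e) P = e := fun e => ev_eq (by
    filter_upwards [hev e, nil_tup (fun i => f (.inl i)) P] with ω h1 h2
    refine h1.2.trans (congrArg (σ e) (Eq.trans ?_ h2.symm))
    congr 1
    funext o
    cases o with
    | none => rfl
    | some i => exact (hf (.inl i)).2.symm)
  have hp' := hp.setTop (f (.inr false)) (f (.inr true)) (range φ)
  have hadj : adj (E n) (P n) ≤ adj (E₁ n) (P n) := adj_mono (hext n le_rfl) _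
  refine ⟨c.setTop n (f (.inr false)) (f (.inr true)) (range φ),
    Function.update E₁ (n + 1) (adj (E₁ n) (P n)),
    (hc.mono hτle).setTop' (hf _).1 (hf _).1 (fun x hx => ⟨?_, (hcell x hx).1, ?_⟩)
      (finite_range φ) ?_ (hT.pos le_rfl) ?_, fun k hk => ?_,
    ⟨(hp.tow.mono hτle).succ hT.gen.last (hT.bd n n.lt_succ_self) Pres.nil (hT.pos le_rfl),
      Ctx.has_succ.2 ⟨hp'.has, ?_, ?_⟩, fun k hk => ?_⟩, fun k hk => ?_, fun k hk e he => ?_⟩
  · exact hlo.elim (fun h => (h x hx).ge) fun h => (h x hx).le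
  · exact hhi.elim (fun h => (h x hx).le) fun h => (h x hx).le
  · rintro _ ⟨e, rfl⟩
    exact ⟨(nil_df_le S (hσ e)).comp (DF.pi Bd), φa e⟩
  · intro P' m y K _ hK hy _ hv
    refine ⟨K, Pres.nil, fun ψ hψ => ?_⟩
    rw [Ctx.setTop_gens_succ] at hψ
    obtain ⟨e, rfl⟩ := hψ
    refine nil_semi_mem hK.rc (b := fun o : Option T => o.elim (y n) fun i => ev (f (.inl i)) y)
      ?_ (hσ e) ?_
    · rintro (_ | i)
      · exact hy n n.lt_succ_self
      · exact hv n n.lt_succ_self _ (by rw [Ctx.setTop_gens le_rfl]; exact (hf (.inl i)).1)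
    · filter_upwards [out_ev (φ e) y, nil_tup (fun i => f (.inl i)) y] with ω h1 h2
      exact h1.trans (congrArg (σ e) h2)
  · rcases hk.eq_or_lt with rfl | hk'
    · rw [Ctx.setTop_cell_succ, Ctx.setTop_gens_succ]
      refine ⟨hAc, ?_⟩
      rintro _ ⟨e, rfl⟩
      exact Γ.alg (d e) (fun i z => MvPolynomial.eval (fun o => B o z) (q e i)) hAc
        (fun i => lv_pf_poly hAc Bp (q e i)) (φa e) (fun z hz => (hq e _ (hB z hz e)).2.1)
        (fun z hz => (hq e _ (hB z hz e)).1) fun z hz => (hq e _ (hB z hz e)).2.2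
    · have hk' := Nat.lt_succ_iff.1 hk'
      rw [Ctx.setTop_cell hk', Ctx.setTop_gens hk']
      exact hF k hk'
  · rw [Ctx.setTop_lo, (hf _).2]
    exact g2
  · rw [Ctx.setTop_hi, (hf _).2]
    exact g3
  · rcases hk.eq_or_lt with rfl | hk'
    · rw [Function.update_self]
      intro ψ hψ
      rw [Ctx.setTop_gens_succ] at hψ
      obtain ⟨e, rfl⟩ := hψ
      rw [φe]
      exact hadj (hsub e.2)
    · rw [Function.update_of_ne hk'.ne]
      exact hp'.vals k (Nat.lt_succ_iff.1 hk')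
  · rcases hk.eq_or_lt with rfl | hk'
    · rw [Function.update_self, hnil]
      exact hadj
    · rw [Function.update_of_ne hk'.ne]
      exact hext k (Nat.lt_succ_iff.1 hk')
  · rcases hk.eq_or_lt with rfl | hk'
    · exact ⟨φ ⟨e, he⟩, by rw [Ctx.setTop_gens_succ]; exact mem_range_self _, φe _⟩
    · have hk' := Nat.lt_succ_iff.1 hk'
      obtain ⟨ψ, h1, h2⟩ := hrep k hk' e he
      exact ⟨ψ, by rwa [Ctx.setTop_gens hk'], h2⟩

end Pool.Agent.Lib.MP_1a1eb7_lc
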