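import Pool.Agent.Lib.MP_1a1eb7_lc.Lv.Defs

/-! The ordinal bounds for level `M`. -/

namespace Pool.Agent.Lib.MP_1a1eb7_lc

open Ordinal (omega0)

variable {M j k n : ℕ} {a b α β : Ordinal.{0}} {θ : ℕ → Ordinal.{0}}

theorem twr_add (ha : a < twr j) (hb : b < twr j) : a + b < twr j := by
  cases j with
  | zero =>
    simp only [twr, Order.lt_one_iff] at ha hb ⊢
    rw [ha, hb, add_zero]
  | succ j => exact Ordinal.isPrincipal_add_omega0_opow _ ha hb

theorem twr_pos (j : ℕ) : 0 < twr j := by
  cases j with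
  | zero => exact zero_lt_one
  | succ j => exact Ordinal.opow_pos _ Ordinal.omega0_pos

theorem twr_pow_lt (j : ℕ) : omega0 ^ twr j < twr (j + 1) :=
  (Ordinal.opow_lt_opow_iff_right Ordinal.one_lt_omega0).2 (Order.lt_add_one_iff.2 le_rfl)

theorem twr_mono : Monotone twr := monotone_nat_of_le_succ fun j =>
  (Ordinal.right_le_opow _ Ordinal.one_lt_omega0).trans (twr_pow_lt j).le

theorem twr_node (h : β < twr j) : omega0 ^ (β + 1) < twr (j + 1) :=
  (Ordinal.opow_le_opow_right Ordinal.omega0_pos (Order.add_one_le_iff.2 h)).trans_lt (twr_pow_lt j)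

theorem thM_add (ha : a < thM M k) (hb : b < thM M k) : a + b < thM M k := twr_add ha hb

theorem thM_pos (M k : ℕ) : 0 < thM M k := twr_pos _

theorem thM_anti (h : j ≤ k) : thM M k ≤ thM M j := twr_mono (by omega)

theorem thM_node (hk : k ≤ M) (h : β < thM M (k + 1)) : omega0 ^ (β + 1) < thM M k := by
  have e : M + 1 - k = M + 1 - (k + 1) + 1 := by omega
  rw [thM, e]
  exact twr_node h

theorem thM_top (h : M + 1 ≤ k) : thM M k = 1 := by
  rw [thM, Nat.sub_eq_zero_of_le h, twr]

/-- the closed sequence that agrees with `thM M` up to `M + 1` -/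
noncomputable def thM0 (M : ℕ) : ℕ → Ordinal.{0} := fun k => if k ≤ M + 1 then thM M k else 0

theorem clo_thM0 (M : ℕ) : Clo (thM0 M) := by
  intro k _ a ha
  rcases lt_trichotomy k (M + 1) with h | rfl | h
  · have e : M + 1 - k = M + 1 - (k + 1) + 1 := by omega
    simp only [thM0, if_pos h.le, if_pos (Nat.succ_le_of_lt h), thM] at ha ⊢
    rw [e] at ha ⊢
    exact (twr_add ha (twr_pow_lt _)).le
  · simp only [thM0, if_pos le_rfl, thM_top le_rfl, Order.lt_one_iff] at ha ⊢
    rw [ha, if_neg (by omega)]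
    simp
  · simp [thM0, not_le.2 h] at ha

theorem lv_omega_le (α β : Ordinal.{0}) : omega0 ≤ α + omega0 ^ (β + 1) := by
  refine le_trans ?_ le_add_self
  conv_lhs => rw [← Ordinal.opow_one omega0]
  exact Ordinal.opow_le_opow_right Ordinal.omega0_pos le_add_self

/-- a node can only occur at a level up to `M` -/
theorem lv_cap (hθ : Clo θ) (hb : θ 0 ≤ twr (M + 1)) (h0 : ∀ k ≤ n, 0 < θ k)
    (h : omega0 ≤ θ n) : n ≤ M := by
  by_contra hn
  have h1 : ∀ k < n, omega0 ^ θ (k + 1) ≤ θ k := fun k hk => by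
    simpa using hθ k (Nat.zero_le _) 0 (h0 k hk.le)
  have h2 : ∀ i ≤ n, omega0 ≤ θ (n - i) := fun i hi => by
    induction i with
    | zero => exact h
    | succ i ih =>
      have := h1 (n - (i + 1)) (by omega)
      rw [show n - (i + 1) + 1 = n - i by omega] at this
      exact ((ih (by omega)).trans (Ordinal.right_le_opow _ Ordinal.one_lt_omega0)).trans this
  have h3 : ∀ j ≤ M + 1, twr j + omega0 ≤ θ (M + 1 - j) := fun j hj => by
    induction j with
    | zero =>
      have := h2 (n - (M + 1)) (by omega)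
      rw [show n - (n - (M + 1)) = M + 1 by omega] at this
      simpa [twr, Ordinal.one_add_omega0] using this
    | succ j ih =>
      have h4 := h1 (M + 1 - (j + 1)) (by omega)
      rw [show M + 1 - (j + 1) + 1 = M + 1 - j by omega] at h4
      refine le_trans ?_ ((Ordinal.opow_le_opow_right Ordinal.omega0_pos (ih (by omega))).trans h4)
      have h5 : twr j + 1 < twr j + omega0 := by
        gcongr
        exact Ordinal.one_lt_omega0
      refine (Ordinal.isPrincipal_add_omega0_opow _
        ((Ordinal.opow_lt_opow_iff_right Ordinal.one_lt_omega0).2 h5) ?_).le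
      conv_lhs => rw [← Ordinal.opow_one omega0]
      exact (Ordinal.opow_lt_opow_iff_right Ordinal.one_lt_omega0).2 (le_add_self.trans_lt h5)
  have h6 := (h3 (M + 1) le_rfl).trans (by simpa using hb)
  exact absurd h6 (not_le.2 (lt_add_of_pos_right _ Ordinal.omega0_pos))

end Pool.Agent.Lib.MP_1a1eb7_lc
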