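import Pool.Agent.Lib.MP_1a1eb7_lc.Lv.Core1
import Pool.Agent.Lib.MP_1a1eb7_lc.Lv.Ord

/-! The core statement `Main` for systems of level `M`: the node case and the induction. -/

namespace Pool.Agent.Lib.MP_1a1eb7_lc

open Set Filter Topology Pool.Agent.Shared.OMin
open Ordinal (omega0)

variable {S : OStr} {M : ℕ} {Γ : SysM M} {θ θ₁ θ₂ τ : ℕ → Ordinal.{0}} {P Q Z Z' y : ℕ → U}
  {n m k r N : ℕ} {E E' : ℕ → Fld} {c c' : Ctx} {α β γ : Ordinal.{0}} {K K₀ K₀' K₁ K₂ K' : Fld}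

theorem lv_lim (hS : PfClosed S) (hτ : Clo τ) : LIM S τ := by
  obtain ⟨Γ₀, -⟩ := exists_sys
  exact (good_all hS Γ₀ hτ).2

theorem lv_extend_leaf (hS : PfClosed S) (hθ : Clo θ)
    (IH : ∀ τ, Clo τ → τ 0 < θ 0 → ∀ k, MainAt S Γ τ k) (hτ : Clo τ)
    (hlt : ∀ k ≤ n + 1, τ k < θ k) (hc : Sem S τ c (n + 2)) {F : ℕ → Fn (n + 2)}
    (hF : ∀ i < n + 1, F i ∈ c.gens (n + 2))
    (hI : ∀ p ∈ c.cell (n + 2), ∀ i < n + 1, ∀ j < n + 1, itg F i j p = 0)
    (hP : Pt S τ c P (n + 1) E) {φ : Fn (n + 1)} (dφ : DF S φ)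
    (hsol : At (fun z => Fin.snoc z (φ z) ∈ c.cell (n + 2) ∧ SolAt F φ z) P) :
    ∃ (τ' : ℕ → Ordinal.{0}) (c' : Ctx) (E' : ℕ → Fld) (f : Fn (n + 1)), Clo τ' ∧
      (∀ k ≤ n + 1, τ' k < θ k) ∧ (∀ k, n + 1 ≤ k → τ' k = τ k) ∧ Sem S τ' c' (n + 1) ∧
      FullM Γ c' (n + 1) ∧ Pt S τ' c' P (n + 1) E' ∧ Ext E E' (n + 1) ∧ c'.Le c (n + 1) ∧
      DF S f ∧ ev f P = ev φ P ∧
      ∀ z ∈ c'.cell (n + 1), Fin.snoc z (f z) ∈ c.cell (n + 2) ∧ SolAt F f z := by
  obtain ⟨Γ₀, -⟩ := exists_sys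
  obtain ⟨τ', c₁, E₁, f, h1, h2, h3, h4, -, h6, h7, h8, h9, h10, h11⟩ :=
    extend_leaf (Γ := Γ₀) hS hθ (fun τ hτ _ => good_all hS Γ₀ hτ) hτ hlt hc hF hI hP dφ hsol
  obtain ⟨c₂, E₂, g1, g2, g3, g4, g5, -⟩ := (IH τ' h1 (h2 0 (Nat.zero_le _)) (n + 1)).top h4 le_rfl
    h6.tow h6.has h6.vals finite_empty (empty_subset _)
  exact ⟨τ', c₂, E₂, f, h1, h2, h3, g1, g2, g3, h7.trans g4, g5.trans h8, h9, h10,
    fun z hz => h11 z ((g5 _ le_rfl).1 hz)⟩

/-- the case where the centre is an end of the cell -/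
theorem lv_cons_end (hτ : Clo τ) (hL : LIM S τ) (hM : MainAt S Γ τ m) (hlt : ∀ k ≤ m, τ k < θ k)
    (hβ : τ (m + 1) = β + 1) (hT : Tow S θ P m E) {f w : U} (hf : f ∈ E m) (hne : w ≠ f)
    (hw : Inf (dcl S P m) (w - f)) (hb : |w| < 1) (hd1 : DFld S P m K₁)
    (hc : Pres S (upd P m w) (m + 1) (adj K₁ w) K' β) (hK2 : E m ≤ stF (dcl S P m) K')
    (hT' : Tow S τ (upd P m w) (m + 1) E') (e1 : ∀ k < m, E k ≤ E' k) (e2 : K₁ ≤ E' m)
    (e3 : K' ≤ E' (m + 1)) (hf' : f ∈ E' m) {R : ℕ → Set U} (hR : Req R E m) :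
    ∃ (c : Ctx) (E' : ℕ → Fld), Sem S θ c m ∧ FullM Γ c m ∧ Pt S θ c P m E' ∧
      Ext E E' m ∧ ∀ k ≤ m, ∀ e ∈ R k, c.Rep k P e := by
  have hdE := hT.dfld (le_refl m)
  have hfd := hdE.le hf
  obtain ⟨E2, hT2, he2, hR2⟩ := (hL m m (upd P m w) E' P f (R m) le_rfl hT' hT.gen
    (agree_upd w).symm (fun i hi => by
      have := hT'.mem (i := i) (k := m + 1) (by omega) le_rfl
      rwa [upd_of_ne hi.ne] at this) hf' (by simpa using hw) (hR m le_rfl).1
    fun e he => stF_mono e3 (hK2 ((hR m le_rfl).2 he))).self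
  have hT3 : Tow S τ P m E2 :=
    (hT2.mono fun k hk => by simp [skip, hk]).congr (agree_upd w)
  obtain ⟨c3, E3, hs3, hF3, hp3, he3, hr3⟩ := hM P E2 R hT3 fun k hk => ⟨(hR k hk).1, by
    rcases hk.lt_or_eq with h | rfl
    · exact fun e he => he2 k hk (e1 k h ((hR k hk).2 he))
    · exact hR2⟩
  have hd3 := hp3.tow.dfld (le_refl m)
  obtain ⟨hg, hd⟩ := cons_dfld_adj hT.gen hd1 hfd hne hw
  obtain ⟨K4, h4, hK4⟩ := hc.base_change hg hd (cons_dfld_adj hT.gen hd3 hfd hne hw).2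
    (adj_mono (e2.trans ((he2 m le_rfl).trans (he3 m le_rfl))) w)
  have hrc : RC K4 := (hK4.dfld (cons_dfld_adj hT.gen hd3 hfd hne hw).2).rc
  have hl1 : E3 m ≤ rcl (E3 m ⊔ E m) := le_sup_left.trans (le_rcl _)
  have hl2 : E m ≤ rcl (E3 m ⊔ E m) := le_sup_right.trans (le_rcl _)
  have hK : Pres S P m (E3 m) (rcl (E3 m ⊔ E m)) (omega0 ^ (β + 1)) :=
    Pres.cons (Pres.nil (α := 0)) (hl2 hf) hne hw hb hK4 (DFld.sup hT.gen hd3 hdE) hl1
      ((rc_stF rc_dcl hrc).rcl_le (sup_le (le_stF hd3.le ((le_adj _ _).trans hK4.le))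
        (hK2.trans (stF_mono h4)))) (by simp)
  have hT4 := Tow.extend_top' (τ := θ) (CloFrom.mono hτ (Nat.zero_le m)) hp3.tow hK
    (by rw [hβ]) (fun k hk => (hlt k hk.le).le) (hlt m le_rfl)
  have hx : Ext E3 (Function.update E3 m (rcl (E3 m ⊔ E m))) m := fun k hk => by
    rcases hk.lt_or_eq with h | rfl
    · rw [Function.update_of_ne h.ne]
    · rw [Function.update_self]; exact hl1
  refine ⟨c3, _, hs3.mono fun k hk => (hlt k hk).le, hF3, hp3.of_ext hT4 hx, fun k hk => ?_, hr3⟩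
  rcases hk.lt_or_eq with h | rfl
  · exact (e1 k h).trans ((he2 k hk).trans ((he3 k hk).trans (hx k hk)))
  · rw [Function.update_self]; exact hl2

theorem lv_main_cons (hS : PfClosed S) (hθ : Clo θ) (hn : n + 1 ≤ M)
    (IH : ∀ τ, Clo τ → τ 0 < θ 0 → ∀ k, MainAt S Γ τ k) (hT : Tow S θ P (n + 1) E)
    {α' : Ordinal.{0}} {f w : U} (h1 : Pres S P (n + 1) (base P E (n + 1)) K₁ α')
    (hf : f ∈ E (n + 1)) (hne : w ≠ f) (hw : Inf (dcl S P (n + 1)) (w - f)) (hb : |w| < 1)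
    (hc : Pres S (upd P (n + 1) w) (n + 2) (adj K₁ w) K' β) (hK1 : K₁ ≤ E (n + 1))
    (hK2 : E (n + 1) ≤ stF (dcl S P (n + 1)) K') (hlt : α' + omega0 ^ (β + 1) < θ (n + 1))
    {R : ℕ → Set U} (hR : Req R E (n + 1)) :
    ∃ (c : Ctx) (E' : ℕ → Fld), Sem S θ c (n + 1) ∧ FullM Γ c (n + 1) ∧ Pt S θ c P (n + 1) E' ∧
      Ext E E' (n + 1) ∧ ∀ k ≤ n + 1, ∀ e ∈ R k, c.Rep k P e := by
  classical
  have hdE := hT.dfld (le_refl (n + 1))
  have hfd := hdE.le hf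
  obtain ⟨τ, hτ, hlτ, hβ, hTc⟩ := hT.child hθ h1 hfd hne hw hb hc hlt
  have hG : ∀ k, MainAt S Γ τ k := IH τ hτ (hlτ 0 (Nat.zero_le _))
  set Ec := Function.update (Function.update E (n + 1) K₁) (n + 1 + 1) K' with hEc
  have ec0 : ∀ k < n + 1, Ec k = E k := fun k hk => by
    rw [hEc, Function.update_of_ne (by omega), Function.update_of_ne hk.ne]
  have ec1 : Ec (n + 1) = K₁ := by
    rw [hEc, Function.update_of_ne (by omega), Function.update_self]
  have ec2 : Ec (n + 2) = K' := by rw [hEc, Function.update_self]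
  have hdK : DFld S (upd P (n + 1) w) (n + 2) K' := ec2 ▸ hTc.dfld (le_refl (n + 2))
  have hlift : ∀ e : U, ∃ H ∈ K', e ∈ E (n + 1) → Inf (dcl S P (n + 1)) (H - e) := fun e => by
    by_cases he : e ∈ E (n + 1)
    · obtain ⟨-, H, hH, h⟩ := hK2 he
      exact ⟨H, hH, fun _ => h⟩
    · exact ⟨0, zero_mem _, fun h => absurd h he⟩
  choose H hH hH' using hlift
  let G : ℕ → U := fun i => H (pd S P (n + 1) i f)
  let T : Set U := H '' R (n + 1) ∪ G '' Iio (n + 1) ∪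
    image2 (consI S (upd P (n + 1) w) (n + 1) G) (Iio (n + 1)) (Iio (n + 1))
  let R' : ℕ → Set U := fun k => if k < n + 1 then R k else if k = n + 2 then T else ∅
  have hR' : Req R' Ec (n + 2) := fun k hk => by
    by_cases h : k < n + 1
    · simp only [R', if_pos h, ec0 k h]
      exact hR k h.le
    · by_cases h' : k = n + 2
      · subst h'
        simp only [R', if_neg h, if_true, ec2]
        refine ⟨(((hR _ le_rfl).1.image _).union ((finite_Iio _).image _)).union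
          ((finite_Iio _).image2 _ (finite_Iio _)), ?_⟩
        rintro _ ((⟨e, -, rfl⟩ | ⟨i, -, rfl⟩) | ⟨i, -, j, -, rfl⟩)
        exacts [hH _, hH _, cons_I_mem hdK (fun i => hH _) i j]
      · simp only [R', if_neg h, if_neg h']
        exact ⟨finite_empty, empty_subset _⟩
  obtain ⟨c, E1, hs, hF, hp, he, hr⟩ := (hG _).sg hTc hR'
  have hrT : ∀ e ∈ T, c.Rep (n + 2) (upd P (n + 1) w) e ∧ Sg S c (n + 2) (upd P (n + 1) w) e :=
    fun e he => hr (n + 2) le_rfl e (by simpa [R'] using he)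
  have e1 : ∀ k < n + 1, E k ≤ E1 k := fun k hk => ec0 k hk ▸ he k (by omega)
  have e2 : K₁ ≤ E1 (n + 1) := ec1 ▸ he (n + 1) (by omega)
  have e3 : K' ≤ E1 (n + 2) := ec2 ▸ he (n + 2) le_rfl
  have hag : Agree (upd P (n + 1) w) P (n + 1) := agree_upd w
  have hdc : dcl S (upd P (n + 1) w) (n + 1) = dcl S P (n + 1) := hag.dcl_eq
  rcases hp.end_or_has hs (ρ := f) (hdc ▸ hfd) (by rw [hdc, upd_self]; exact hw) with hend | hin
  · exact lv_cons_end hτ (lv_lim hS hτ) (hG _) hlτ hβ hT hf hne hw hb (h1.dfld (hT.dfld_base le_rfl)) hc hK2 hp.tow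
      e1 e2 e3 hend hR
  have hh : c.Has (n + 2) (upd P (n + 1) f) := by
    have := hin f (by simpa using Inf.zero _)
    rwa [cons_upd_upd] at this
  clear hin
  obtain ⟨φ, dφ, rfl⟩ := id hfd
  have hPd : ∀ i < n + 1, P i ∈ dcl S P (n + 1) := fun i hi => self_mem_dcl hi
  have hex : ∀ i, ∃ F : Fn (n + 2), i < n + 1 →
      F ∈ c.gens (n + 2) ∧ ev F (upd P (n + 1) w) = G i := fun i => by
    by_cases hi : i < n + 1
    · obtain ⟨F, hF⟩ := (hrT (G i) (.inl (.inr ⟨i, hi, rfl⟩))).1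
      exact ⟨F, fun _ => hF⟩
    · exact ⟨fun _ => 0, fun h => absurd h hi⟩
  choose F hFF using hex
  have hFg : ∀ i < n + 1, F i ∈ c.gens (n + 2) := fun i hi => (hFF i hi).1
  have dF : ∀ i < n + 1, DF S (F i) := fun i hi => hs.df _ le_rfl _ (hFg i hi)
  have aF : ∀ i < n + 1, AnalyticOnNhd ℝ (F i) (c.cell (n + 2)) :=
    fun i hi => hs.an _ le_rfl _ (hFg i hi)
  have hpd : ∀ i < n + 1, pd S P (n + 1) i (ev φ P) = ev (F i) (upd P (n + 1) (ev φ P)) :=
    fun i hi => by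
      obtain ⟨h2, h3⟩ := cons_near hs hPd hfd hw hh (hFg i hi)
      rw [(hFF i hi).2] at h3
      exact cons_eq_of_near (pd_mem _ _) h2 (hH' _ (hdE.pc i _ hf)) h3
  have hsol := cons_sol_nhds hT.gen dF dφ fun i hi => by rw [← pd_ev hT.gen dφ, hpd i hi]
  have hin : At (fun z => Fin.snoc z (φ z) ∈ c.cell (n + 2)) P :=
    (cons_at_snoc φ fun x => x ∈ c.cell (n + 2)).2 hh
  have hI : ∀ p ∈ c.cell (n + 2), ∀ i < n + 1, ∀ j < n + 1, itg F i j p = 0 := by
    intro p hp' i hi j hj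
    refine Tri.zero_of ((hrT _ (.inr ⟨i, hi, j, hj, rfl⟩)).2 _ (cons_itg_df (dF i hi) (dF j hj))
      (cons_itg_an (aF i hi) (aF j hj)) (cons_itg_ev hp.tow.gen (dF i hi) (dF j hj) (hFF i hi).2
        (hFF j hj).2)) hh ?_ p hp'
    rw [← cons_ev_snoc, ev_eq_zero_iff]
    filter_upwards [hsol, hin] with ω h2 h3
    exact itg_of_sol (fun i hi => aF i hi _ h3) h2 hi hj
  obtain ⟨τ', c', E2, g, hτ', hl', heq, hs', hF', hp', he', hle, dg, eg, hg⟩ :=
    lv_extend_leaf hS hθ IH hτ hlτ hs hFg hI ((hp.down (Nat.le_succ _)).congr hag) dφ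
      (by filter_upwards [hsol, hin] with ω h2 h3 using ⟨h3, h2.self_of_nhds⟩)
  have ag : AnalyticOnNhd ℝ g (c'.cell (n + 1)) := fun x hx =>
    analyticAt_of_solAt (fun i hi => aF i hi _ (hg x hx).1)
      (Eventually.mono ((hs'.isOpen le_rfl).mem_nhds hx) fun z hz => (hg z hz).2)
  let T' : Set (Fn (n + 1)) := insert g (slc g '' c.gens (n + 2))
  have hs2 := hs'.addGens (τ := θ) (γ := omega0 ^ (β + 1)) (T := T')
    (((hs.fin _ le_rfl).image _).insert _) (by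
      rintro _ (rfl | ⟨H, hH, rfl⟩)
      · exact ⟨dg, ag⟩
      · exact ⟨(hs.df _ le_rfl H hH).comp (DF.snoc DF.id' dg),
          analyticOnNhd_snoc ag (hs.an _ le_rfl H hH) fun x hx => (hg x hx).1⟩)
    (fun k hk => (hl' k hk.le).le) (fun a ha => by
      have := hτ (n + 1) (Nat.zero_le _) a (heq (n + 1) le_rfl ▸ ha)
      rw [hβ] at this
      exact this.trans_lt (hlτ _ le_rfl))
    fun P₀ m y K h1 h2 h3 h4 h5 => cons_chain hs hβ hle hFg dg hg h1 h2 h3 h4 h5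
  obtain ⟨a, ha, hpr⟩ := hp.tow.pres (n + 2) le_rfl
  have hbase : base (upd P (n + 1) w) E1 (n + 2) = adj (E1 (n + 1)) w := by
    simp only [base, upd_self]
  have hd2 := hp'.tow.dfld (le_refl (n + 1))
  obtain ⟨K4, h4, hK4⟩ := hpr.base_change hp.tow.gen (hp.tow.dfld_base le_rfl)
    (cons_dfld_adj hT.gen hd2 hfd hne hw).2 (hbase ▸ adj_mono (he' _ le_rfl) w)
  obtain ⟨hK, hf4⟩ := Pres.node hT.gen hd2 hfd hne hw hb hK4 fun i hi =>
    ⟨G i, h4 (e3 (hH _)), by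
      rw [hpd i hi, ← (hFF i hi).2]
      exact lip_near hPd hfd hw (dF i hi)
        (Eventually.mono hh fun _ hx => (aF i hi _ hx).differentiableAt)⟩
  have hT4 := Tow.extend_top' (τ := θ) (CloFrom.mono hτ' (Nat.zero_le (n + 1))) hp'.tow hK
    (by rw [heq (n + 2) (by omega), hβ]; exact cons_pow_le (hβ ▸ ha))
    (fun k hk => (hl' k hk.le).le) (hl' _ le_rfl)
  have hslc : ∀ H : Fn (n + 2), ev (slc g H) P = ev H (upd P (n + 1) (ev φ P)) := fun H => by
    rw [← eg, ← cons_ev_snoc]; rfl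
  have hgens : ∀ k < n + 1, Function.update c'.gens (n + 1) (c'.gens (n + 1) ∪ T') k = c'.gens k :=
    fun k hk => Function.update_of_ne hk.ne _ _
  refine ⟨_, _, hs2, fun k hk => ?_, ⟨hT4, ?_, fun k hk => ?_⟩, fun k hk => ?_, fun k hk => ?_⟩
  · rw [cons_cell]
    refine ⟨(hF' k hk).1, ?_⟩
    rcases hk.lt_or_eq with h | rfl
    · simpa only [hgens k h] using (hF' k hk).2
    · simp only [Function.update_self]
      have pg : Γ.Pf (n + 1) (c'.cell (n + 1)) g := Γ.ode F hn (hF' _ le_rfl).1 (hF _ le_rfl).1 ag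
        (fun i hi => (hF _ le_rfl).2 _ (hFg i hi)) (fun x hx => (hg x hx).1)
        fun x hx => (hg x hx).2.2
      rintro _ (h | rfl | ⟨H, hH, rfl⟩)
      · exact (hF' _ le_rfl).2 _ h
      · exact pg
      · exact Γ.comp pg ((hF _ le_rfl).2 H hH) fun x hx => (hg x hx).1
  · have := hp'.has
    simpa only [Ctx.Has, cons_cell] using this
  · rcases hk.lt_or_eq with h | rfl
    · rw [Function.update_of_ne h.ne]
      intro ψ hψ
      exact hp'.vals k hk ψ (hgens k h ▸ hψ)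
    · simp only [Ctx.Vals, Function.update_self]
      rintro _ (h | rfl | ⟨H, hH, rfl⟩)
      · exact hK.le (hp'.vals _ le_rfl _ h)
      · exact eg ▸ hf4
      · obtain ⟨h2, h3⟩ := cons_near hs hPd hfd hw hh hH
        rw [hslc]
        exact ⟨h2, _, h4 (hp.vals _ le_rfl H hH), h3⟩
  · rcases hk.lt_or_eq with h | rfl
    · rw [Function.update_of_ne h.ne]
      exact (e1 k h).trans (he' k hk)
    · rw [Function.update_self]
      exact hK2.trans (stF_mono (e3.trans h4))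
  · intro e heR
    rcases hk.lt_or_eq with h | rfl
    · obtain ⟨ψ, hψ, rfl⟩ := (hr k (by omega) e (by simpa only [R', if_pos h] using heR)).1
      exact ⟨ψ, (hgens k h).ge ((hle k hk).2 hψ), ((hag.mono hk).ev_eq ψ).symm⟩
    · obtain ⟨ψ, hψ, e4⟩ := (hrT (H e) (.inl (.inl ⟨e, heR, rfl⟩))).1
      refine ⟨slc g ψ, ?_, ?_⟩
      · simp only [Function.update_self]
        exact .inr (.inr ⟨ψ, hψ, rfl⟩)
      · obtain ⟨h2, h3⟩ := cons_near hs hPd hfd hw hh hψ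
        have h5 := (hR _ le_rfl).2 heR
        rw [hslc]
        exact cons_eq_of_near h2 (hdE.le h5) (e4 ▸ h3) (hH' e h5)

theorem lv_main_clo (hS : PfClosed S) (Γ : SysM M) (hθ : Clo θ) (hb : θ 0 ≤ twr (M + 1)) (n : ℕ) :
    MainAt S Γ θ n := by
  have : ∀ o : Ordinal.{0}, ∀ θ : ℕ → Ordinal.{0}, θ 0 = o → Clo θ → θ 0 ≤ twr (M + 1) →
      ∀ n, MainAt S Γ θ n := by
    intro o
    induction o using WellFoundedLT.induction with
    | ind o ih =>
      intro θ e hθ hb n P E R hT hR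
      have IH : ∀ τ, Clo τ → τ 0 < θ 0 → ∀ k, MainAt S Γ τ k :=
        fun τ hτ hlt => ih (τ 0) (e ▸ hlt) τ rfl hτ (hlt.le.trans hb)
      cases n with
      | zero => exact lv_main_zero hT hR
      | succ n =>
        obtain ⟨a, ha, hp⟩ := hT.pres (n + 1) le_rfl
        rcases hp.cases' with h | ⟨K₁, K', α', β, f, w, h1, hf, hne, hw, hb', hc, -, hK1, hK2, hle⟩
        · obtain ⟨τ, hτ, hτθ, hTτ⟩ := (hT.down n.le_succ).drop hθ (hT.pos le_rfl)
          exact lv_main_nil (IH τ hτ (hτθ 0 n.zero_le) n) (fun k hk => (hτθ k hk).le) hTτ hT h hR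
        · exact lv_main_cons hS hθ (lv_cap hθ hb (fun k hk => hT.pos hk)
            ((lv_omega_le α' β).trans (hle.trans_lt ha).le)) IH hT h1 hf hne hw hb' hc hK1 hK2
            (hle.trans_lt ha) hR
  exact this _ θ rfl hθ hb n

/-- `Main` for the bounds of level `M`, at every height -/
theorem lv_main (hS : PfClosed S) (Γ : SysM M) (n : ℕ) : MainAt S Γ (thM M) n := by
  induction n with
  | zero => exact fun P E R hT hR => lv_main_zero hT hR
  | succ n ih =>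
    intro P E R hT hR
    rcases le_or_gt (n + 1) (M + 1) with h | h
    · have e : ∀ k ≤ n + 1, thM0 M k = thM M k := fun k hk => if_pos (hk.trans h)
      obtain ⟨c, E', h1, h2, h3, h4, h5⟩ := lv_main_clo hS Γ (clo_thM0 M)
        (by rw [e 0 (Nat.zero_le _)]; exact le_rfl) (n + 1) P E R
        (hT.mono fun k hk => (e k hk).ge) hR
      exact ⟨c, E', h1.mono fun k hk => (e k hk).le, h2,
        ⟨h3.tow.mono fun k hk => (e k hk).le, h3.has, h3.vals⟩, h4, h5⟩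
    · obtain ⟨a, ha, hp⟩ := hT.pres (n + 1) le_rfl
      rcases hp.cases' with h' | ⟨K₁, K', α', β, f, w, -, -, -, -, -, -, -, -, -, hle⟩
      · exact lv_main_nil ih (fun _ _ => le_rfl) (hT.down n.le_succ) hT h' hR
      · have h1 : thM M (n + 1) = 1 := thM_top (by omega)
        have h2 := (lv_omega_le α' β).trans (hle.trans_lt ha).le
        rw [h1] at h2
        exact absurd h2 (not_le.2 Ordinal.one_lt_omega0)

end Pool.Agent.Lib.MP_1a1eb7_lc
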