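import Pool.Agent.Lib.MP_1a1eb7_lc.Lv.SpecM

/-! Finite covers by compatible cells of level `M`. -/

namespace Pool.Agent.Lib.MP_1a1eb7_lc

open Set Filter Topology Pool.Agent.Shared.OMin

variable {S : OStr} {s : Bool} {M m d n : ℕ} {A : Set (Fin m → ℝ)} {f g : Fn m}
  {o : Option (Fn m)} {P y : ℕ → U}

/-- `ι y` is a special point with the same cell type as `P` -/
structure CoverM (S : OStr) (M m : ℕ) (P : ℕ → U) (d : ℕ) (A₀ : Set (Fin d → ℝ))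
    (ι : (Fin d → ℝ) → Fin m → ℝ) (y : ℕ → U) : Prop where
  cell : GCell (VM M) m d A₀ ι
  gen : Gen S y d
  mem : At (fun x => x ∈ A₀) y
  iff : ∀ C, IsCell (VM M) m C → (At (fun x => x ∈ C) P ↔ At (fun x => ι x ∈ C) y)

variable {A₀ : Set (Fin d → ℝ)} {ι : (Fin d → ℝ) → Fin m → ℝ}

theorem CoverM.loc (hS : PfClosed S) (h : CoverM S M m P d A₀ ι y)
    {𝒯 : Set (Set (Fin m → ℝ) × Fn m)} (hT : 𝒯.Finite) (hp : ∀ p ∈ 𝒯, IsPf (PfM s M) m p.1 p.2) :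
    ∃ A₁, GCell (VM M) m d A₁ ι ∧ At (fun x => x ∈ A₁) y ∧ At (fun x => x ∈ ι '' A₁) P ∧
      Cmp 𝒯 (ι '' A₁) := by
  obtain ⟨A₁, h1, h2, h3, h4⟩ := specialM hS h.cell h.gen h.mem hT hp
  exact ⟨A₁, h.cell.restrictM h2 h1, h3, (h.iff _ ⟨d, A₁, ι, h.cell.restrictM h2 h1, rfl⟩).2
    (h3.mono fun ω a => mem_image_of_mem ι a), h4⟩

theorem CoverM.tri (hS : PfClosed S) (h : CoverM S M m P d A₀ ι y) {B : Set (Fin m → ℝ)}
    (hf : IsPf (VM M) m A f) (hg : IsPf (VM M) m B g) (hA : At (fun x => x ∈ A) P)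
    (hB : At (fun x => x ∈ B) P) :
    ∀ᶠ ω in 𝔲, f (tp P m ω) < g (tp P m ω) ↔ f (ι (tp y d ω)) < g (ι (tp y d ω)) := by
  obtain ⟨A₁, -, h1, h2, h3⟩ := h.loc (s := true) hS (𝒯 := {(A, f), (B, g)}) (toFinite _) (by
    rintro _ (rfl | rfl)
    exacts [hf.toPfM true, hg.toPfM true])
  have h4 := h3.2 (A, f) (by simp) (B, g) (by simp) (cover_sub h3 h2 (by simp) hA)
    (cover_sub h3 h2 (by simp) hB)
  filter_upwards [h1, h2] with ω a b
  have a' := mem_image_of_mem ι a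
  rcases h4 with h4 | h4 | h4 <;> have c := h4 _ a' <;> have e := h4 _ b <;>
    constructor <;> intro <;> dsimp only at c e <;> linarith

theorem CoverM.step (h : CoverM S M m P d A₀ ι y) {τ : Ω → ℝ}
    (hτ : ∀ A f, IsPf (VM M) m A f → At (fun x => x ∈ A) P → ∀ᶠ ω in 𝔲,
      (f (tp P m ω) < out (P m) ω ↔ f (ι (tp y d ω)) < τ ω) ∧
        (out (P m) ω < f (tp P m ω) ↔ τ ω < f (ι (tp y d ω))))
    {C : Set (Fin (m + 1) → ℝ)} (hC : IsCell (VM M) (m + 1) C) :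
    At (fun x => x ∈ C) P ↔ ∀ᶠ ω in 𝔲, (Fin.snoc (ι (tp y d ω)) (τ ω) : Fin (m + 1) → ℝ) ∈ C := by
  obtain ⟨A, hA, hc⟩ := hC.invM
  have h1 := cover_ev_iff (h.iff A hA)
  refine eventually_congr ?_
  rcases ev_em fun ω => tp P m ω ∈ A with h2 | h2
  · rcases hc with ⟨f, hf, rfl⟩ | ⟨g, k, hg, hk, rfl⟩
    · filter_upwards [h1, hτ A f hf h2] with ω a b
      simp only [mem_ofPred_eq, init_tp, tp_last, Fin.init_snoc, Fin.snoc_last]
      refine and_congr a ?_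
      rw [le_antisymm_iff, le_antisymm_iff, ← not_lt, ← not_lt, ← not_lt, ← not_lt, b.1, b.2]
    · have h3 : ∀ o : Option (Fn m), (∀ f ∈ o, IsPf (VM M) m A f) → ∀ᶠ ω in 𝔲, ∀ f ∈ o,
          (f (tp P m ω) < out (P m) ω ↔ f (ι (tp y d ω)) < τ ω) ∧
            (out (P m) ω < f (tp P m ω) ↔ τ ω < f (ι (tp y d ω))) := fun o ho => by
        rcases o with _ | f
        · simp
        · simpa using hτ A f (ho f rfl) h2
      filter_upwards [h1, h3 g hg, h3 k hk] with ω a b c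
      simp only [eband, mem_ofPred_eq, init_tp, tp_last, Fin.init_snoc, Fin.snoc_last]
      exact and_congr a (and_congr (forall₂_congr fun f hf => (b f hf).1)
        (forall₂_congr fun f hf => (c f hf).2))
  · filter_upwards [h1, h2] with ω a b
    rcases hc with ⟨f, -, rfl⟩ | ⟨g, k, -, -, rfl⟩ <;>
      simp only [eband, mem_ofPred_eq, init_tp, Fin.init_snoc, ← a, b, false_and]

theorem CoverM.succ (hS : PfClosed S) (h : CoverM S M m P d A₀ ι y) :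
    ∃ d' A' ι' y', CoverM S M (m + 1) P d' A' ι' y' := by
  by_cases hc : ∃ B g, IsPf (VM M) m B g ∧ At (fun x => x ∈ B) P ∧
      ∀ᶠ ω in 𝔲, out (P m) ω = g (tp P m ω)
  · obtain ⟨B, g, hg, hB, e⟩ := hc
    obtain ⟨A₁, h0, h1, h2, h3⟩ := h.loc (s := true) hS (𝒯 := {(B, g)}) (toFinite _) (by
      rintro _ rfl
      exact hg.toPfM true)
    refine ⟨d, A₁, _, y, h0.graph (hg.restrictM h0 (cover_sub h3 h2 rfl hB)), h.gen, h1,
      fun C hC => h.step (τ := fun ω => g (ι (tp y d ω))) (fun A f hf hA => ?_) hC⟩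
    filter_upwards [e, h.tri hS hf hg hA hB, h.tri hS hg hf hB hA] with ω a b c
    rw [a]
    exact ⟨b, c⟩
  let lo : (Set (Fin m → ℝ) × Fn m) × Fn d → Prop := fun i => IsPf (VM M) m i.1.1 i.1.2 ∧
    At (fun x => x ∈ i.1.1) P ∧ ∀ᶠ ω in 𝔲, i.1.2 (tp P m ω) < out (P m) ω
  let hi : (Set (Fin m → ℝ) × Fn m) × Fn d → Prop := fun i => IsPf (VM M) m i.1.1 i.1.2 ∧
    At (fun x => x ∈ i.1.1) P ∧ ∀ᶠ ω in 𝔲, out (P m) ω < i.1.2 (tp P m ω)
  obtain ⟨t, ht⟩ := sat (sm_tp y d) (I := (Set (Fin m → ℝ) × Fn m) × Fn d)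
    (fun i x t => t ≠ i.2 x ∧ (lo i → i.1.2 (ι x) < t) ∧ (hi i → t < i.1.2 (ι x))) fun J => by
      have : ∀ᶠ ω in 𝔲, ∀ i ∈ J, ∀ j ∈ J, lo i → hi j →
          i.1.2 (ι (tp y d ω)) < j.1.2 (ι (tp y d ω)) := by
        simp only [eventually_all_finset, eventually_imp_distrib_left]
        intro i _ j _ a b
        filter_upwards [h.tri hS a.1 b.1 a.2.1 b.2.1, a.2.2, b.2.2] with ω c e e'
        exact c.1 (e.trans e')
      exact this.mono fun ω a => cover_real J _ _ lo hi a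
  refine ⟨d + 1, eband A₀ none none, _, upd y d t, h.cell.band (by simp) (by simp) (by simp),
    h.gen.upd ?_, h.mem.mono fun ω a => by simpa [eband, tp_upd] using a, fun C hC => ?_⟩
  · rintro ⟨G, -, rfl⟩
    obtain ⟨ω, a, b⟩ := ((ht ((∅, 0), G)).and (out_ev G y)).exists
    exact a.1 b
  · rw [h.step (τ := out t) (fun A f hf hA => ?_) hC]
    · simp only [At, tp_upd, Fin.init_snoc, Fin.snoc_last]
    rcases ev_or.1 (Eventually.of_forall fun ω => lt_trichotomy (f (tp P m ω)) (out (P m) ω))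
      with e | e
    · filter_upwards [e, ht ((A, f), 0)] with ω a b
      have c := b.2.1 ⟨hf, hA, e⟩
      exact ⟨iff_of_true a c, iff_of_false a.not_gt c.not_gt⟩
    rcases ev_or.1 e with e | e
    · exact absurd ⟨A, f, hf, hA, e.mono fun ω a => a.symm⟩ hc
    · filter_upwards [e, ht ((A, f), 0)] with ω a b
      have c := b.2.2 ⟨hf, hA, e⟩
      exact ⟨iff_of_false a.not_gt c.not_gt, iff_of_true a c⟩

theorem cover_existsM (hS : PfClosed S) (M m : ℕ) (P : ℕ → U) :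
    ∃ d A₀ ι y, CoverM S M m P d A₀ ι y := by
  induction m with
  | zero => exact ⟨0, univ, id, P, GCell.point, gen_zero, Eventually.of_forall fun _ => trivial,
      fun _ _ => Iff.rfl⟩
  | succ m ih =>
    obtain ⟨d, A₀, ι, y, h⟩ := ih
    exact h.succ hS

theorem exists_cmp_atM (hS : PfClosed S) (P : ℕ → U) {𝒯 : Set (Set (Fin m → ℝ) × Fn m)}
    (hT : 𝒯.Finite) (hp : ∀ p ∈ 𝒯, IsPf (PfM s M) m p.1 p.2) :
    ∃ Q, IsCell (VM M) m Q ∧ At (fun x => x ∈ Q) P ∧ Cmp 𝒯 Q := by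
  obtain ⟨d, A₀, ι, y, h⟩ := cover_existsM hS M m P
  obtain ⟨A₁, h0, -, h2, h3⟩ := h.loc hS hT hp
  exact ⟨_, ⟨d, A₁, ι, h0, rfl⟩, h2, h3⟩

/-- compactness -/
theorem exists_coverM (hS : PfClosed S) {𝒯 : Set (Set (Fin m → ℝ) × Fn m)}
    (hT : 𝒯.Finite) (hp : ∀ p ∈ 𝒯, IsPf (PfM s M) m p.1 p.2) :
    ∃ 𝒬 : Set (Set (Fin m → ℝ)), 𝒬.Finite ∧ (∀ Q ∈ 𝒬, IsCell (VM M) m Q ∧ Cmp 𝒯 Q) ∧
      ⋃₀ 𝒬 = univ := by
  by_contra hc
  obtain ⟨b, hb⟩ := sat_fin m (Sm.const ()) (I := {Q // IsCell (VM M) m Q ∧ Cmp 𝒯 Q})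
    (fun Q _ t => t ∉ Q.1) fun J => Eventually.of_forall fun _ => by
      by_contra h
      push Not at h
      refine hc ⟨Subtype.val '' (J : Set {Q // IsCell (VM M) m Q ∧ Cmp 𝒯 Q}), J.finite_toSet.image _,
        by rintro _ ⟨Q, -, rfl⟩; exact Q.2, eq_univ_of_forall fun t => ?_⟩
      obtain ⟨Q, a, c⟩ := h t
      exact ⟨_, mem_image_of_mem _ a, c⟩
  obtain ⟨Q, h1, h2, h3⟩ := exists_cmp_atM hS (fun i => if h : i < m then b ⟨i, h⟩ else 0) hT hp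
  obtain ⟨ω, a, c⟩ := (h2.and (hb ⟨Q, h1, h3⟩)).exists
  refine c ?_
  convert a using 1
  funext i
  simp [tup, tp]

end Pool.Agent.Lib.MP_1a1eb7_lc
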