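import Pool.Agent.Lib.MP_1a1eb7_lc.Lv.PM
import Pool.Agent.Lib.MP_1a1eb7_lc.DDefs

/-! Auxiliary definitions for the level preserving theorem. -/

namespace Pool.Agent.Lib.MP_1a1eb7_lc

open Set Filter Topology Pool.Agent.Shared.OMin
open Ordinal (omega0)

/-- the very strict class of level `M` -/
inductive VM (M : ℕ) : (m : ℕ) → Set (Fin m → ℝ) → Option ((Fin m → ℝ) → ℝ) → Prop
  | point : VM M 0 univ none
  | band {m A g h} : VM M m A none → (∀ g' ∈ g, VM M m A (some g')) →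
      (∀ h' ∈ h, VM M m A (some h')) → (∀ g' ∈ g, ∀ h' ∈ h, ∀ x ∈ A, g' x < h' x) →
      VM M (m + 1) (eband A g h) none
  | const {m A} (c : ℝ) : VM M m A none → VM M m A (some fun _ => c)
  | coord {m A} (i : Fin m) : VM M m A none → VM M m A (some fun x => x i)
  | add {m A f g} : VM M m A (some f) → VM M m A (some g) → VM M m A (some fun x => f x + g x)
  | mul {m A f g} : VM M m A (some f) → VM M m A (some g) → VM M m A (some fun x => f x * g x)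
  | alg {m A g} (d : ℕ) (c : ℕ → Fn m) : (∀ i, VM M m A (some (c i))) → AnalyticOnNhd ℝ g A →
      (∀ x ∈ A, ∑ i ∈ Finset.range (d + 1), c i x * g x ^ i = 0) → (∀ x ∈ A, c d x ≠ 0) →
      (∀ x ∈ A, ∑ i ∈ Finset.range (d + 1), i * c i x * g x ^ (i - 1) ≠ 0) → VM M m A (some g)
  | comp {m A B f F} : VM M m A (some f) → VM M (m + 1) B (some F) →
      (∀ x ∈ A, Fin.snoc x (f x) ∈ B) → VM M m A (some fun x => F (Fin.snoc x (f x)))
  | ode {m A B f} (F : ℕ → Fn (m + 1)) : m ≤ M → VM M m A none → VM M (m + 1) B none →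
      AnalyticOnNhd ℝ f A → (∀ i < m, VM M (m + 1) B (some (F i))) →
      (∀ x ∈ A, Fin.snoc x (f x) ∈ B) →
      (∀ x ∈ A, ∀ i < m, pdv f i x = F i (Fin.snoc x (f x))) → VM M m A (some f)
  | lift {m A B f} : VM M m A (some f) → VM M (m + 1) B none →
      (∀ z ∈ B, Fin.init z ∈ A) → VM M (m + 1) B (some fun z => f (Fin.init z))
  | congr {m A f g} : VM M m A (some f) → EqOn g f A → VM M m A (some g)

/-- bounded cells of level `M` -/
inductive BM (M : ℕ) : (m : ℕ) → Set (Fin m → ℝ) → Prop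
  | point : BM M 0 univ
  | band {m A g h} : BM M m A → VM M m A (some g) → VM M m A (some h) → (∀ x ∈ A, g x < h x) →
      ((∀ x ∈ A, g x = -1) ∨ ∀ x ∈ A, -1 < g x) → ((∀ x ∈ A, h x = 1) ∨ ∀ x ∈ A, h x < 1) →
      BM M (m + 1) (band A g h)

/-- triangular substitutions -/
inductive TM (M : ℕ) :
    (m d : ℕ) → Set (Fin d → ℝ) → ((Fin d → ℝ) → Fin m → ℝ) → Prop
  | zero {π} : TM M 0 0 univ π
  | same {m d A π g} : TM M m d A π → VM M d A (some g) →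
      TM M (m + 1) d A fun x => Fin.snoc (π x) (g x)
  | new {m d A B π g} : TM M m d A π → VM M (d + 1) B (some g) → (∀ z ∈ B, Fin.init z ∈ A) →
      (∀ x ∈ A, ∃ t, Fin.snoc x t ∈ B) →
      TM M (m + 1) (d + 1) B fun z => Fin.snoc (π (Fin.init z)) (g z)

/-- `Sys` with the differential equation rule only up to level `M` -/
structure SysM (M : ℕ) where
  Cell : ∀ n, Set (Fin n → ℝ) → Prop
  Pf : ∀ n, Set (Fin n → ℝ) → Fn n → Prop
  zero : Cell 0 univ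
  band : ∀ {n A g h}, Cell n A → Pf n A g → Pf n A h → (∀ x ∈ A, g x < h x) →
    ((∀ x ∈ A, g x = -1) ∨ ∀ x ∈ A, -1 < g x) → ((∀ x ∈ A, h x = 1) ∨ ∀ x ∈ A, h x < 1) →
    Cell (n + 1) (band A g h)
  const : ∀ {n A} (c : ℝ), Cell n A → Pf n A fun _ => c
  coord : ∀ {n A} (i : Fin n), Cell n A → Pf n A fun x => x i
  add : ∀ {n A f g}, Pf n A f → Pf n A g → Pf n A fun x => f x + g x
  mul : ∀ {n A f g}, Pf n A f → Pf n A g → Pf n A fun x => f x * g x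
  congr : ∀ {n A f g}, Pf n A f → EqOn g f A → Pf n A g
  alg : ∀ {n A g} (d : ℕ) (c : ℕ → Fn n), Cell n A → (∀ i, Pf n A (c i)) → AnalyticOnNhd ℝ g A →
    (∀ x ∈ A, ∑ i ∈ Finset.range (d + 1), c i x * g x ^ i = 0) → (∀ x ∈ A, c d x ≠ 0) →
    (∀ x ∈ A, ∑ i ∈ Finset.range (d + 1), i * c i x * g x ^ (i - 1) ≠ 0) → Pf n A g
  lift : ∀ {n A B f}, Pf n A f → Cell (n + 1) B → (∀ z ∈ B, Fin.init z ∈ A) →
    Pf (n + 1) B fun z => f (Fin.init z)
  comp : ∀ {n A B f F}, Pf n A f → Pf (n + 1) B F → (∀ x ∈ A, Fin.snoc x (f x) ∈ B) →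
    Pf n A fun x => F (Fin.snoc x (f x))
  ode : ∀ {n A B f} (F : ℕ → Fn (n + 1)), n ≤ M → Cell n A → Cell (n + 1) B →
    AnalyticOnNhd ℝ f A → (∀ i < n, Pf (n + 1) B (F i)) → (∀ x ∈ A, Fin.snoc x (f x) ∈ B) →
    (∀ x ∈ A, ∀ i < n, pdv f i x = F i (Fin.snoc x (f x))) → Pf n A f

/-- the cells and functions belong to the class -/
def FullM {M : ℕ} (Γ : SysM M) (c : Ctx) (n : ℕ) : Prop :=
  ∀ k ≤ n, Γ.Cell k (c.cell k) ∧ ∀ φ ∈ c.gens k, Γ.Pf k (c.cell k) φ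

/-- the tower of ordinals -/
noncomputable def twr : ℕ → Ordinal.{0}
  | 0 => 1
  | j + 1 => omega0 ^ (twr j + 1)

/-- the bounds for level `M` -/
noncomputable def thM (M : ℕ) : ℕ → Ordinal.{0} := fun k => twr (M + 1 - k)

variable (S : OStr)

/-- `Main` at one height -/
def MainAt {M : ℕ} (Γ : SysM M) (θ : ℕ → Ordinal.{0}) (n : ℕ) : Prop :=
  ∀ (P : ℕ → U) (E : ℕ → Fld) (R : ℕ → Set U), Tow S θ P n E → Req R E n →
    ∃ (c : Ctx) (E' : ℕ → Fld), Sem S θ c n ∧ FullM Γ c n ∧ Pt S θ c P n E' ∧ Ext E E' n ∧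
      ∀ k ≤ n, ∀ e ∈ R k, c.Rep k P e

/-- `DAlg` with a guard `V` and a bound `b` for the rank -/
structure GAlg {m : ℕ} (A : Set (Fin m → ℝ)) (R : Subalgebra ℝ (Fn m))
    (V : (ℕ → U) → Fld → Prop) (b : Ordinal.{0}) : Prop where
  df : ∀ φ ∈ R, DF S φ
  an : ∀ φ ∈ R, AnalyticOnNhd ℝ φ A
  pd : ∀ φ ∈ R, ∀ i, ∃ ψ ∈ R, EqOn ψ (pdv φ i) A
  pres : ∀ (P : ℕ → U) (n : ℕ) (y : ℕ → U) (E : Fld), Gen S P n → DFld S P n E →
    (∀ i < m, y i ∈ E) → At (fun x => x ∈ A) y → V y E →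
    ∃ E' α, α < b ∧ Pres S P n E E' α ∧ ∀ φ ∈ R, ev φ y ∈ E'

/-- the values of the algebras below level `j` lie in `E` -/
def lowV (R : ∀ j, Subalgebra ℝ (Fn j)) (j : ℕ) (y : ℕ → U) (E : Fld) : Prop :=
  ∀ l < j, ∀ φ ∈ R l, ev φ y ∈ E

/-- the projection to the first `j` coordinates -/
def prj {m : ℕ} (A : Set (Fin m → ℝ)) (j : ℕ) : Set (Fin j → ℝ) :=
  {x | ∃ z ∈ A, ∀ (i : Fin j) (i' : Fin m), (i : ℕ) = i' → x i = z i'}

/-- a tower of algebras over the projections of `A` -/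
def TAlg (M : ℕ) {m : ℕ} (A : Set (Fin m → ℝ)) (R : ∀ j, Subalgebra ℝ (Fn j)) : Prop :=
  ∀ j ≤ m, GAlg S (prj A j) (R j) (lowV R j) (thM M j)

/-- every tower at `P` extends to a tower whose field of level `k` contains `e` -/
def TAble (M : ℕ) (P : ℕ → U) (d k : ℕ) (e : U) : Prop :=
  ∀ E, Tow S (thM M) P d E → ∃ E', Tow S (thM M) P d E' ∧ Ext E E' d ∧ e ∈ E' k

/-- the first `m` entries of `y` are weakly triangular, with top level `k` -/
inductive WTri (M : ℕ) (P : ℕ → U) (d : ℕ) (y : ℕ → U) : ℕ → ℕ → Prop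
  | zero : WTri M P d y 0 0
  | succ {m k k'} : WTri M P d y m k → k ≤ k' → k' ≤ m + 1 → k' ≤ d → TAble S M P d k' (y m) →
      WTri M P d y (m + 1) k'

/-- the first `m` entries of `y` are strongly triangular, with top level `k` -/
inductive STri (M : ℕ) (P : ℕ → U) (d : ℕ) (y : ℕ → U) : ℕ → ℕ → Prop
  | zero : STri M P d y 0 0
  | same {m k} : STri M P d y m k → TAble S M P d k (y m) → STri M P d y (m + 1) k
  | new {m k} : STri M P d y m k → k < d → TAble S M P d (k + 1) (y m) → y m ∉ dcl S P k →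
      STri M P d y (m + 1) (k + 1)

/-- cells of valid contexts of level `M` at `P` -/
def StM {M : ℕ} (Γ : SysM M) (P : ℕ → U) (d : ℕ) (C : Set (Fin d → ℝ)) : Prop :=
  ∃ c E, Sem S (thM M) c d ∧ FullM Γ c d ∧ Pt S (thM M) c P d E ∧ C = c.cell d

end Pool.Agent.Lib.MP_1a1eb7_lc
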