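import Pool.Agent.Lib.MP_1a1eb7_lc.Lv.PM
import Pool.Agent.Lib.MP_1a1eb7_lc.VSB

/-! The classes increase with the level, and every derivation has a finite level. -/

namespace Pool.Agent.Lib.MP_1a1eb7_lc

open Set Filter

variable {s : Bool} {N N' : ℕ∞} {m d : ℕ} {A : Set (Fin m → ℝ)} {f : (Fin m → ℝ) → ℝ}
  {o : Option ((Fin m → ℝ) → ℝ)}

theorem PfM.mono (h : PfM s N m A o) (hN : N ≤ N') : PfM s N' m A o := by
  induction h with
  | point => exact .point
  | band _ _ _ h4 ih ihg ihh => exact .band ih ihg ihh h4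
  | const c _ ih => exact .const c ih
  | coord i _ ih => exact .coord i ih
  | add _ _ ih ih' => exact .add ih ih'
  | mul _ _ ih ih' => exact .mul ih ih'
  | alg n f _ h1 h2 h3 ih => exact .alg n f ih h1 h2 h3
  | comp _ _ h3 ih ih' => exact .comp ih ih' h3
  | ode F hm _ _ h1 _ h2 h3 ih ih' ihF => exact .ode F (hm.trans hN) ih ih' h1 ihF h2 h3
  | lift _ _ h3 ih ih' => exact .lift ih ih' h3
  | congr _ he ih => exact .congr ih he

theorem lv_opt {X : Type} {g : Option X} {p : X → ℕ → Prop}
    (h : ∀ x ∈ g, ∀ᶠ M : ℕ in atTop, p x M) : ∀ᶠ M : ℕ in atTop, ∀ x ∈ g, p x M := by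
  cases g with
  | none => simp
  | some x => simpa only [Option.mem_def, Option.some.injEq, forall_eq'] using h

theorem PfM.fin (h : PfM s N m A o) : ∀ᶠ M : ℕ in atTop, PfM s M m A o := by
  induction h with
  | point => exact Eventually.of_forall fun _ => .point
  | band _ _ _ h4 ih ihg ihh =>
    filter_upwards [ih, lv_opt ihg, lv_opt ihh] with M a b c using .band a b c h4
  | const c _ ih => filter_upwards [ih] with M a using .const c a
  | coord i _ ih => filter_upwards [ih] with M a using .coord i a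
  | add _ _ ih ih' => filter_upwards [ih, ih'] with M a b using .add a b
  | mul _ _ ih ih' => filter_upwards [ih, ih'] with M a b using .mul a b
  | alg n f _ h1 h2 h3 ih =>
    filter_upwards [eventually_all.2 ih] with M a using .alg n f a h1 h2 h3
  | comp _ _ h3 ih ih' => filter_upwards [ih, ih'] with M a b using .comp a b h3
  | @ode m _ _ _ F _ _ _ h1 _ h2 h3 ih ih' ihF =>
    filter_upwards [ih, ih', eventually_all.2 ihF, eventually_ge_atTop m] with M a b c e
      using .ode F (by exact_mod_cast e) a b h1 c h2 h3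
  | lift _ _ h3 ih ih' => filter_upwards [ih, ih'] with M a b using .lift a b h3
  | congr _ he ih => filter_upwards [ih] with M a using .congr a he

theorem GCell.fin {A₀ : Set (Fin d → ℝ)} {ι : (Fin d → ℝ) → Fin m → ℝ}
    (h : GCell (PfM s N) m d A₀ ι) : ∀ᶠ M : ℕ in atTop, GCell (PfM s M) m d A₀ ι := by
  induction h with
  | point => exact Eventually.of_forall fun _ => .point
  | graph _ hf ih => filter_upwards [ih, hf.fin] with M a b using a.graph b
  | band _ hg hh hlt ih =>
    filter_upwards [ih, lv_opt fun g h => (hg g h).fin, lv_opt fun g h => (hh g h).fin]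
      with M a b c using a.band b c hlt

theorem IsPf.fin (h : IsPf (PfM s N) m A f) : ∃ M : ℕ, IsPf (PfM s M) m A f := by
  obtain ⟨d, A₀, ι, h1, h2, h3⟩ := h
  obtain ⟨M, a, b⟩ := (h1.fin.and h3.fin).exists
  exact ⟨M, d, A₀, ι, a, h2, b⟩

theorem IsCell.monoM (h : IsCell (PfM s N) m A) (hN : N ≤ N') : IsCell (PfM s N') m A := by
  obtain ⟨d, A₀, ι, h1, h2⟩ := h
  exact ⟨d, A₀, ι, h1.mono fun _ _ _ h => h.mono hN, h2⟩

end Pool.Agent.Lib.MP_1a1eb7_lc
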