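import Pool.Agent.Lib.MP_1a1eb7_lc.Lv.Ord
import Pool.Agent.Lib.MP_1a1eb7_lc.Pre2

/-! Cells and functions of level `M` are open, connected, analytic and definable; guarded
differential algebras. -/

namespace Pool.Agent.Lib.MP_1a1eb7_lc

open Set Filter Topology Pool.Agent.Shared.OMin
open Ordinal (omega0)

variable {S : OStr} {s : Bool} {N : ℕ∞} {M m d n : ℕ} {A : Set (Fin m → ℝ)} {f g : Fn m}
  {o : Option (Fn m)} {P y : ℕ → U} {V V' : (ℕ → U) → Fld → Prop} {b b' : Ordinal.{0}}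

theorem PfM.cell (h : PfM s N m A o) : PfM s N m A none := by
  induction h with
  | point => exact .point
  | band h1 h2 h3 h4 => exact .band h1 h2 h3 h4
  | const _ h => exact h
  | coord _ h => exact h
  | add _ _ ih => exact ih
  | mul _ _ ih => exact ih
  | alg _ _ _ _ _ _ ih => exact ih 0
  | comp _ _ _ ih => exact ih
  | ode _ _ h => exact h
  | lift _ h => exact h
  | congr _ _ ih => exact ih

theorem PfM.basic (h : PfM s N m A o) :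
    IsOpen A ∧ IsPreconnected A ∧ A.Nonempty ∧ ∀ f ∈ o, AnalyticOnNhd ℝ f A := by
  induction h with
  | point => exact ⟨isOpen_univ, isPreconnected_univ, univ_nonempty, by simp⟩
  | band _ _ _ h4 ih ihg ihh =>
    have cg := fun g' hg' => ((ihg g' hg').2.2.2 g' rfl).continuousOn
    have ch := fun g' hg' => ((ihh g' hg').2.2.2 g' rfl).continuousOn
    have := pre1_conn_eband ih.2.1 ih.2.2.1 cg ch h4
    exact ⟨pre1_isOpen_eband ih.1 cg ch, this.1, this.2, by simp⟩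
  | const _ _ ih =>
    refine ⟨ih.1, ih.2.1, ih.2.2.1, ?_⟩
    rintro _ ⟨⟩
    exact analyticOnNhd_const
  | @coord m _ i _ ih =>
    refine ⟨ih.1, ih.2.1, ih.2.2.1, ?_⟩
    rintro _ ⟨⟩ x _
    exact (ContinuousLinearMap.proj (R := ℝ) (φ := fun _ : Fin m => ℝ) i).analyticAt x
  | add _ _ ih ih' =>
    refine ⟨ih.1, ih.2.1, ih.2.2.1, ?_⟩
    rintro _ ⟨⟩
    exact (ih.2.2.2 _ rfl).add (ih'.2.2.2 _ rfl)
  | mul _ _ ih ih' =>
    refine ⟨ih.1, ih.2.1, ih.2.2.1, ?_⟩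
    rintro _ ⟨⟩
    exact (ih.2.2.2 _ rfl).mul (ih'.2.2.2 _ rfl)
  | alg _ _ _ hg _ _ ih =>
    refine ⟨(ih 0).1, (ih 0).2.1, (ih 0).2.2.1, ?_⟩
    rintro _ ⟨⟩
    exact hg
  | @comp _ _ _ _ F _ _ hm ih ih' =>
    refine ⟨ih.1, ih.2.1, ih.2.2.1, ?_⟩
    rintro _ ⟨⟩ x hx
    exact AnalyticAt.fun_comp (g := F) (ih'.2.2.2 _ rfl _ (hm x hx))
      (pre1_an_snoc analyticAt_id (ih.2.2.2 _ rfl x hx))
  | ode _ _ _ _ hf _ _ _ ih =>
    refine ⟨ih.1, ih.2.1, ih.2.2.1, ?_⟩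
    rintro _ ⟨⟩
    exact hf
  | lift _ _ hs ih ih' =>
    refine ⟨ih'.1, ih'.2.1, ih'.2.2.1, ?_⟩
    rintro _ ⟨⟩
    exact analyticOnNhd_init (ih.2.2.2 _ rfl) hs
  | congr _ e ih =>
    refine ⟨ih.1, ih.2.1, ih.2.2.1, ?_⟩
    rintro _ ⟨⟩
    exact (ih.2.2.2 _ rfl).congr ih.1 e.symm

theorem PfM.dp (hS : PfClosed S) (h : PfM s N m A o) :
    (DP S fun x => x ∈ A) ∧ ∀ f ∈ o, ∃ f', DF S f' ∧ EqOn f' f A := by
  induction h with
  | point => exact ⟨(DP.const True).congr fun _ => by simp, by simp⟩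
  | @band m A g h _ _ _ _ ih ihg ihh =>
    refine ⟨?_, by simp⟩
    have h0 : DF S fun z : Fin (m + 1) → ℝ => (Fin.init z : Fin m → ℝ) := DF.init DF.id'
    have h1 : DP S fun z : Fin (m + 1) → ℝ =>
        Fin.init z ∈ A ∧ ∀ g' ∈ g, g' (Fin.init z) < z (Fin.last m) := by
      cases g with
      | none => simpa using ih.1.comp h0
      | some g' =>
        obtain ⟨g'', dg, eg⟩ := (ihg g' rfl).2 g' rfl
        refine ((ih.1.comp h0).and (DP.lt (dg.comp h0) (DF.apply (Fin.last m)))).congr fun z => ?_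
        exact and_congr_right fun hz => by simp [eg hz]
    have h2 : DP S fun z : Fin (m + 1) → ℝ =>
        Fin.init z ∈ A ∧ ∀ h' ∈ h, z (Fin.last m) < h' (Fin.init z) := by
      cases h with
      | none => simpa using ih.1.comp h0
      | some g' =>
        obtain ⟨g'', dg, eg⟩ := (ihh g' rfl).2 g' rfl
        refine ((ih.1.comp h0).and (DP.lt (DF.apply (Fin.last m)) (dg.comp h0))).congr fun z => ?_
        exact and_congr_right fun hz => by simp [eg hz]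
    exact (h1.and h2).congr fun z => ⟨fun h => ⟨⟨h.1, h.2.1⟩, h.1, h.2.2⟩,
      fun h => ⟨h.1.1, h.1.2, h.2.2⟩⟩
  | const c _ ih =>
    refine ⟨ih.1, ?_⟩
    rintro _ ⟨⟩
    exact ⟨_, DF.const c, fun _ _ => rfl⟩
  | coord i _ ih =>
    refine ⟨ih.1, ?_⟩
    rintro _ ⟨⟩
    exact ⟨_, DF.apply i, fun _ _ => rfl⟩
  | add _ _ ih ih' =>
    refine ⟨ih.1, ?_⟩
    rintro _ ⟨⟩
    obtain ⟨f', df, ef⟩ := ih.2 _ rfl
    obtain ⟨g', dg, eg⟩ := ih'.2 _ rfl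
    exact ⟨_, df.add dg, fun x hx => by simp only [ef hx, eg hx]⟩
  | mul _ _ ih ih' =>
    refine ⟨ih.1, ?_⟩
    rintro _ ⟨⟩
    obtain ⟨f', df, ef⟩ := ih.2 _ rfl
    obtain ⟨g', dg, eg⟩ := ih'.2 _ rfl
    exact ⟨_, df.mul dg, fun x hx => by simp only [ef hx, eg hx]⟩
  | @alg m A g n f hf hg h0 hne ih =>
    refine ⟨(ih 0).1, ?_⟩
    rintro _ ⟨⟩
    choose f' df ef using fun i => (ih i).2 _ rfl
    obtain ⟨hA, hc, hn, -⟩ := (hf 0).basic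
    refine ⟨_, pre1_dp_alg hA hc (ih 0).1 (k := n)
      (c := fun j => f' ⟨n - j, Nat.sub_lt_succ n j⟩) (fun j => df _)
      (fun j => ((hf _).basic.2.2.2 _ rfl).congr hA (ef _).symm) hg (fun x hx => ?_)
      ⟨n, le_rfl, ?_⟩, fun x hx => indicator_of_mem hx g⟩
    · rw [← h0 x hx, Finset.sum_range, ← Equiv.sum_comp Fin.revPerm]
      refine Finset.sum_congr rfl fun i _ => ?_
      have h1 : ((Fin.revPerm i : Fin (n + 1)) : ℕ) = n - i := by simp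
      have h2 : (⟨n - (n - i), Nat.sub_lt_succ _ _⟩ : Fin (n + 1)) = i :=
        Fin.ext (by have := i.2; simp only; omega)
      simp only [h1, h2, ef i hx]
    · have h1 : (⟨n - n, Nat.sub_lt_succ _ _⟩ : Fin (n + 1)) = 0 := Fin.ext (by simp)
      simp only [h1]
      obtain ⟨x, hx, h2⟩ : ∃ x ∈ A, f 0 x ≠ 0 := by
        cases s
        · simpa using hne
        · obtain ⟨x, hx⟩ := hn
          exact ⟨x, hx, (by simpa using hne : ∀ x ∈ A, f 0 x ≠ 0) x hx⟩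
      exact ⟨x, hx, by rwa [ef 0 hx]⟩
  | comp _ _ hm ih ih' =>
    refine ⟨ih.1, ?_⟩
    rintro _ ⟨⟩
    obtain ⟨f', df, ef⟩ := ih.2 _ rfl
    obtain ⟨F', dF, eF⟩ := ih'.2 _ rfl
    exact ⟨_, dF.comp (DF.snoc DF.id' df), fun x hx => by simp only [ef hx, eF (hm x hx)]⟩
  | @ode m A B f F _ hA hB hf hF hm he ih ih' ihF =>
    refine ⟨ih.1, ?_⟩
    rintro _ ⟨⟩
    choose F' dF eF using fun i => (ihF i).2 _ rfl
    exact ⟨_, pre1_dp_ode hS hA.basic.1 hB.basic.1 ih.1 ih'.1 dF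
      (fun i => ((hF i).basic.2.2.2 _ rfl).congr hB.basic.1 (eF i).symm) hf hm
      (fun x hx i => (he x hx i).trans (eF i (hm x hx)).symm), fun x hx => indicator_of_mem hx f⟩
  | lift _ _ hs ih ih' =>
    refine ⟨ih'.1, ?_⟩
    rintro _ ⟨⟩
    obtain ⟨f', df, ef⟩ := ih.2 _ rfl
    exact ⟨_, df.comp (DF.init DF.id'), fun z hz => ef (hs z hz)⟩
  | congr _ e ih =>
    refine ⟨ih.1, ?_⟩
    rintro _ ⟨⟩
    obtain ⟨f', df, ef⟩ := ih.2 _ rfl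
    exact ⟨f', df, ef.trans e.symm⟩

theorem galg_gen {T : Set (Fn m)} (h1 : ∀ φ ∈ T, DF S φ ∧ AnalyticOnNhd ℝ φ A ∧
      ∀ i < m, ∃ ψ ∈ Algebra.adjoin ℝ T, EqOn ψ (pdv φ i) A)
    (h2 : ∀ (P : ℕ → U) (n : ℕ) (y : ℕ → U) (E : Fld), Gen S P n → DFld S P n E →
      (∀ i < m, y i ∈ E) → At (fun x => x ∈ A) y → V y E →
      ∃ E' α, α < b ∧ Pres S P n E E' α ∧ ∀ φ ∈ T, ev φ y ∈ E') :
    GAlg S A (Algebra.adjoin ℝ T) V b := by
  have key : ∀ φ ∈ Algebra.adjoin ℝ T, DF S φ ∧ AnalyticOnNhd ℝ φ A ∧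
      ∀ i < m, ∃ ψ ∈ Algebra.adjoin ℝ T, EqOn ψ (pdv φ i) A := fun φ hφ => by
    induction hφ using Algebra.adjoin_induction with
    | mem φ hφ => exact h1 φ hφ
    | algebraMap r =>
      refine ⟨DF.const r, analyticOnNhd_const, fun i _ => ⟨0, zero_mem _, fun x _ => ?_⟩⟩
      change 0 = fderiv ℝ (fun _ => r) x _
      simp
    | add φ ψ _ _ a a' =>
      refine ⟨a.1.add a'.1, a.2.1.add a'.2.1, fun i hi => ?_⟩
      obtain ⟨φ', a1, a2⟩ := a.2.2 i hi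
      obtain ⟨ψ', b1, b2⟩ := a'.2.2 i hi
      refine ⟨φ' + ψ', add_mem a1 b1, fun x hx => ?_⟩
      rw [Pi.add_apply, a2 hx, b2 hx, pdv, pdv, pdv,
        fderiv_add (a.2.1 x hx).differentiableAt (a'.2.1 x hx).differentiableAt]
      rfl
    | mul φ ψ hφ hψ a a' =>
      refine ⟨a.1.mul a'.1, a.2.1.mul a'.2.1, fun i hi => ?_⟩
      obtain ⟨φ', a1, a2⟩ := a.2.2 i hi
      obtain ⟨ψ', b1, b2⟩ := a'.2.2 i hi
      refine ⟨φ * ψ' + ψ * φ', add_mem (mul_mem hφ b1) (mul_mem hψ a1), fun x hx => ?_⟩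
      rw [Pi.add_apply, Pi.mul_apply, Pi.mul_apply, a2 hx, b2 hx, pdv, pdv, pdv,
        fderiv_mul (a.2.1 x hx).differentiableAt (a'.2.1 x hx).differentiableAt]
      rfl
  refine ⟨fun φ hφ => (key φ hφ).1, fun φ hφ => (key φ hφ).2.1, fun φ hφ i => ?_,
    fun P n y E a1 a2 a3 a4 a5 => ?_⟩
  · rcases lt_or_ge i m with hi | hi
    · exact (key φ hφ).2.2 i hi
    · exact ⟨0, zero_mem _, fun x _ => (pre2_pdv_ge hi φ x).symm⟩
  · obtain ⟨E', α, b0, b1, b2⟩ := h2 P n y E a1 a2 a3 a4 a5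
    exact ⟨E', α, b0, b1, fun φ hφ =>
      (Algebra.adjoin_le (S := E'.toSubalgebra.comap (pre2_evH m y)) b2 :) hφ⟩

theorem galg_base (S : OStr) (A : Set (Fin m → ℝ)) (V : (ℕ → U) → Fld → Prop) (hb : 0 < b) :
    GAlg S A (Algebra.adjoin ℝ (range fun (j : Fin m) (x : Fin m → ℝ) => x j)) V b := by
  refine galg_gen ?_ fun P n y E _ _ hy _ _ => ⟨E, 0, hb, .nil, ?_⟩
  · rintro _ ⟨j, rfl⟩
    let L := ContinuousLinearMap.proj (R := ℝ) (φ := fun _ : Fin m => ℝ) j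
    refine ⟨DF.apply j, fun x _ => L.analyticAt x, fun i _ =>
      ⟨algebraMap ℝ _ (uv m i j), algebraMap_mem _ _, fun x _ => ?_⟩⟩
    exact (congrArg (fun M : (Fin m → ℝ) →L[ℝ] ℝ => M (uv m i)) (L.fderiv (x := x))).symm
  · rintro _ ⟨j, rfl⟩
    rw [ev_coord]
    exact hy j j.2

theorem GAlg.mono {R : Subalgebra ℝ (Fn m)} (h : GAlg S A R V b) {A' : Set (Fin m → ℝ)}
    (hA : A' ⊆ A) (hV : ∀ y E, V' y E → V y E) : GAlg S A' R V' b :=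
  ⟨h.df, fun φ hφ => (h.an φ hφ).mono hA,
    fun φ hφ i => (h.pd φ hφ i).imp fun _ c => ⟨c.1, c.2.mono hA⟩,
    fun P n y E a1 a2 a3 a4 a5 => h.pres P n y E a1 a2 a3 (a4.mono fun _ c => hA c) (hV y E a5)⟩

theorem GAlg.sup {R R' : Subalgebra ℝ (Fn m)} (h : GAlg S A R V b) (h' : GAlg S A R' V b)
    (hV : ∀ y E E', V y E → E ≤ E' → V y E') (hb : ∀ a < b, ∀ a' < b, a + a' < b) :
    GAlg S A (R ⊔ R') V b := by
  rw [Algebra.sup_def]
  refine galg_gen ?_ fun P n y E a1 a2 a3 a4 a5 => ?_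
  · rintro φ (hφ | hφ)
    · exact ⟨h.df φ hφ, h.an φ hφ, fun i _ => (h.pd φ hφ i).imp fun ψ c =>
        ⟨Algebra.subset_adjoin (.inl c.1), c.2⟩⟩
    · exact ⟨h'.df φ hφ, h'.an φ hφ, fun i _ => (h'.pd φ hφ i).imp fun ψ c =>
        ⟨Algebra.subset_adjoin (.inr c.1), c.2⟩⟩
  · obtain ⟨E₁, α, b0, b1, b2⟩ := h.pres P n y E a1 a2 a3 a4 a5
    obtain ⟨E₂, β, c0, c1, c2⟩ := h'.pres P n y E₁ a1 (b1.dfld a2) (fun i hi => b1.le (a3 i hi)) a4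
      (hV _ _ _ a5 b1.le)
    refine ⟨E₂, _, hb _ b0 _ c0, b1.trans c1, ?_⟩
    rintro φ (hφ | hφ)
    exacts [c1.le (b2 φ hφ), c2 φ hφ]

theorem GAlg.alg {R : Subalgebra ℝ (Fn m)} (hA : IsOpen A) (hc : IsPreconnected A)
    (dA : DP S fun x => x ∈ A) (h : GAlg S A R V b) {k : ℕ} {c : ℕ → Fn m} (hcR : ∀ i, c i ∈ R)
    (dg : DF S g) (hg : AnalyticOnNhd ℝ g A)
    (h0 : ∀ x ∈ A, ∑ i ∈ Finset.range (k + 1), c i x * g x ^ i = 0)
    (hne : ∃ i ≤ k, ∃ x ∈ A, c i x ≠ 0) : ∃ R', GAlg S A R' V b ∧ g ∈ R' := by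
  obtain ⟨i₀, hi₀, x₀, hx₀, hne⟩ := hne
  obtain ⟨Q, hQ, hQA⟩ := pre2_exists_gen hA dA hx₀
  let K := IntermediateField.adjoin ℝ (R.map (pre2_evH m Q) : Set U)
  have hK : ∀ φ ∈ R, ev φ Q ∈ K := fun φ hφ => IntermediateField.subset_adjoin _ _ ⟨φ, hφ, rfl⟩
  have hle : K ≤ dcl S Q m := IntermediateField.adjoin_le_iff.2 <| by
    rintro _ ⟨φ, hφ, rfl⟩
    exact ev_mem_dcl (h.df φ hφ)
  have hpc : PC S Q m K := fun i v hb => by
    refine ((IntermediateField.adjoin_le_iff.2 ?_ : K ≤ pcF hQ K hle i) hb).2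
    rintro _ ⟨φ, hφ, rfl⟩
    obtain ⟨ψ, a1, a2⟩ := h.pd φ hφ i
    refine ⟨hK φ hφ, ?_⟩
    change Shared.OMin.pd S Q m i (ev φ Q) ∈ K
    rw [pd_ev hQ (h.df φ hφ), ← ev_eq_iff.2 (hQA.mono fun ω hω => a2 hω)]
    exact hK ψ a1
  refine ⟨Algebra.adjoin ℝ {φ | DF S φ ∧ AnalyticOnNhd ℝ φ A ∧ ev φ Q ∈ rcl K},
    galg_gen (fun φ hφ => ⟨hφ.1, hφ.2.1, fun i _ => ⟨pdv φ i, Algebra.subset_adjoin
      ⟨hφ.1.pdv i, analyticOnNhd_pdv hφ.2.1 i, ?_⟩, fun _ _ => rfl⟩⟩) fun P n y E a1 a2 a3 a4 a5 => ?_,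
    Algebra.subset_adjoin ⟨dg, hg, mem_rcl.2 (pre2_alg (a := fun i => ev (c i) Q) (k := k)
      (fun i => hK _ (hcR i)) ⟨i₀, hi₀, fun e => hne ?_⟩ ?_)⟩⟩
  · rw [← pd_ev hQ hφ.1]
    exact hpc.rcl hQ hle i _ hφ.2.2
  · obtain ⟨E', α, b0, b1, b2⟩ := h.pres P n y E a1 a2 a3 a4 a5
    refine ⟨E', α, b0, b1, fun φ hφ => (b1.dfld a2).rc _ ?_⟩
    have h1 := IntermediateField.isAlgebraic_adjoin_iff.1 (mem_rcl.1 hφ.2.2)
    rw [Algebra.adjoin_eq] at h1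
    obtain ⟨p, hp, hp0⟩ := h1
    choose e he he' using fun i => (p.coeff i).2
    have he'' : ∀ i, ev (e i) Q = p.coeff i := he'
    have h2 : EqOn (fun x => ∑ i ∈ Finset.range (p.natDegree + 1), e i x * φ x ^ i)
        (fun _ => 0) A := by
      refine ident hA hc hQ hQA (DF.sum _ fun i _ => (h.df _ (he i)).mul (hφ.1.pow i)) (DF.const 0)
        (Finset.analyticOnNhd_fun_sum _ fun i _ => (h.an _ (he i)).mul (hφ.2.1.pow i))
        analyticOnNhd_const ?_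
      rw [pre2_ev_rel, ev_zero', ← hp0, Polynomial.aeval_eq_sum_range]
      exact Finset.sum_congr rfl fun i _ => by rw [he'']; rfl
    have h3 : ev (e p.natDegree) Q ≠ 0 := by
      rw [he'']
      exact fun e0 => Polynomial.leadingCoeff_ne_zero.2 hp (Subtype.ext e0)
    obtain ⟨ω, h4, h5⟩ := (Filter.Eventually.and hQA (ev_ne_zero_iff.1 h3)).exists
    obtain ⟨T, t1, t2, t3⟩ := algVal hA hc dA (R := Subalgebra.toSubmodule R)
      (fun ψ hψ => ⟨h.df ψ hψ, h.an ψ hψ, h.pd ψ hψ⟩) he hφ.2.1 h2 ⟨_, le_rfl, _, h4, h5⟩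
    have := t1.to_subtype
    obtain ⟨⟨c', j⟩, h6⟩ := ev_exists_finite (ι := T × Fin (p.natDegree + 1))
      (P := fun z ω => z.1.1 z.2 (tp y m ω) ≠ 0 ∧
        ∑ i ∈ Finset.range (p.natDegree + 1), z.1.1 i (tp y m ω) * φ (tp y m ω) ^ i = 0)
      (a4.mono fun ω hω => by
        obtain ⟨c', c1, ⟨j, c2, c3⟩, c4⟩ := t3 _ hω
        exact ⟨(⟨c', c1⟩, ⟨j, Nat.lt_succ_of_le c2⟩), c3, c4⟩)
    refine pre2_alg (a := fun i => ev (c'.1 i) y) (k := p.natDegree)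
      (fun i => b2 _ (t2 _ c'.2 i)) ⟨j, Nat.lt_succ_iff.1 j.2,
        ev_ne_zero_iff.2 (h6.mono fun ω hω => hω.1)⟩ ?_
    rw [← pre2_ev_rel]
    exact ev_eq_zero_iff.2 (h6.mono fun ω hω => hω.2)
  · exact ident hA hc hQ hQA (h.df _ (hcR i₀)) (DF.const 0) (h.an _ (hcR i₀)) analyticOnNhd_const
      (e.trans ev_zero'.symm) hx₀
  · rw [← pre2_ev_rel]
    exact ev_eq_zero_iff.2 (hQA.mono fun ω hω => h0 _ hω)

/-- the functions along the graph of `f` -/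
theorem galg_graph {B : Set (Fin (m + 1) → ℝ)} {RB : Subalgebra ℝ (Fn (m + 1))}
    {R' : Subalgebra ℝ (Fn m)} (h' : GAlg S B RB V' b') (df : DF S f) (hf : AnalyticOnNhd ℝ f A)
    (hm : ∀ x ∈ A, Fin.snoc x (f x) ∈ B) (h1 : ∀ i < m, ∃ ψ ∈ R', EqOn ψ (pdv f i) A)
    (h2 : ∀ F ∈ RB, (fun x => F (Fin.snoc x (f x))) ∈ R') {F : Fn (m + 1)} (hF : F ∈ RB) :
    DF S (fun x => F (Fin.snoc x (f x))) ∧ AnalyticOnNhd ℝ (fun x => F (Fin.snoc x (f x))) A ∧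
      ∀ i < m, ∃ ψ ∈ R', EqOn ψ (pdv (fun x => F (Fin.snoc x (f x))) i) A := by
  refine ⟨(h'.df F hF).comp (DF.snoc DF.id' df), analyticOnNhd_snoc hf (h'.an F hF) hm,
    fun i hi => ?_⟩
  obtain ⟨ψ, a1, a2⟩ := h1 i hi
  obtain ⟨F₁, b1, b2⟩ := h'.pd F hF i
  obtain ⟨F₂, c1, c2⟩ := h'.pd F hF m
  refine ⟨_, add_mem (h2 F₁ b1) (mul_mem (h2 F₂ c1) a1), fun x hx => ?_⟩
  rw [pre2_pdv_snoc (hf x hx).differentiableAt (h'.an F hF _ (hm x hx)).differentiableAt hi,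
    ← a2 hx, ← b2 (hm x hx), ← c2 (hm x hx)]
  rfl

theorem GAlg.comp {R : Subalgebra ℝ (Fn m)} {B : Set (Fin (m + 1) → ℝ)}
    {RB : Subalgebra ℝ (Fn (m + 1))} (h : GAlg S A R V b)
    (h' : GAlg S B RB V' b') (hf : f ∈ R) (hm : ∀ x ∈ A, Fin.snoc x (f x) ∈ B)
    (hV : ∀ y E E' w, V y E → E ≤ E' → (∀ φ ∈ R, ev φ y ∈ E') → V' (upd y m w) E')
    (hb : ∀ a < b, ∀ a' < b', a + a' < b) :
    ∃ R', GAlg S A R' V b ∧ ∀ F ∈ RB, (fun x => F (Fin.snoc x (f x))) ∈ R' := by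
  let T : Set (Fn m) := R ∪ (fun (F : Fn (m + 1)) x => F (Fin.snoc x (f x))) '' RB
  have h1 : ∀ φ ∈ R, ∀ i < m, ∃ ψ ∈ Algebra.adjoin ℝ T, EqOn ψ (pdv φ i) A := fun φ hφ i _ =>
    (h.pd φ hφ i).imp fun ψ c => ⟨Algebra.subset_adjoin (.inl c.1), c.2⟩
  have h2 : ∀ F ∈ RB, (fun x => F (Fin.snoc x (f x))) ∈ Algebra.adjoin ℝ T := fun F hF =>
    Algebra.subset_adjoin (.inr ⟨F, hF, rfl⟩)
  refine ⟨Algebra.adjoin ℝ T, galg_gen ?_ fun P n y E a1 a2 a3 a4 a5 => ?_, h2⟩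
  · rintro φ (hφ | ⟨F, hF, rfl⟩)
    · exact ⟨h.df φ hφ, h.an φ hφ, h1 φ hφ⟩
    · exact galg_graph h' (h.df f hf) (h.an f hf) hm (h1 f hf) h2 hF
  · obtain ⟨E₁, α, b0, b1, b2⟩ := h.pres P n y E a1 a2 a3 a4 a5
    obtain ⟨E₂, β, c0, c1, c2⟩ := h'.pres P n (upd y m (ev f y)) E₁ a1 (b1.dfld a2)
      (pre2_upd_mem (fun i hi => b1.le (a3 i hi)) (b2 f hf)) (by
        filter_upwards [a4, presB_tp_graph f y] with ω e1 e2
        rw [e2]
        exact hm _ e1) (hV _ _ _ _ a5 b1.le b2)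
    refine ⟨E₂, _, hb _ b0 _ c0, b1.trans c1, ?_⟩
    rintro φ (hφ | ⟨F, hF, rfl⟩)
    · exact c1.le (b2 φ hφ)
    · rw [presB_ev_graph]
      exact c2 F hF

theorem GAlg.ode {R : Subalgebra ℝ (Fn m)} {B : Set (Fin (m + 1) → ℝ)}
    {RB : Subalgebra ℝ (Fn (m + 1))} (h : GAlg S A R V b)
    (hV : ∀ y E E' w, V y E → E ≤ E' → (∀ φ ∈ R, ev φ y ∈ E') → V' (upd y m w) E')
    (hbb : ∀ a < b, ∀ a' < b', a + omega0 ^ (a' + 1) < b)
    (hB : IsOpen B) (dB : DP S fun x => x ∈ B) (h' : GAlg S B RB V' b') (df : DF S f)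
    (hf : AnalyticOnNhd ℝ f A) (hm : ∀ x ∈ A, Fin.snoc x (f x) ∈ B) {F : ℕ → Fn (m + 1)}
    (hF : ∀ i < m, F i ∈ RB) (hode : ∀ x ∈ A, ∀ i < m, pdv f i x = F i (Fin.snoc x (f x))) :
    ∃ R', GAlg S A R' V b ∧ f ∈ R' := by
  let T : Set (Fn m) := insert f ((fun (F : Fn (m + 1)) x => F (Fin.snoc x (f x))) '' RB)
  have h2 : ∀ F ∈ RB, (fun x => F (Fin.snoc x (f x))) ∈ Algebra.adjoin ℝ T := fun F hF =>
    Algebra.subset_adjoin (.inr ⟨F, hF, rfl⟩)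
  have h1 : ∀ i < m, ∃ ψ ∈ Algebra.adjoin ℝ T, EqOn ψ (pdv f i) A := fun i hi =>
    ⟨_, h2 _ (hF i hi), fun x hx => (hode x hx i hi).symm⟩
  refine ⟨Algebra.adjoin ℝ T, galg_gen ?_ fun P n y E₀ a1 a2' a3' a4 a5 => ?_,
    Algebra.subset_adjoin (.inl rfl)⟩
  · rintro φ (rfl | ⟨F, hF, rfl⟩)
    · exact ⟨df, hf, h1⟩
    · exact galg_graph h' df hf hm h1 h2 hF
  obtain ⟨E, α, z0, z1, z2⟩ := h.pres P n y E₀ a1 a2' a3' a4 a5
  have a2 := z1.dfld a2'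
  have a3 : ∀ i < m, y i ∈ E := fun i hi => z1.le (a3' i hi)
  have hτ : ∀ x, pre2_tau (Fin.snoc x (rho (f x))) = (Fin.snoc x (f x) : Fin (m + 1) → ℝ) :=
    fun x => by rw [pre2_tau_snoc, rhoi_rho]
  have hHτ : ∀ H ∈ RB, ∀ x ∈ A, AnalyticAt ℝ (fun z => H (pre2_tau z)) (Fin.snoc x (rho (f x))) :=
    fun H hH x hx => AnalyticAt.comp (g := H) (hτ x ▸ h'.an H hH _ (hm x hx)) (pre2_tau_an _ _)
  have du : DF S fun x => rho (f x) := (df_rho S).comp df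
  have hy : ∀ i < m, y i ∈ dcl S P n := fun i hi => a2.le (a3 i hi)
  obtain ⟨u, hu⟩ : ∃ u, u = ev (fun x => rho (f x)) y := ⟨_, rfl⟩
  have hud : u ∈ dcl S P n := hu ▸ ev_mem hy du
  have hub : |u| < 1 := by
    rw [hu, ← ev_abs, ← ev_one' (k := m) (P := y), ev_lt_iff]
    exact Eventually.of_forall fun ω => abs_rho_lt _
  obtain ⟨ε, e1, e2⟩ := exists_inf S P n
  obtain ⟨w, hw, hne⟩ : ∃ w, Inf (dcl S P n) (w - u) ∧ w ≠ u :=
    ⟨u + ε, by rwa [add_sub_cancel_left], by simpa using e1.ne'⟩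
  have hb : |w| < 1 := by
    have := hw _ (sub_mem (one_mem _) (abs_mem_if hud)) (sub_pos.2 hub)
    linarith [abs_sub_abs_le_abs_sub w u]
  have hg := presB_gen a1 hud hne hw
  have hD := presB_dfld_adj hg a2
  have hp : ∀ᶠ ω in 𝔲, tp (upd y m (cl fun ω => rhoi (out w ω))) (m + 1) ω =
      pre2_tau (tp (upd y m w) (m + 1) ω) := by
    filter_upwards [out_cl ((sm_out w).comp rhoi)] with ω e
    rw [tp_upd, tp_upd, pre2_tau_snoc, e]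
  have hin : At (fun z => pre2_tau z ∈ B) (upd y m w) := by
    refine nhds_near (pre2_upd_mem hy hud) (fun i hi => ?_) (dB.comp pre2_tau_df) ?_
    · rcases (Nat.lt_succ_iff.1 hi).eq_or_lt with rfl | hi
      · rwa [upd_self, upd_self]
      · rw [upd_of_ne hi.ne, upd_of_ne hi.ne, sub_self]
        exact Inf.zero _
    · filter_upwards [a4, presB_tp_graph (fun x => rho (f x)) y] with ω c1 c2
      rw [hu, c2]
      exact (pre2_tau_an _ _).continuousAt.eventually (hB.mem_nhds (hτ _ ▸ hm _ c1))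
  obtain ⟨K', β, b0, b1, b2⟩ := h'.pres _ _ (upd y m (cl fun ω => rhoi (out w ω))) _ hg hD
    (pre2_upd_mem (fun i hi => le_adj _ _ (a3 i hi)) (pre2_rhoi_mem hD.rc (mem_adj _ _) hb))
    (by filter_upwards [hp, hin] with ω c1 c2 using c1 ▸ c2)
    (hV _ _ _ _ a5 (z1.le.trans (le_adj _ _)) fun φ hφ => le_adj _ _ (z2 φ hφ))
  simp only [ev_comp hp] at b2
  have hwK : w ∈ K' := b1.le (mem_adj _ _)
  subst hu
  obtain ⟨K₂, c1, c2, c3⟩ := node_at (F := fun i z => (1 - z (Fin.last m) ^ 2) *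
      √(1 - z (Fin.last m) ^ 2) * F i (pre2_tau z)) a1 a2 a3 du
    (fun i hi => by
      have d : DF S fun z : Fin (m + 1) → ℝ => 1 - z (Fin.last m) ^ 2 := by fun_prop
      exact (d.mul d.sqrt).mul ((h'.df _ (hF i hi)).comp pre2_tau_df))
    (a4.mono fun ω hx => by
      generalize tp y m ω = x at hx
      have d1 := (hasDerivAt_rho (f x)).comp_hasFDerivAt x (hf x hx).differentiableAt.hasFDerivAt
      refine ⟨d1.differentiableAt, fun i hi => ⟨?_, ?_⟩⟩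
      · rw [hτ, ← hode x hx i hi, Fin.snoc_last]
        exact congrArg (fun M : (Fin m → ℝ) →L[ℝ] ℝ => M (uv m i)) d1.fderiv
      · have d2 : DifferentiableAt ℝ (fun z : Fin (m + 1) → ℝ => 1 - z (Fin.last m) ^ 2)
            (Fin.snoc x (rho (f x))) := by fun_prop
        refine (d2.mul (d2.sqrt ?_)).mul (hHτ _ (hF i hi) x hx).differentiableAt
        rw [Fin.snoc_last]
        exact (sub_pos.2 ((sq_lt_one_iff_abs_lt_one _).2 (abs_rho_lt _))).ne')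
    hne hw hb b1 fun i hi => by
      rw [ev_mul, ev_mul, ev_sub, ev_pow, ev_one', ev_last, upd_self]
      refine mul_mem (mul_mem (sub_mem (one_mem _) (pow_mem hwK 2)) ?_) (b2 _ (hF i hi))
      have := pre2_sqrt_mem (b1.dfld hD).rc hwK hb
      rw [← upd_self (P := y) (k := m) w] at this
      exact this
  refine ⟨K₂, _, hbb _ z0 _ b0, z1.trans c1, ?_⟩
  rintro φ (rfl | ⟨H, hH, rfl⟩)
  · have e : (cl fun ω => rhoi (out (ev (fun x => rho (φ x)) y) ω)) = ev φ y := cl_eq <| by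
      filter_upwards [out_ev φ y, out_ev (fun x => rho (φ x)) y] with ω d1 d2
      rw [d1, d2, rhoi_rho]
    exact e ▸ pre2_rhoi_mem (c1.dfld a2).rc c2 hub
  · have := c3 _ ((h'.df H hH).comp pre2_tau_df)
      (a4.mono fun ω hx => (hHτ H hH _ hx).continuousAt) (b2 H hH)
    simpa only [hτ] using this

/-- composition with the projection as an algebra map -/
def initH (m : ℕ) : Fn m →ₐ[ℝ] Fn (m + 1) where
  toFun φ z := φ (Fin.init z)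
  map_one' := rfl
  map_zero' := rfl
  map_mul' _ _ := rfl
  map_add' _ _ := rfl
  commutes' _ := rfl

theorem GAlg.lift {R : Subalgebra ℝ (Fn m)} (h : GAlg S A R V b) {B : Set (Fin (m + 1) → ℝ)}
    (hs : ∀ z ∈ B, Fin.init z ∈ A) (hV : ∀ y E, V' y E → ∀ φ ∈ R, ev φ y ∈ E) (hb : 0 < b') :
    GAlg S B (R.map (initH m)) V' b' := by
  refine ⟨?_, ?_, ?_, fun P n y E _ _ _ _ a5 => ⟨E, 0, hb, .nil, ?_⟩⟩
  · rintro _ ⟨φ, hφ, rfl⟩
    exact (h.df φ hφ).comp (DF.init DF.id')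
  · rintro _ ⟨φ, hφ, rfl⟩
    exact analyticOnNhd_init (h.an φ hφ) hs
  · rintro _ ⟨φ, hφ, rfl⟩ j
    choose ψ h1 h2 using h.pd φ hφ
    refine ⟨initH m (∑ i : Fin m, uv (m + 1) j i.castSucc • ψ i),
      ⟨∑ i : Fin m, uv (m + 1) j i.castSucc • ψ i,
        Subalgebra.sum_mem _ fun i _ => R.smul_mem (h1 i) _, rfl⟩, fun z hz => ?_⟩
    have key : ∀ i : Fin m, pdv (fun z : Fin (m + 1) → ℝ => (Fin.init z : Fin m → ℝ) i) j =
        fun _ => uv (m + 1) j i.castSucc := fun i => VS1_pdv_coord i.castSucc j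
    have := VS1_chain (π := fun z : Fin (m + 1) → ℝ => (Fin.init z : Fin m → ℝ))
      (h.an φ hφ _ (hs z hz)) (VS1_an_init z) j
    refine Eq.trans ?_ this.symm
    change (∑ i : Fin m, uv (m + 1) j i.castSucc • ψ i) (Fin.init z) = _
    rw [Finset.sum_apply]
    refine Finset.sum_congr rfl fun i _ => ?_
    rw [key, Pi.smul_apply, smul_eq_mul, h2 i (hs z hz), mul_comm]
  · rintro _ ⟨φ, hφ, rfl⟩
    exact hV y E a5 φ hφ

end Pool.Agent.Lib.MP_1a1eb7_lc
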