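import Pool.Agent.Results.MP_1a1eb7_lc.Level

/-! The statement of the former hand-in ZeroSet is the case of infinite level of the hand-in Level. -/

namespace Pool.Agent.Lib.MP_1a1eb7_lc

open Pool.Agent.Shared.OMin

theorem level_implies_zeroSet (s : Bool) (m : ℕ) (A : Set (Fin m → ℝ)) (f : (Fin m → ℝ) → ℝ)
    (h : IsPf (Pff s) m A f) :
    ∃ 𝒞 : Set (Set (Fin m → ℝ)), 𝒞.Finite ∧ (∀ C ∈ 𝒞, IsCell (Pff s) m C) ∧
      𝒞.PairwiseDisjoint id ∧ ⋃₀ 𝒞 = {x ∈ A | f x = 0} := by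
  rw [← pfL_top] at h ⊢
  exact Pool.Agent.Results.MP_1a1eb7_lc.Level.result s ⊤ m A f h

end Pool.Agent.Lib.MP_1a1eb7_lc
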