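import Pool.Agent.Lib.MP_1a1eb7_lc.PDefs

/-! The levels of the Pfaffian class: (P6) only in dimensions up to `M`. At infinite level the
rules are exactly (P1)-(P6). -/

namespace Pool.Agent.Lib.MP_1a1eb7_lc

open Set

/-- The class of level `M`: the rules (P1)-(P5), the rule (P6) only for `m ≤ M`, and, for finite
`M` only, the rule (L): a function of the class on `A ⊆ ℝ^m` gives the function `(x,t) ↦ f x` of the class on every
open cell over `A`. `PfL s M m A none`: `A ⊆ ℝ^m` is an open cell of the class.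
`PfL s M m A (some f)`: moreover `f` restricted to `A` is a function of the class. In (P4) the
condition `f₀ ≠ 0` is read as `f₀` vanishes nowhere on `A` if `s = true` and as `f₀` is not
identically zero on `A` if `s = false`. -/
inductive PfL (s : Bool) (M : ℕ∞) :
    (m : ℕ) → Set (Fin m → ℝ) → Option ((Fin m → ℝ) → ℝ) → Prop
  | point : PfL s M 0 univ none
  | band {m A g h} : PfL s M m A none → (∀ g' ∈ g, PfL s M m A (some g')) →
      (∀ h' ∈ h, PfL s M m A (some h')) → (∀ g' ∈ g, ∀ h' ∈ h, ∀ x ∈ A, g' x < h' x) →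
      PfL s M (m + 1) (eband A g h) none
  | const {m A} (c : ℝ) : PfL s M m A none → PfL s M m A (some fun _ => c)
  | coord {m A} (i : Fin m) : PfL s M m A none → PfL s M m A (some fun x => x i)
  | add {m A f g} : PfL s M m A (some f) → PfL s M m A (some g) →
      PfL s M m A (some fun x => f x + g x)
  | mul {m A f g} : PfL s M m A (some f) → PfL s M m A (some g) →
      PfL s M m A (some fun x => f x * g x)
  | alg {m A g} (n : ℕ) (f : Fin (n + 1) → (Fin m → ℝ) → ℝ) : (∀ i, PfL s M m A (some (f i))) →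
      AnalyticOnNhd ℝ g A → (∀ x ∈ A, ∑ i, f i x * g x ^ (n - (i : ℕ)) = 0) →
      (if s then ∀ x ∈ A, f 0 x ≠ 0 else ∃ x ∈ A, f 0 x ≠ 0) → PfL s M m A (some g)
  | comp {m A B f F} : PfL s M m A (some f) → PfL s M (m + 1) B (some F) →
      (∀ x ∈ A, Fin.snoc x (f x) ∈ B) → PfL s M m A (some fun x => F (Fin.snoc x (f x)))
  | ode {m : ℕ} {A B f} (F : Fin m → (Fin (m + 1) → ℝ) → ℝ) : (m : ℕ∞) ≤ M →
      PfL s M m A none → PfL s M (m + 1) B none →
      AnalyticOnNhd ℝ f A → (∀ i, PfL s M (m + 1) B (some (F i))) →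
      (∀ x ∈ A, Fin.snoc x (f x) ∈ B) →
      (∀ x ∈ A, ∀ i, fderiv ℝ f x (Pi.single i 1) = F i (Fin.snoc x (f x))) →
      PfL s M m A (some f)
  | lift {m A B f} : M ≠ ⊤ → PfL s M m A (some f) → PfL s M (m + 1) B none →
      (∀ z ∈ B, Fin.init z ∈ A) → PfL s M (m + 1) B (some fun z => f (Fin.init z))
  | congr {m A f g} : PfL s M m A (some f) → EqOn g f A → PfL s M m A (some g)

end Pool.Agent.Lib.MP_1a1eb7_lc
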