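import Pool.Agent.Lib.MP_1a1eb7_lc.Lv.Fin
import Pool.Agent.Lib.MP_1a1eb7_lc.Pre1

/-! The rule (L) is derivable from (P1)-(P6): the class of infinite level is the class `Pff`. -/

namespace Pool.Agent.Lib.MP_1a1eb7_lc

open Set Filter Topology Pool.Agent.Shared.OMin

variable {s : Bool} {N : ℕ∞} {m d : ℕ} {A : Set (Fin m → ℝ)} {f : Fn m} {o : Option (Fn m)}

theorem top_sum {ι : Type} (t : Finset ι) {F : ι → Fn m} (hA : Pff s m A none)
    (h : ∀ i ∈ t, Pff s m A (some (F i))) : Pff s m A (some fun x => ∑ i ∈ t, F i x) := by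
  classical
  induction t using Finset.induction_on with
  | empty => simpa using Pff.const 0 hA
  | insert a t ha ih =>
    simp only [Finset.sum_insert ha]
    exact (h a (Finset.mem_insert_self _ _)).add
      (ih fun i hi => h i (Finset.mem_insert_of_mem hi))

theorem top_ne {A' : Set (Fin d → ℝ)} {σ : Fin m → Fin d} (hσ : Function.Injective σ)
    (hc : IsPreconnected A) (hf : AnalyticOnNhd ℝ f A) (ho : IsOpen A') (hn : A'.Nonempty)
    (hm : ∀ x ∈ A', (fun i => x (σ i)) ∈ A) (h : ∃ x ∈ A, f x ≠ 0) :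
    ∃ x ∈ A', f (fun i => x (σ i)) ≠ 0 := by
  by_contra h0
  push Not at h0
  obtain ⟨x₀, hx₀⟩ := hn
  obtain ⟨x, hx, h1⟩ := h
  refine h1 (hf.eqOn_zero_of_preconnected_of_eventuallyEq_zero hc (hm x₀ hx₀) ?_ hx)
  have hcont : Continuous fun y : Fin m → ℝ => Function.extend σ y x₀ := by
    refine continuous_pi fun j => ?_
    by_cases hj : ∃ i, σ i = j
    · obtain ⟨i, rfl⟩ := hj
      simp only [hσ.extend_apply]
      exact continuous_apply i
    · simp only [Function.extend_apply' _ _ _ hj]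
      exact continuous_const
  have e : Function.extend σ (fun i => x₀ (σ i)) x₀ = x₀ := by
    funext j
    by_cases hj : ∃ i, σ i = j
    · obtain ⟨i, rfl⟩ := hj
      rw [hσ.extend_apply]
    · rw [Function.extend_apply' _ _ _ hj]
  have h2 : ∀ᶠ y in 𝓝 fun i => x₀ (σ i), Function.extend σ y x₀ ∈ A' :=
    hcont.continuousAt.eventually (ho.mem_nhds (by simpa only [e] using hx₀))
  filter_upwards [h2] with y hy
  have := h0 _ hy
  simp only [hσ.extend_apply] at this
  exact this

/-- the extended index map -/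
def topExt (σ : Fin m → Fin d) : Fin (m + 1) → Fin (d + 1) :=
  Fin.snoc (α := fun _ => Fin (d + 1)) (fun i => (σ i).castSucc) (Fin.last d)

theorem topExt_inj {σ : Fin m → Fin d} (hσ : Function.Injective σ) :
    Function.Injective (topExt σ) := by
  intro i j
  refine Fin.lastCases ?_ (fun i => ?_) i <;> refine Fin.lastCases ?_ (fun j => ?_) j <;>
    simp only [topExt, Fin.snoc_last, Fin.snoc_castSucc]
  · exact fun _ => trivial
  · exact fun h => absurd h.symm (Fin.castSucc_ne_last _)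
  · exact fun h => absurd h (Fin.castSucc_ne_last _)
  · exact fun h => congrArg _ (hσ (Fin.castSucc_injective _ h))

theorem topExt_apply (σ : Fin m → Fin d) (z : Fin (d + 1) → ℝ) : (fun i => z (topExt σ i)) =
    Fin.snoc (fun i => Fin.init z (σ i)) (z (Fin.last d)) := by
  funext i
  refine Fin.lastCases ?_ (fun j => ?_) i
  · simp [topExt]
  · simp [topExt, Fin.init]

/-- the statement for cells -/
def TopQ (s : Bool) : (m : ℕ) → Set (Fin m → ℝ) → Prop
  | 0, _ => True
  | m + 1, B => ∀ d A' (σ : Fin m → Fin d), Function.Injective σ → Pff s d A' none →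
      (∀ x ∈ A', ∃ t, (Fin.snoc (fun i => x (σ i)) t : Fin (m + 1) → ℝ) ∈ B) →
      Pff s (d + 1) (VS1pull B A' fun x i => x (σ i)) none

theorem top_gen (h : Pff s m A o) : TopQ s m A ∧ ∀ f ∈ o, ∀ d A' (σ : Fin m → Fin d),
    Function.Injective σ → Pff s d A' none → (∀ x ∈ A', (fun i => x (σ i)) ∈ A) →
      Pff s d A' (some fun x => f fun i => x (σ i)) := by
  induction h with
  | point => exact ⟨trivial, by simp⟩
  | @band m A g h _ _ _ h4 ih ihg ihh =>
    refine ⟨fun d A' σ hσ hA' hm => ?_, by simp⟩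
    have hm' : ∀ x ∈ A', (fun i => x (σ i)) ∈ A := fun x hx => by
      obtain ⟨t, ht⟩ := hm x hx
      exact (VS1_snoc_mem.1 ht).1
    have e : VS1pull (eband A g h) A' (fun x i => x (σ i)) =
        eband A' (g.map fun g' x => g' fun i => x (σ i))
          (h.map fun h' x => h' fun i => x (σ i)) := by
      ext z
      simp only [VS1pull, mem_ofPred_eq, VS1_snoc_mem]
      simp only [eband, mem_ofPred_eq, Option.mem_def, Option.map_eq_some_iff, forall_exists_index,
        and_imp, forall_apply_eq_imp_iff₂]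
      exact ⟨fun h => ⟨h.1, h.2.2⟩, fun h => ⟨h.1, hm' _ h.1, h.2⟩⟩
    rw [e]
    refine .band hA' ?_ ?_ ?_
    · simp only [Option.mem_def, Option.map_eq_some_iff, forall_exists_index, and_imp,
        forall_apply_eq_imp_iff₂]
      exact fun g' hg' => (ihg g' hg').2 _ rfl d A' σ hσ hA' hm'
    · simp only [Option.mem_def, Option.map_eq_some_iff, forall_exists_index, and_imp,
        forall_apply_eq_imp_iff₂]
      exact fun h' hh' => (ihh h' hh').2 _ rfl d A' σ hσ hA' hm'
    · simp only [Option.mem_def, Option.map_eq_some_iff, forall_exists_index, and_imp,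
        forall_apply_eq_imp_iff₂]
      exact fun g' hg' h' hh' x hx => h4 g' hg' h' hh' _ (hm' x hx)
  | const c _ ih =>
    refine ⟨ih.1, ?_⟩
    rintro _ ⟨⟩ d A' σ _ hA' _
    exact .const c hA'
  | coord i _ ih =>
    refine ⟨ih.1, ?_⟩
    rintro _ ⟨⟩ d A' σ _ hA' _
    exact .coord _ hA'
  | add _ _ ih ih' =>
    refine ⟨ih.1, ?_⟩
    rintro _ ⟨⟩ d A' σ hσ hA' hm
    exact (ih.2 _ rfl d A' σ hσ hA' hm).add (ih'.2 _ rfl d A' σ hσ hA' hm)
  | mul _ _ ih ih' =>
    refine ⟨ih.1, ?_⟩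
    rintro _ ⟨⟩ d A' σ hσ hA' hm
    exact (ih.2 _ rfl d A' σ hσ hA' hm).mul (ih'.2 _ rfl d A' σ hσ hA' hm)
  | alg k c hc ha h0 hd ih =>
    refine ⟨(ih 0).1, ?_⟩
    rintro _ ⟨⟩ d A' σ hσ hA' hm
    have hπa : AnalyticOnNhd ℝ (fun (x : Fin d → ℝ) i => x (σ i)) A' := fun x _ =>
      analyticAt_pi_iff.2 fun i => VS1_an_coord _ x
    refine .alg k (fun i x => c i fun j => x (σ j))
      (fun i => (ih i).2 _ rfl d A' σ hσ hA' hm) (ha.comp hπa hm) (fun x hx => h0 _ (hm x hx)) ?_
    cases s with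
    | true => exact fun x hx => hd _ (hm x hx)
    | false =>
      exact top_ne hσ (hc 0).basic.2.1 ((hc 0).basic.2.2.2 _ rfl) hA'.basic.1 hA'.basic.2.2.1 hm hd
  | @comp m A B f F _ _ hB ih ih' =>
    refine ⟨ih.1, ?_⟩
    rintro _ ⟨⟩ d A' σ hσ hA' hm
    have hB' := ih'.1 d A' σ hσ hA' fun x hx => ⟨_, hB _ (hm x hx)⟩
    have h1 := ih'.2 _ rfl _ _ _ (topExt_inj hσ) hB' fun z hz => topExt_apply σ z ▸ hz.2
    have h2 := Pff.comp (ih.2 _ rfl d A' σ hσ hA' hm) h1 fun x hx => by
      simpa [VS1pull] using ⟨hx, hB _ (hm x hx)⟩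
    simpa [topExt_apply] using h2
  | @ode m A B f F _ _ ha _ hB hF ih ih' ihF =>
    refine ⟨ih.1, ?_⟩
    rintro _ ⟨⟩ d A' σ hσ hA' hm
    have hπa : AnalyticOnNhd ℝ (fun (x : Fin d → ℝ) i => x (σ i)) A' := fun x _ =>
      analyticAt_pi_iff.2 fun i => VS1_an_coord _ x
    have hB' := ih'.1 d A' σ hσ hA' fun x hx => ⟨_, hB _ (hm x hx)⟩
    refine .ode (fun j z => ∑ i : Fin m, F i (fun l => z (topExt σ l)) * uv d j (σ i)) hA' hB'
      (ha.comp hπa hm) (fun j => ?_) (fun x hx => ?_) fun x hx j => ?_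
    · exact top_sum _ hB' fun i _ => Pff.mul ((ihF i).2 _ rfl _ _ _ (topExt_inj hσ) hB'
        fun z hz => topExt_apply σ z ▸ hz.2) (.const _ hB')
    · simpa [VS1pull] using ⟨hx, hB _ (hm x hx)⟩
    · have := VS1_chain (π := fun (x : Fin d → ℝ) i => x (σ i)) (ha _ (hm x hx)) (hπa x hx) j
      rw [pdv, VS1_uv] at this
      rw [this]
      refine Finset.sum_congr rfl fun i _ => ?_
      rw [VS1_pdv_coord, pdv, VS1_uv, hF _ (hm x hx) i, topExt_apply]
      simp
  | congr _ he ih =>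
    refine ⟨ih.1, ?_⟩
    rintro _ ⟨⟩ d A' σ hσ hA' hm
    exact (ih.2 _ rfl d A' σ hσ hA' hm).congr fun x hx => he (hm x hx)

theorem PfM.toPff (h : PfM s N m A o) : Pff s m A o := by
  induction h with
  | point => exact .point
  | band _ _ _ h4 ih ihg ihh => exact .band ih ihg ihh h4
  | const c _ ih => exact .const c ih
  | coord i _ ih => exact .coord i ih
  | add _ _ ih ih' => exact .add ih ih'
  | mul _ _ ih ih' => exact .mul ih ih'
  | alg n f _ h1 h2 h3 ih => exact .alg n f ih h1 h2 h3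
  | comp _ _ h3 ih ih' => exact .comp ih ih' h3
  | ode F _ _ _ h1 _ h2 h3 ih ih' ihF => exact .ode F ih ih' h1 ihF h2 h3
  | lift _ _ h3 ih ih' =>
    exact (top_gen ih).2 _ rfl _ _ Fin.castSucc (Fin.castSucc_injective _) ih' h3
  | congr _ he ih => exact .congr ih he

theorem Pff.toPfM (h : Pff s m A o) : PfM s ⊤ m A o := by
  induction h with
  | point => exact .point
  | band _ _ _ h4 ih ihg ihh => exact .band ih ihg ihh h4
  | const c _ ih => exact .const c ih
  | coord i _ ih => exact .coord i ih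
  | add _ _ ih ih' => exact .add ih ih'
  | mul _ _ ih ih' => exact .mul ih ih'
  | alg n f _ h1 h2 h3 ih => exact .alg n f ih h1 h2 h3
  | comp _ _ h3 ih ih' => exact .comp ih ih' h3
  | ode F _ _ h1 _ h2 h3 ih ih' ihF => exact .ode F le_top ih ih' h1 ihF h2 h3
  | congr _ he ih => exact .congr ih he

/-- the class of infinite level is the class of all Pfaffian cells and functions -/
theorem pfM_top (s : Bool) : PfM s ⊤ = Pff s := by
  funext m A o
  exact propext ⟨PfM.toPff, Pff.toPfM⟩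

end Pool.Agent.Lib.MP_1a1eb7_lc
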