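import Pool.Agent.Lib.MP_1a1eb7_lc.Lv.PL
import Pool.Agent.Lib.MP_1a1eb7_lc.Lv.Top

/-! The class with rule (L) at finite levels only is the class with rule (L) at all levels. -/

namespace Pool.Agent.Lib.MP_1a1eb7_lc

variable {s : Bool} {M : ℕ∞} {m : ℕ} {A : Set (Fin m → ℝ)} {o : Option ((Fin m → ℝ) → ℝ)}

theorem PfL.toPfM (h : PfL s M m A o) : PfM s M m A o := by
  induction h with
  | point => exact .point
  | band _ _ _ h4 ih ihg ihh => exact .band ih ihg ihh h4
  | const c _ ih => exact .const c ih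
  | coord i _ ih => exact .coord i ih
  | add _ _ ih ih' => exact .add ih ih'
  | mul _ _ ih ih' => exact .mul ih ih'
  | alg n f _ h1 h2 h3 ih => exact .alg n f ih h1 h2 h3
  | comp _ _ h3 ih ih' => exact .comp ih ih' h3
  | ode F h0 _ _ h1 _ h2 h3 ih ih' ihF => exact .ode F h0 ih ih' h1 ihF h2 h3
  | lift _ _ _ h3 ih ih' => exact .lift ih ih' h3
  | congr _ he ih => exact .congr ih he

theorem PfM.toPfL (hM : M ≠ ⊤) (h : PfM s M m A o) : PfL s M m A o := by
  induction h with
  | point => exact .point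
  | band _ _ _ h4 ih ihg ihh => exact .band ih ihg ihh h4
  | const c _ ih => exact .const c ih
  | coord i _ ih => exact .coord i ih
  | add _ _ ih ih' => exact .add ih ih'
  | mul _ _ ih ih' => exact .mul ih ih'
  | alg n f _ h1 h2 h3 ih => exact .alg n f ih h1 h2 h3
  | comp _ _ h3 ih ih' => exact .comp ih ih' h3
  | ode F h0 _ _ h1 _ h2 h3 ih ih' ihF => exact .ode F h0 ih ih' h1 ihF h2 h3
  | lift _ _ h3 ih ih' => exact .lift hM ih ih' h3
  | congr _ he ih => exact .congr ih he

theorem Pff.toPfL (h : Pff s m A o) : PfL s ⊤ m A o := by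
  induction h with
  | point => exact .point
  | band _ _ _ h4 ih ihg ihh => exact .band ih ihg ihh h4
  | const c _ ih => exact .const c ih
  | coord i _ ih => exact .coord i ih
  | add _ _ ih ih' => exact .add ih ih'
  | mul _ _ ih ih' => exact .mul ih ih'
  | alg n f _ h1 h2 h3 ih => exact .alg n f ih h1 h2 h3
  | comp _ _ h3 ih ih' => exact .comp ih ih' h3
  | ode F _ _ h1 _ h2 h3 ih ih' ihF => exact .ode F le_top ih ih' h1 ihF h2 h3
  | congr _ he ih => exact .congr ih he

theorem pfL_eq (s : Bool) (M : ℕ∞) : PfL s M = PfM s M := by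
  funext m A o
  refine propext ⟨PfL.toPfM, fun h => ?_⟩
  by_cases hM : M = ⊤
  · subst hM
    rw [pfM_top] at h
    exact h.toPfL
  · exact h.toPfL hM

theorem pfL_top (s : Bool) : PfL s ⊤ = Pff s := by
  rw [pfL_eq, pfM_top]

end Pool.Agent.Lib.MP_1a1eb7_lc
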