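import Pool.Agent.Lib.MP_1a1eb7_lc.Lv.VM1
import Pool.Agent.Lib.MP_1a1eb7_lc.Pre1

/-! The very strict class of level `M`: bounded cells and general cells. -/

namespace Pool.Agent.Lib.MP_1a1eb7_lc

open Set Filter Topology Pool.Agent.Shared.OMin

variable {S : OStr} {s : Bool} {M m d n : ℕ} {A : Set (Fin m → ℝ)} {f g : Fn m}
  {o : Option (Fn m)} {P y : ℕ → U}

theorem VM.rho (h : VM M m A (some f)) : VM M m A (some fun x => rho (f x)) := by
  have h0 : ∀ x ∈ A, (0 : ℝ) < 1 + f x * f x := fun x _ => by nlinarith [mul_self_nonneg (f x)]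
  refine (h.mul ((((VM.const 1 h.cell).add (h.mul h)).sqrt h0).inv
    fun x hx => (Real.sqrt_pos.2 (h0 x hx)).ne')).congr fun x _ => ?_
  simp only [MP_1a1eb7_lc.rho, div_eq_mul_inv, sq]

theorem VM.rhoi (h : VM M m A (some f)) (hb : ∀ x ∈ A, |f x| < 1) :
    VM M m A (some fun x => rhoi (f x)) := by
  have h0 : ∀ x ∈ A, (0 : ℝ) < 1 - f x * f x := fun x hx => by
    have := (sq_lt_one_iff_abs_lt_one _).2 (hb x hx)
    nlinarith
  refine (h.mul ((((VM.const 1 h.cell).sub (h.mul h)).sqrt h0).inv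
    fun x hx => (Real.sqrt_pos.2 (h0 x hx)).ne')).congr fun x _ => ?_
  simp only [MP_1a1eb7_lc.rhoi, div_eq_mul_inv, sq]

theorem BM.vm (h : BM M m A) : VM M m A none := by
  induction h with
  | point => exact VM.point
  | band _ hg hh hlt _ _ ih =>
    rw [vsb_band_eq]
    refine VM.band ih (by simpa using hg) (by simpa using hh) ?_
    rintro _ ⟨⟩ _ ⟨⟩
    exact hlt

theorem BM.abs_lt (h : BM M m A) : ∀ x ∈ A, ∀ i, |x i| < 1 := by
  induction h with
  | point => exact fun _ _ i => i.elim0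
  | band _ _ _ _ h1 h2 ih =>
    intro z hz i
    refine Fin.lastCases ?_ (fun j => ih _ hz.1 j) i
    have k1 := h1.elim (fun h => (h _ hz.1).ge) fun h => (h _ hz.1).le
    have k2 := h2.elim (fun h => (h _ hz.1).le) fun h => (h _ hz.1).le
    exact _root_.abs_lt.2 ⟨k1.trans_lt hz.2.1, hz.2.2.trans_le k2⟩

/-- the preimage of a bounded cell under coordinatewise `rho` is a cell -/
theorem BM.pull' (h : BM M m A) :
    TM M m m {x | (fun i => rho (x i)) ∈ A} fun x i => rho (x i) := by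
  induction h with
  | point => exact TM.zero
  | @band m A g h _ hg hh hlt h1 h2 hπ =>
    have ih := hπ.cell
    have k1 : ∀ x ∈ A, -1 ≤ g x := fun x hx => h1.elim (fun h => (h _ hx).ge) fun h => (h _ hx).le
    have k2 : ∀ x ∈ A, h x ≤ 1 := fun x hx => h2.elim (fun h => (h _ hx).le) fun h => (h _ hx).le
    obtain ⟨g', vg, eg⟩ : ∃ g' : Option (Fn m),
        (∀ φ ∈ g', VM M m {x | (fun i => rho (x i)) ∈ A} (some φ)) ∧
        ∀ x : Fin m → ℝ, (fun i => rho (x i)) ∈ A → ∀ t,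
          (∀ φ ∈ g', φ x < t) ↔ g (fun i => rho (x i)) < rho t := by
      rcases h1 with h1 | h1
      · refine ⟨none, by simp, fun x hx t => ?_⟩
        simpa [h1 _ hx] using (_root_.abs_lt.1 (abs_rho_lt t)).1
      · have hb : ∀ x ∈ A, |g x| < 1 := fun x hx =>
          _root_.abs_lt.2 ⟨h1 x hx, (hlt x hx).trans_le (k2 x hx)⟩
        refine ⟨some fun x => rhoi (g fun i => rho (x i)), ?_, fun x hx t => ?_⟩
        · rintro _ ⟨⟩
          exact (hg.subst hπ fun _ hx => hx).rhoi fun x hx => hb _ hx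
        · simpa using vsb_rhoi_lt (hb _ hx)
    obtain ⟨h', vh, eh⟩ : ∃ h' : Option (Fn m),
        (∀ φ ∈ h', VM M m {x | (fun i => rho (x i)) ∈ A} (some φ)) ∧
        ∀ x : Fin m → ℝ, (fun i => rho (x i)) ∈ A → ∀ t,
          (∀ φ ∈ h', t < φ x) ↔ rho t < h (fun i => rho (x i)) := by
      rcases h2 with h2 | h2
      · refine ⟨none, by simp, fun x hx t => ?_⟩
        simpa [h2 _ hx] using (_root_.abs_lt.1 (abs_rho_lt t)).2
      · have hb : ∀ x ∈ A, |h x| < 1 := fun x hx =>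
          _root_.abs_lt.2 ⟨(k1 x hx).trans_lt (hlt x hx), h2 x hx⟩
        refine ⟨some fun x => rhoi (h fun i => rho (x i)), ?_, fun x hx t => ?_⟩
        · rintro _ ⟨⟩
          exact (hh.subst hπ fun _ hx => hx).rhoi fun x hx => hb _ hx
        · simpa using vsb_lt_rhoi (hb _ hx)
    have e : {z : Fin (m + 1) → ℝ | (fun i => rho (z i)) ∈ MP_1a1eb7_lc.band A g h} =
        eband {x | (fun i => rho (x i)) ∈ A} g' h' := by
      ext z
      exact and_congr_right fun hz => and_congr (eg _ hz _).symm (eh _ hz _).symm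
    have hlt' : ∀ φ ∈ g', ∀ ψ ∈ h', ∀ x ∈ {x : Fin m → ℝ | (fun i => rho (x i)) ∈ A},
        φ x < ψ x := by
      rintro φ rfl ψ rfl x hx
      by_contra hc
      have a1 := (eg x hx (φ x)).not.1 (by simp)
      have a2 := (eh x hx (φ x)).not.1 (by simpa using hc)
      linarith [hlt _ hx]
    rw [e]
    have hB := VM.band ih vg vh hlt'
    have := hπ.new (VM.coord (Fin.last m) hB).rho (fun z hz => hz.1) fun x hx => vsb_fibre hlt' hx
    have e2 : (fun (z : Fin (m + 1) → ℝ) i => rho (z i)) = fun z =>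
        Fin.snoc (fun i => rho (Fin.init z i)) (rho (z (Fin.last m))) := by
      funext z i
      refine Fin.lastCases ?_ (fun j => ?_) i
      · simp
      · simp [Fin.init]
    rw [e2]
    exact this

theorem BM.pull (h : BM M m A) : VM M m {x | (fun i => rho (x i)) ∈ A} none := h.pull'.cell

/-- the class of bounded cells as an abstract system: Cell = BCell, Pf m A f = BM M m A and VS -/
theorem exists_sysM (M : ℕ) : ∃ Γ : SysM M, ∀ (m : ℕ) (A : Set (Fin m → ℝ)), Γ.Cell m A →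
    VM M m {x | (fun i => rho (x i)) ∈ A} none :=
  ⟨{ Cell := BM M
     Pf := fun m A f => BM M m A ∧ VM M m A (some f)
     zero := BM.point
     band := fun h hg hh hlt h1 h2 => BM.band h hg.2 hh.2 hlt h1 h2
     const := fun c h => ⟨h, VM.const c h.vm⟩
     coord := fun i h => ⟨h, VM.coord i h.vm⟩
     add := fun h h' => ⟨h.1, h.2.add h'.2⟩
     mul := fun h h' => ⟨h.1, h.2.mul h'.2⟩
     congr := fun h e => ⟨h.1, h.2.congr e⟩
     alg := fun d c h hc ha h1 h2 h3 => ⟨h, VM.alg d c (fun i => (hc i).2) ha h1 h2 h3⟩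
     lift := fun h hB hs => ⟨hB, h.2.lift hB.vm hs⟩
     comp := fun h h' hs => ⟨h.1, h.2.comp h'.2 hs⟩
     ode := fun F hn h hB ha hF h1 h2 =>
       ⟨h, VM.ode F hn h.vm hB.vm ha (fun i hi => (hF i hi).2) h1 h2⟩ },
    fun _ _ h => BM.pull h⟩

variable {A₀ : Set (Fin d → ℝ)} {ι : (Fin d → ℝ) → Fin m → ℝ}

theorem GCell.vm (h : GCell (VM M) m d A₀ ι) : VM M d A₀ none := by
  induction h with
  | point => exact VM.point
  | graph _ _ ih => exact ih
  | band _ hg hh hlt ih => exact ih.band hg hh hlt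

theorem GCell.pfm {N : ℕ∞} (h : GCell (PfM s N) m d A₀ ι) : PfM s N d A₀ none := by
  induction h with
  | point => exact PfM.point
  | graph _ _ ih => exact ih
  | band _ hg hh hlt ih => exact ih.band hg hh hlt

theorem GCell.restrictM (h : GCell (VM M) m d A₀ ι) {A₁ : Set (Fin d → ℝ)} (h1 : VM M d A₁ none)
    (hs : A₁ ⊆ A₀) : GCell (VM M) m d A₁ ι := by
  induction h with
  | point =>
    rw [Subsingleton.eq_univ_of_nonempty h1.basic.2.1]
    exact GCell.point
  | graph _ hf ih => exact (ih h1 hs).graph (hf.restrict h1 hs)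
  | band _ _ _ _ ih =>
    obtain ⟨A', g', h', rfl, hA', hg, hh, hlt⟩ := h1.inv_band
    refine (ih hA' fun x hx => ?_).band hg hh hlt
    obtain ⟨t, ht⟩ := vsb_fibre hlt hx
    exact (vsb_snoc_mem.1 (hs ht)).1

theorem PfM.gcell {N : ℕ∞} (h : PfM s N m A none) : GCell (PfM s N) m m A id := by
  induction m with
  | zero =>
    cases h
    exact GCell.point
  | succ m ih =>
    cases h with
    | band hA hg hh hlt =>
      have := (ih hA).band hg hh hlt
      simp only [id_eq, Fin.snoc_init_self] at this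
      exact this

theorem IsCell.toPfM (h : IsCell (VM M) m A) (s : Bool) : IsCell (PfM s M) m A := by
  obtain ⟨d, A₀, ι, h1, h2⟩ := h
  exact ⟨d, A₀, ι, h1.mono fun _ _ _ h => h.toPfM s, h2⟩

theorem IsPf.toPfM (h : IsPf (VM M) m A f) (s : Bool) : IsPf (PfM s M) m A f := by
  obtain ⟨d, A₀, ι, h1, h2, h3⟩ := h
  exact ⟨d, A₀, ι, h1.mono fun _ _ _ h => h.toPfM s, h2, h3.toPfM s⟩

theorem IsCell.nonemptyM (h : IsCell (VM M) m A) : A.Nonempty := by
  obtain ⟨d, A₀, ι, h1, rfl⟩ := h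
  exact h1.vm.basic.2.1.image _

theorem IsCell.isPf_zeroM (h : IsCell (VM M) m A) : IsPf (VM M) m A fun _ => 0 := by
  obtain ⟨d, A₀, ι, h1, h2⟩ := h
  exact ⟨d, A₀, ι, h1, h2, VM.const 0 h1.vm⟩

/-- the projection of a subcell is a triangular substitution -/
theorem GCell.tm (h' : GCell (VM M) m d A₀ ι) {d₁ : ℕ} {A₁ : Set (Fin d₁ → ℝ)}
    {ι₁ : (Fin d₁ → ℝ) → Fin m → ℝ} (h : GCell (VM M) m d₁ A₁ ι₁) (hs : ι '' A₀ ⊆ ι₁ '' A₁) :
    ∃ σ : Fin d₁ → Fin m, (∀ x, (fun i => ι₁ x (σ i)) = x) ∧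
      TM M d₁ d A₀ fun x i => ι x (σ i) := by
  induction h' generalizing d₁ with
  | point =>
    cases h
    exact ⟨id, fun _ => rfl, .zero⟩
  | @graph m d A₀ ι f h0 hf ih =>
    cases h with
    | @graph _ _ _ ι₁ f₁ h1 _ =>
      obtain ⟨σ, a1, a2⟩ := ih h1 (by
        rintro _ ⟨x, hx, rfl⟩
        obtain ⟨u, hu, e⟩ := hs (mem_image_of_mem _ hx)
        exact ⟨u, hu, by simpa using congrArg Fin.init e⟩)
      exact ⟨fun i => (σ i).castSucc, fun x => by simpa using a1 x, by simpa using a2⟩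
    | @band _ d₁ A₁ ι₁ g k h1 _ _ _ =>
      obtain ⟨σ, a1, a2⟩ := ih h1 (by
        rintro _ ⟨x, hx, rfl⟩
        obtain ⟨u, hu, e⟩ := hs (mem_image_of_mem _ hx)
        exact ⟨_, hu.1, by simpa using congrArg Fin.init e⟩)
      refine ⟨Fin.snoc (fun i => (σ i).castSucc) (Fin.last _), fun z => funext fun i => ?_, ?_⟩
      · refine Fin.lastCases ?_ (fun j => ?_) i
        · simp
        · simpa [Fin.init] using congrFun (a1 (Fin.init z)) j
      · have e : (fun x (i : Fin (d₁ + 1)) => (Fin.snoc (ι x) (f x) : Fin (m + 1) → ℝ)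
            ((Fin.snoc (fun i => (σ i).castSucc) (Fin.last _) : Fin (d₁ + 1) → Fin (m + 1)) i)) =
            fun x => Fin.snoc (fun i => ι x (σ i)) (f x) := by
          funext x i
          refine Fin.lastCases ?_ (fun j => ?_) i <;> simp
        rw [e]
        exact a2.same hf
  | @band m d A₀ ι g k h0 hg hk hlt ih =>
    have hB := h0.vm.band hg hk hlt
    cases h with
    | @graph _ _ _ ι₁ f₁ h1 _ =>
      exfalso
      obtain ⟨σ, hσ⟩ := h1.exists_proj
      obtain ⟨z, hz⟩ := hB.basic.2.1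
      have hc : Continuous fun t : ℝ => (Fin.snoc (Fin.init z) t : Fin (d + 1) → ℝ) :=
        pre1_cont_snoc.comp (f := fun t : ℝ => (Fin.init z, t)) (by fun_prop)
      have ho := hB.basic.1.preimage hc
      have key : ∀ t, (Fin.snoc (Fin.init z) t : Fin (d + 1) → ℝ) ∈ eband A₀ g k →
          t = f₁ fun i => ι (Fin.init z) (σ i) := fun t ht => by
        obtain ⟨u, -, e⟩ := hs (mem_image_of_mem _ ht)
        have e1 := congrArg Fin.init e
        have e2 := congrFun e (Fin.last m)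
        simp only [Fin.init_snoc, Fin.snoc_last] at e1 e2
        rw [← e1, hσ, e2]
      have hz' : z (Fin.last d) ∈ (fun t : ℝ => (Fin.snoc (Fin.init z) t : Fin (d + 1) → ℝ)) ⁻¹'
          eband A₀ g k := by simpa using hz
      obtain ⟨t, ht, hne⟩ := (infinite_of_mem_nhds _ (ho.mem_nhds hz')).exists_notMem_finset
        {f₁ fun i => ι (Fin.init z) (σ i)}
      exact hne (Finset.mem_singleton.2 (key t ht))
    | @band _ d₁ A₁ ι₁ g₁ k₁ h1 _ _ _ =>
      obtain ⟨σ, a1, a2⟩ := ih h1 (by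
        rintro _ ⟨x, hx, rfl⟩
        obtain ⟨t, ht⟩ := vsb_fibre hlt hx
        obtain ⟨u, hu, e⟩ := hs (mem_image_of_mem _ ht)
        exact ⟨_, hu.1, by simpa using congrArg Fin.init e⟩)
      refine ⟨Fin.snoc (fun i => (σ i).castSucc) (Fin.last _), fun z => funext fun i => ?_, ?_⟩
      · refine Fin.lastCases ?_ (fun j => ?_) i
        · simp
        · simpa [Fin.init] using congrFun (a1 (Fin.init z)) j
      · have e : (fun (z : Fin (d + 1) → ℝ) (i : Fin (d₁ + 1)) =>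
            (Fin.snoc (ι (Fin.init z)) (z (Fin.last d)) : Fin (m + 1) → ℝ)
            ((Fin.snoc (fun i => (σ i).castSucc) (Fin.last _) : Fin (d₁ + 1) → Fin (m + 1)) i)) =
            fun z => Fin.snoc (fun i => ι (Fin.init z) (σ i)) (z (Fin.last d)) := by
          funext x i
          refine Fin.lastCases ?_ (fun j => ?_) i <;> simp
        rw [e]
        exact a2.new (.coord _ hB) (fun z hz => hz.1) fun x hx => vsb_fibre hlt hx

/-- restriction to a general subcell -/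
theorem IsPf.restrictM (h : IsPf (VM M) m A f) (h' : GCell (VM M) m d A₀ ι) (hs : ι '' A₀ ⊆ A) :
    VM M d A₀ (some (f ∘ ι)) := by
  obtain ⟨d₁, A₁, ι₁, h1, rfl, h3⟩ := h
  obtain ⟨σ, hσ, hT⟩ := h'.tm h1 hs
  have key : ∀ x ∈ A₀, (fun i => ι x (σ i)) ∈ A₁ ∧ ι₁ (fun i => ι x (σ i)) = ι x := by
    intro x hx
    obtain ⟨u, hu, e⟩ := hs (mem_image_of_mem ι hx)
    rw [← e, hσ]
    exact ⟨hu, rfl⟩
  refine (h3.subst hT fun x hx => (key x hx).1).congr fun x hx => ?_
  simp only [Function.comp_apply, (key x hx).2]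

/-- structure of a general cell in dimension `m+1` -/
theorem IsCell.invM {C : Set (Fin (m + 1) → ℝ)} (h : IsCell (VM M) (m + 1) C) :
    ∃ A, IsCell (VM M) m A ∧ ((∃ f, IsPf (VM M) m A f ∧
        C = {z : Fin (m + 1) → ℝ | Fin.init z ∈ A ∧ z (Fin.last m) = f (Fin.init z)}) ∨
      ∃ g h : Option (Fn m), (∀ g' ∈ g, IsPf (VM M) m A g') ∧ (∀ h' ∈ h, IsPf (VM M) m A h') ∧
        C = eband A g h) := by
  obtain ⟨d, A₀, ι, h1, rfl⟩ := h
  cases h1 with
  | @graph _ _ _ ι f h0 hf =>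
    obtain ⟨σ, hσ⟩ := h0.exists_proj
    have e : (fun y => f fun i => y (σ i)) ∘ ι = f := funext fun x => congrArg f (hσ x)
    refine ⟨_, ⟨_, _, _, h0, rfl⟩, .inl ⟨fun y => f fun i => y (σ i),
      ⟨_, _, _, h0, rfl, e.symm ▸ hf⟩, ?_⟩⟩
    refine Eq.trans ?_ (vsb_graph_eq fun y => f fun i => y (σ i))
    simp only [hσ]
  | @band _ d A ι g h h0 hg hh hlt =>
    obtain ⟨σ, hσ⟩ := h0.exists_proj
    have e : ∀ f : Fn d, (fun y => f fun i => y (σ i)) ∘ ι = f :=
      fun f => funext fun x => congrArg f (hσ x)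
    have e' : ∀ o : Option (Fn d),
        (o.map fun f (y : Fin m → ℝ) => f fun i => y (σ i)).map (· ∘ ι) = o := by
      rintro (_ | f)
      · rfl
      · exact congrArg some (e f)
    refine ⟨_, ⟨_, _, _, h0, rfl⟩, .inr ⟨g.map fun f y => f fun i => y (σ i),
      h.map fun f y => f fun i => y (σ i), fun φ hφ => ?_, fun φ hφ => ?_, ?_⟩⟩
    · obtain ⟨ψ, hψ, rfl⟩ := Option.mem_map.1 hφ
      exact ⟨_, _, _, h0, rfl, (e ψ).symm ▸ hg ψ hψ⟩
    · obtain ⟨ψ, hψ, rfl⟩ := Option.mem_map.1 hφ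
      exact ⟨_, _, _, h0, rfl, (e ψ).symm ▸ hh ψ hψ⟩
    · rw [← vsb_band_image, e', e']

theorem IsPf.graphM (h : IsPf (VM M) m A f) :
    IsCell (VM M) (m + 1) {z | Fin.init z ∈ A ∧ z (Fin.last m) = f (Fin.init z)} := by
  obtain ⟨d, A₀, ι, h1, rfl, h3⟩ := h
  exact ⟨d, A₀, _, h1.graph h3, (vsb_graph_eq f).symm⟩

theorem IsCell.band_cellM (hA : IsCell (VM M) m A) {g h : Option (Fn m)} (hg : ∀ g' ∈ g, IsPf (VM M) m A g')
    (hh : ∀ h' ∈ h, IsPf (VM M) m A h') (hlt : ∀ g' ∈ g, ∀ h' ∈ h, ∀ x ∈ A, g' x < h' x) :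
    IsCell (VM M) (m + 1) (eband A g h) := by
  obtain ⟨d, A₀, ι, h1, rfl⟩ := hA
  refine ⟨d + 1, _, _, h1.band (g := g.map (· ∘ ι)) (h := h.map (· ∘ ι)) (fun φ hφ => ?_)
    (fun φ hφ => ?_) fun φ hφ φ' hφ' x hx => ?_, (vsb_band_image g h).symm⟩
  · obtain ⟨ψ, hψ, rfl⟩ := Option.mem_map.1 hφ
    exact (hg ψ hψ).restrictM h1 Subset.rfl
  · obtain ⟨ψ, hψ, rfl⟩ := Option.mem_map.1 hφ
    exact (hh ψ hψ).restrictM h1 Subset.rfl
  · obtain ⟨ψ, hψ, rfl⟩ := Option.mem_map.1 hφ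
    obtain ⟨ψ', hψ', rfl⟩ := Option.mem_map.1 hφ'
    exact hlt ψ hψ ψ' hψ' _ (mem_image_of_mem _ hx)

end Pool.Agent.Lib.MP_1a1eb7_lc
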