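import Pool.Agent.Lib.MP_1a1eb7_lc.Lv.Core2
import Pool.Agent.Lib.MP_1a1eb7_lc.Lv.Able
import Pool.Agent.Lib.MP_1a1eb7_lc.Lv.VMB

/-! Compatible cells of level `M` at special points. -/

namespace Pool.Agent.Lib.MP_1a1eb7_lc

open Set Filter Topology Pool.Agent.Shared.OMin

variable {S : OStr} {s : Bool} {M m d n k : ℕ} {A : Set (Fin m → ℝ)} {f g : Fn m}
  {o : Option (Fn m)} {P y : ℕ → U}

variable {Γ : SysM M} {C : Set (Fin d → ℝ)} {Λ : (Fin d → ℝ) → Fin m → ℝ}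

theorem exists_stM (hS : PfClosed S) (Γ : SysM M) (hP : Gen S P n) (hb : ∀ i < n, |P i| < 1) :
    ∃ C, StM S Γ P n C := by
  have hT : Tow S (thM M) P n (finalTow P) := ⟨hP, hb, fun k hk => ⟨0, thM_pos _ _, by
    cases k <;> exact Pres.nil⟩⟩
  obtain ⟨c, E, h1, h2, h3, -⟩ := lv_main hS Γ n P _ (fun _ => ∅) hT
    fun _ _ => ⟨finite_empty, empty_subset _⟩
  exact ⟨_, c, E, h1, h2, h3, rfl⟩

theorem StM.props (h : StM S Γ P d C) : Γ.Cell d C ∧ At (fun x => x ∈ C) P ∧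
    IsOpen C ∧ IsPreconnected C ∧ ∀ x ∈ C, ∀ i, |x i| < 1 := by
  obtain ⟨c, E, h1, h2, h3, rfl⟩ := h
  exact ⟨(h2 d le_rfl).1, h3.has, h1.isOpen le_rfl, h1.isPreconnected le_rfl,
    fun _ hx i => h1.abs_lt le_rfl hx i⟩

theorem StM.tow (h : StM S Γ P d C) : ∃ E, Tow S (thM M) P d E := by
  obtain ⟨c, E, -, -, h3, -⟩ := h
  exact ⟨E, h3.tow⟩

theorem StM.refine (hS : PfClosed S) (h : StM S Γ P d C) {χ : Fn d}
    (hd : DF S χ) (ha : AnalyticOnNhd ℝ χ C) (hp : TAble S M P d d (ev χ P)) :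
    ∃ C' ⊆ C, StM S Γ P d C' ∧ Tri χ C' := by
  obtain ⟨c, E, h1, -, h3, rfl⟩ := h
  obtain ⟨E₁, hT, he, hm⟩ := hp E h3.tow
  obtain ⟨c', E', g1, g2, g3, -, g5, g6⟩ := (lv_main hS Γ d).top h1 le_rfl hT h3.has
    (fun k hk => (h3.vals k hk).mono (he k hk)) (finite_singleton (ev χ P)) (by simpa using hm)
  exact ⟨_, (g5 d le_rfl).1, ⟨c', E', g1, g2, g3, rfl⟩,
    (g6 _ rfl).2 χ hd (ha.mono (g5 d le_rfl).1) rfl⟩

theorem special_init {Λ : (Fin d → ℝ) → Fin (m + 1) → ℝ} :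
    Agree (specialPt Λ P) (specialPt (fun x (i : Fin m) => Λ x i.castSucc) P) m := fun i hi => by
  simp only [specialPt, dif_pos hi, dif_pos (hi.trans m.lt_succ_self)]
  rfl

theorem special_last {Λ : (Fin d → ℝ) → Fin (m + 1) → ℝ} :
    specialPt Λ P m = ev (fun x => Λ x (Fin.last m)) P := by
  simp only [specialPt, dif_pos m.lt_succ_self]
  rfl

theorem special_inv {Λ : (Fin d → ℝ) → Fin (m + 1) → ℝ}
    (h : ∃ k, STri S M P d (specialPt Λ P) (m + 1) k) :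
    (∃ k, STri S M P d (specialPt (fun x (i : Fin m) => Λ x i.castSucc) P) m k) ∧
      TAble S M P d d (ev (fun x => Λ x (Fin.last m)) P) := by
  obtain ⟨k, h⟩ := h
  obtain ⟨⟨k₀, h1⟩, h2⟩ := h.inv
  exact ⟨⟨k₀, h1.congr special_init⟩, special_last ▸ h2⟩

theorem special_sel (hS : PfClosed S) {d' : ℕ} {A' : Set (Fin d' → ℝ)}
    {ι : (Fin d' → ℝ) → Fin m → ℝ} (hg : GCell (PfM s M) m d' A' ι) (h : StM S Γ P d C)
    (bΛ : ∃ k, STri S M P d (specialPt Λ P) m k) (hm : MapsTo Λ C (ι '' A')) :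
    ∃ σ : Fin d' → Fin m, (∀ x, (fun i => ι x (σ i)) = x) ∧
      ∃ k, WTri S M P d (specialPt (fun x i => Λ x (σ i)) P) d' k := by
  obtain ⟨k, hk⟩ := bΛ
  obtain ⟨E, hE⟩ := h.tow
  obtain ⟨σ, z, a1, a2, a3⟩ := hk.sel hS hE hg (by
    filter_upwards [special_tp Λ P, h.props.2.1] with ω h2 h3
    rw [h2]
    exact hm h3)
  refine ⟨σ, a1, k, a3.congr fun i hi => ?_⟩
  rw [a2 ⟨i, hi⟩]
  simp only [specialPt, dif_pos hi, dif_pos (σ ⟨i, hi⟩).2]

theorem special_openM (hS : PfClosed S) (hf : PfM s M m A (some f))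
    (hC : At (fun x => x ∈ C) P) (dΛ : DF S Λ) (aΛ : AnalyticOnNhd ℝ Λ C)
    (bΛ : WTri S M P d (specialPt Λ P) m k) (hm : MapsTo Λ C A) :
    ∃ χ : Fn d, DF S χ ∧ AnalyticOnNhd ℝ χ C ∧ TAble S M P d k (ev χ P) ∧
      ∀ x ∈ C, χ x = f (Λ x) := by
  obtain ⟨f', df', e⟩ := (hf.dp hS).2 f rfl
  obtain ⟨ho, -, -, ha⟩ := hf.basic
  refine ⟨fun x => f' (Λ x), df'.comp dΛ, fun x hx => ?_, ?_, fun x hx => e (hm hx)⟩
  · have h1 : AnalyticAt ℝ f' (Λ x) := (ha f rfl _ (hm hx)).congr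
      (by filter_upwards [ho.mem_nhds (hm hx)] with z hz using (e hz).symm)
    exact h1.comp (aΛ x hx)
  · have h2 : ev (fun x => f' (Λ x)) P = ev f (specialPt Λ P) := ev_eq (by
      filter_upwards [out_ev f (specialPt Λ P), special_tp Λ P, hC] with ω h1 h2 h3
      rw [h1, h2, e (hm h3)])
    rw [h2]
    refine hf.table hS bΛ ?_
    filter_upwards [special_tp Λ P, hC] with ω h2 h3
    rw [h2]
    exact hm h3

/-- decide the position of `t` relative to an optional Pfaffian function -/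
theorem special_signM (hS : PfClosed S) (ho : ∀ f ∈ o, PfM s M m A (some f))
    (h : StM S Γ P d C) (dΛ : DF S Λ) (aΛ : AnalyticOnNhd ℝ Λ C)
    (bΛ : ∃ k, WTri S M P d (specialPt Λ P) m k) (hm : MapsTo Λ C A) {t : Fn d} (dt : DF S t)
    (ht : AnalyticOnNhd ℝ t C) (bt : TAble S M P d d (ev t P)) :
    ∃ C' ⊆ C, StM S Γ P d C' ∧ ∀ f ∈ o, Tri (fun x => t x - f (Λ x)) C' := by
  cases o with
  | none => exact ⟨C, Subset.rfl, h, fun f hf => by simp at hf⟩
  | some f =>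
    obtain ⟨k, bΛ⟩ := bΛ
    obtain ⟨χ, d1, a1, b1, e1⟩ := special_openM hS (ho f rfl) h.props.2.1 dΛ aΛ bΛ hm
    obtain ⟨C', h1, h2, h3⟩ := h.refine hS (χ := fun x => t x - χ x) (dt.sub d1) (ht.sub a1)
      (by rw [ev_sub]; exact bt.sub le_rfl (b1.mono bΛ.le.2 le_rfl))
    refine ⟨C', h1, h2, fun f' hf' => ?_⟩
    obtain rfl : f = f' := by simpa using hf'
    exact special_tri_congr h3 fun x hx => by rw [e1 x (h1 hx)]

theorem StM.compat (hS : PfClosed S) {d' : ℕ} {A' : Set (Fin d' → ℝ)}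
    {ι : (Fin d' → ℝ) → Fin m → ℝ} (hg : GCell (PfM s M) m d' A' ι)
    (h : StM S Γ P d C) (dΛ : DF S Λ) (aΛ : AnalyticOnNhd ℝ Λ C)
    (bΛ : ∃ k, STri S M P d (specialPt Λ P) m k) :
    ∃ C' ⊆ C, StM S Γ P d C' ∧ (MapsTo Λ C' (ι '' A') ∨ ∀ x ∈ C', Λ x ∉ ι '' A') := by
  induction hg with
  | point => exact ⟨C, Subset.rfl, h, Or.inl fun x _ => ⟨Λ x, mem_univ _, rfl⟩⟩
  | @graph m d' A' ι f hg hf ih =>
    obtain ⟨C₁, s1, t1, c1⟩ := ih (Λ := fun x i => Λ x i.castSucc) (special_df_sel dΛ _)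
      (special_an_sel aΛ _) (special_inv bΛ).1
    have key : ∀ x a, Λ x = Fin.snoc (ι a) (f a) → (fun i : Fin m => Λ x i.castSucc) = ι a :=
      fun x a e => by funext i; rw [e, Fin.snoc_castSucc]
    rcases c1 with c1 | c1
    · obtain ⟨σ, hσ, hW⟩ := special_sel hS hg t1 (special_inv bΛ).1 c1
      have hm : MapsTo (fun x i => Λ x (σ i).castSucc) C₁ A' := fun x hx => by
        obtain ⟨a, ha, e⟩ := c1 hx
        have : (fun i => Λ x (σ i).castSucc) = a := by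
          rw [← hσ a]; funext i; exact (congrFun e (σ i)).symm
        show (fun i => Λ x (σ i).castSucc) ∈ A'
        rw [this]; exact ha
      obtain ⟨C₂, s2, t2, c2⟩ := special_signM hS (o := some f) (fun f' hf' => by
          obtain rfl : f = f' := by simpa using hf'
          exact hf) t1 (special_df_sel dΛ fun i => (σ i).castSucc)
        ((special_an_sel aΛ fun i => (σ i).castSucc).mono s1) hW hm
        (t := fun x => Λ x (Fin.last m)) ((DF.apply _).comp dΛ)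
        ((special_an_coord aΛ _).mono s1) (special_inv bΛ).2
      have key2 : ∀ x a, Λ x = Fin.snoc (ι a) (f a) →
          Λ x (Fin.last m) - f (fun i => Λ x (σ i).castSucc) = 0 := fun x a e => by
        have : (fun i => Λ x (σ i).castSucc) = a := by
          rw [← hσ a]; funext i; exact congrFun (key x a e) (σ i)
        rw [this, e, Fin.snoc_last, sub_self]
      refine ⟨C₂, s2.trans s1, t2, ?_⟩
      rcases c2 f rfl with c | c | c
      · exact Or.inr fun x hx ⟨a, _, e⟩ => (c x hx).ne' (key2 x a e.symm)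
      · refine Or.inl fun x hx => ?_
        obtain ⟨a, ha, e⟩ := c1 (s2 hx)
        have e2 : (fun i => Λ x (σ i).castSucc) = a := by
          rw [← hσ a]; funext i; exact (congrFun e (σ i)).symm
        refine ⟨a, ha, ?_⟩
        have e3 : f a = Λ x (Fin.last m) := by
          have := c x hx
          simp only [e2] at this
          linarith
        show Fin.snoc (ι a) (f a) = Λ x
        rw [e, e3]
        exact Fin.snoc_init_self (Λ x)
      · exact Or.inr fun x hx ⟨a, _, e⟩ => (c x hx).ne (key2 x a e.symm)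
    · exact ⟨C₁, s1, t1, Or.inr fun x hx ⟨a, ha, e⟩ => c1 x hx ⟨a, ha, (key x a e.symm).symm⟩⟩
  | @band m d' A' ι g h' hg hg1 hh1 hlt ih =>
    obtain ⟨C₁, s1, t1, c1⟩ := ih (Λ := fun x i => Λ x i.castSucc) (special_df_sel dΛ _)
      (special_an_sel aΛ _) (special_inv bΛ).1
    have key : ∀ x (z : Fin (d' + 1) → ℝ), Λ x = Fin.snoc (ι (Fin.init z)) (z (Fin.last d')) →
        (fun i : Fin m => Λ x i.castSucc) = ι (Fin.init z) :=
      fun x a e => by funext i; rw [e, Fin.snoc_castSucc]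
    rcases c1 with c1 | c1
    · obtain ⟨σ, hσ, hW⟩ := special_sel hS hg t1 (special_inv bΛ).1 c1
      have hm : MapsTo (fun x i => Λ x (σ i).castSucc) C₁ A' := fun x hx => by
        obtain ⟨a, ha, e⟩ := c1 hx
        have : (fun i => Λ x (σ i).castSucc) = a := by
          rw [← hσ a]; funext i; exact (congrFun e (σ i)).symm
        show (fun i => Λ x (σ i).castSucc) ∈ A'
        rw [this]; exact ha
      obtain ⟨C₂, s2, t2, c2⟩ := special_signM hS hg1 t1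
        (special_df_sel dΛ fun i => (σ i).castSucc)
        ((special_an_sel aΛ fun i => (σ i).castSucc).mono s1) hW hm
        (t := fun x => Λ x (Fin.last m)) ((DF.apply _).comp dΛ)
        ((special_an_coord aΛ _).mono s1) (special_inv bΛ).2
      obtain ⟨C₃, s3, t3, c3⟩ := special_signM hS hh1 t2
        (special_df_sel dΛ fun i => (σ i).castSucc)
        ((special_an_sel aΛ fun i => (σ i).castSucc).mono (s2.trans s1)) hW
        (hm.mono_left s2) (t := fun x => Λ x (Fin.last m)) ((DF.apply _).comp dΛ)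
        ((special_an_coord aΛ _).mono (s2.trans s1)) (special_inv bΛ).2
      have iff : ∀ x ∈ C₁, Λ x ∈ (fun z : Fin (d' + 1) → ℝ =>
          (Fin.snoc (ι (Fin.init z)) (z (Fin.last d')) : Fin (m + 1) → ℝ)) '' eband A' g h' ↔
          (∀ g' ∈ g, 0 < Λ x (Fin.last m) - g' (fun i => Λ x (σ i).castSucc)) ∧
          ∀ g' ∈ h', Λ x (Fin.last m) - g' (fun i => Λ x (σ i).castSucc) < 0 := fun x hx => by
        constructor
        · rintro ⟨z, ⟨-, z1, z2⟩, e⟩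
          have e2 : (fun i => Λ x (σ i).castSucc) = Fin.init z := by
            rw [← hσ (Fin.init z)]; funext i; exact congrFun (key x z e.symm) (σ i)
          have e3 : Λ x (Fin.last m) = z (Fin.last d') := by
            rw [← e]; simp
          rw [e2, e3]
          exact ⟨fun g' hg' => sub_pos.2 (z1 g' hg'), fun g' hg' => sub_neg.2 (z2 g' hg')⟩
        · rintro ⟨z1, z2⟩
          obtain ⟨a, ha, e⟩ := c1 hx
          have e2 : (fun i => Λ x (σ i).castSucc) = a := by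
            rw [← hσ a]; funext i; exact (congrFun e (σ i)).symm
          rw [e2] at z1 z2
          refine ⟨Fin.snoc a (Λ x (Fin.last m)), ⟨by simpa using ha, fun g' hg' => ?_,
            fun g' hg' => ?_⟩, ?_⟩
          · simpa using z1 g' hg'
          · simpa using z2 g' hg'
          · simp only [Fin.init_snoc, Fin.snoc_last]
            rw [e]
            exact Fin.snoc_init_self (Λ x)
      refine ⟨C₃, s3.trans (s2.trans s1), t3, ?_⟩
      by_cases hx : ∀ x ∈ C₃, Λ x ∉ (fun z : Fin (d' + 1) → ℝ =>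
          (Fin.snoc (ι (Fin.init z)) (z (Fin.last d')) : Fin (m + 1) → ℝ)) '' eband A' g h'
      · exact Or.inr hx
      · push Not at hx
        obtain ⟨x₀, hx₀, h0⟩ := hx
        obtain ⟨p1, p2⟩ := (iff x₀ (s2 (s3 hx₀))).1 h0
        refine Or.inl fun x hx => (iff x (s2 (s3 hx))).2 ⟨fun g' hg' => ?_, fun g' hg' => ?_⟩
        · rcases c2 g' hg' with c | c | c
          · exact c x (s3 hx)
          · exact absurd (c x₀ (s3 hx₀)) (p1 g' hg').ne'
          · exact absurd (c x₀ (s3 hx₀)) (p1 g' hg').not_gt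
        · rcases c3 g' hg' with c | c | c
          · exact absurd (c x₀ hx₀) (p2 g' hg').not_gt
          · exact absurd (c x₀ hx₀) (p2 g' hg').ne
          · exact c x hx
    · exact ⟨C₁, s1, t1, Or.inr fun x hx ⟨z, hz, e⟩ =>
        c1 x hx ⟨Fin.init z, hz.1, (key x z e.symm).symm⟩⟩

theorem StM.compat_fun (hS : PfClosed S) (hf : IsPf (PfM s M) m A f)
    (h : StM S Γ P d C) (dΛ : DF S Λ) (aΛ : AnalyticOnNhd ℝ Λ C)
    (bΛ : ∃ k, STri S M P d (specialPt Λ P) m k) (hm : MapsTo Λ C A) :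
    ∃ χ : Fn d, DF S χ ∧ AnalyticOnNhd ℝ χ C ∧ TAble S M P d d (ev χ P) ∧
      ∀ x ∈ C, χ x = f (Λ x) := by
  obtain ⟨d', A', ι, hg, rfl, hf⟩ := hf
  obtain ⟨σ, hσ, k, hW⟩ := special_sel hS hg h bΛ hm
  have key : ∀ x ∈ C, (fun i => Λ x (σ i)) ∈ A' ∧ ι (fun i => Λ x (σ i)) = Λ x := fun x hx => by
    obtain ⟨a, ha, e⟩ := hm hx
    rw [← e, hσ a]
    exact ⟨ha, rfl⟩
  obtain ⟨χ, h1, h2, h3, h4⟩ := special_openM hS hf h.props.2.1 (special_df_sel dΛ σ)
    (special_an_sel aΛ σ) hW fun x hx => (key x hx).1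
  exact ⟨χ, h1, h2, h3.mono hW.le.2 le_rfl, fun x hx => by
    rw [h4 x hx, Function.comp_apply, (key x hx).2]⟩

theorem special_iterM {X : Type} {T : Set X} (hT : T.Finite) (Φ : X → Set (Fin d → ℝ) → Prop)
    (mono : ∀ t u v, Φ t u → v ⊆ u → Φ t v) (h : StM S Γ P d C)
    (step : ∀ t ∈ T, ∀ C' ⊆ C, StM S Γ P d C' → ∃ C'' ⊆ C', StM S Γ P d C'' ∧ Φ t C'') :
    ∃ C' ⊆ C, StM S Γ P d C' ∧ ∀ t ∈ T, Φ t C' := by
  induction T, hT using Set.Finite.induction_on with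
  | empty => exact ⟨C, Subset.rfl, h, fun t ht => ht.elim⟩
  | @insert a T _ _ ih =>
    obtain ⟨C₁, s1, t1, c1⟩ := ih fun t ht => step t (mem_insert_of_mem _ ht)
    obtain ⟨C₂, s2, t2, c2⟩ := step a (mem_insert _ _) C₁ s1 t1
    refine ⟨C₂, s2.trans s1, t2, fun t ht => ?_⟩
    rcases ht with rfl | ht
    · exact c2
    · exact mono t _ _ (c1 t ht) s2

/-- the first `j` unbounded coordinates -/
noncomputable def lvPi (d j : ℕ) (x : Fin d → ℝ) : Fin j → ℝ :=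
  fun i => rhoi (if h : (i : ℕ) < d then x ⟨i, h⟩ else 0)

theorem lvPi_self (x : Fin d → ℝ) : lvPi d d x = fun i => rhoi (x i) := by
  funext i
  simp only [lvPi, dif_pos i.2]

theorem lvPi_df {j : ℕ} (hj : j ≤ d) : DF S (lvPi d j) := DF.pi fun i => by
  simp only [lvPi, dif_pos (i.2.trans_le hj)]
  exact (df_rhoi S).comp (DF.apply _)

theorem lvPi_an {j : ℕ} (hj : j ≤ d) (hb : ∀ x ∈ C, ∀ i, |x i| < 1) :
    AnalyticOnNhd ℝ (lvPi d j) C := fun x hx => AnalyticAt.pi fun i => by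
  simp only [lvPi, dif_pos (i.2.trans_le hj)]
  exact (analyticAt_rhoi (hb x hx _)).comp (f := fun x : Fin d → ℝ => x ⟨i, i.2.trans_le hj⟩)
    (VS1_an_coord _ x)

theorem lvPi_new {j : ℕ} (hj : j < d) (hP : Gen S P d) (hb : |P j| < 1) :
    TAble S M P d (j + 1) (ev (fun x => lvPi d (j + 1) x (Fin.last j)) P) ∧
      ev (fun x => lvPi d (j + 1) x (Fin.last j)) P ∉ dcl S P j := by
  have e : ev (fun x => lvPi d (j + 1) x (Fin.last j)) P = cl fun ω => rhoi (out (P j) ω) := by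
    simp only [lvPi, Fin.val_last, dif_pos hj]
    rfl
  rw [e]
  refine ⟨(TAble.coord j.lt_succ_self hj).rhoi hj hb, fun h => hP j hj ?_⟩
  obtain ⟨G, hG, e2⟩ := h
  have e3 : ev (fun x => rho (G x)) P = P j := ev_eq (by
    filter_upwards [out_ev G P, out_cl ((sm_out (P j)).comp rhoi), pre2_abs hb] with ω h1 h2 h3
    rw [← h1, ← e2, h2, rho_rhoi h3])
  rw [← e3]
  exact ev_mem_dcl ((df_rho S).comp hG)

theorem lvPi_tri {j : ℕ} (hj : j ≤ d) (hP : Gen S P d) (hb : ∀ i < d, |P i| < 1) :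
    STri S M P d (specialPt (lvPi d j) P) j j ∧ WTri S M P d (specialPt (lvPi d j) P) j j := by
  induction j with
  | zero => exact ⟨.zero, .zero⟩
  | succ j ih =>
    obtain ⟨h1, h2⟩ := ih (j.le_succ.trans hj)
    obtain ⟨h3, h4⟩ := lvPi_new (M := M) hj hP (hb j hj)
    rw [← special_last] at h3 h4
    have e : Agree (specialPt (lvPi d j) P) (specialPt (lvPi d (j + 1)) P) j :=
      (special_init (Λ := lvPi d (j + 1))).symm
    exact ⟨.new (h1.congr e) hj h3 h4, .succ (h2.congr e) j.le_succ le_rfl hj h3⟩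

/-- the parametrization of a cell at a generic point is strongly triangular -/
theorem special_param (hS : PfClosed S) (h : StM S Γ P d C) {j : ℕ} {A₀ : Set (Fin j → ℝ)}
    {ι : (Fin j → ℝ) → Fin m → ℝ} (hg : GCell (PfM s M) m j A₀ ι) (hj : j ≤ d)
    (hm : MapsTo (lvPi d j) C A₀) : ∃ Λ : (Fin d → ℝ) → Fin m → ℝ, DF S Λ ∧
      AnalyticOnNhd ℝ Λ C ∧ STri S M P d (specialPt Λ P) m j ∧ ∀ x ∈ C, Λ x = ι (lvPi d j x) := by
  obtain ⟨E, hE⟩ := h.tow
  have step : ∀ {m : ℕ} {Λ : (Fin d → ℝ) → Fin m → ℝ} {χ : Fn d}, DF S Λ → AnalyticOnNhd ℝ Λ C →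
      DF S χ → AnalyticOnNhd ℝ χ C →
      DF S (fun x => (Fin.snoc (Λ x) (χ x) : Fin (m + 1) → ℝ)) ∧
      AnalyticOnNhd ℝ (fun x => (Fin.snoc (Λ x) (χ x) : Fin (m + 1) → ℝ)) C ∧
      Agree (specialPt Λ P) (specialPt (fun x => (Fin.snoc (Λ x) (χ x) : Fin (m + 1) → ℝ)) P) m ∧
      specialPt (fun x => (Fin.snoc (Λ x) (χ x) : Fin (m + 1) → ℝ)) P m = ev χ P :=
    fun {m Λ χ} a1 a2 a3 a4 => ⟨DF.snoc a1 a3, fun x hx => pre1_an_snoc (a2 x hx) (a4 x hx), by
      have := (special_init (P := P)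
        (Λ := fun x => (Fin.snoc (Λ x) (χ x) : Fin (m + 1) → ℝ))).symm
      simpa only [Fin.snoc_castSucc] using this, by simp only [special_last, Fin.snoc_last]⟩
  induction hg with
  | point => exact ⟨fun _ i => i.elim0, DF.const _, analyticOnNhd_const, .zero,
      fun _ _ => Subsingleton.elim _ _⟩
  | @graph m j A₀ ι f _ hf ih =>
    obtain ⟨Λ, a1, a2, a3, a4⟩ := ih hj hm
    obtain ⟨χ, b1, b2, b3, b4⟩ := special_openM hS hf h.props.2.1 (lvPi_df hj)
      (lvPi_an hj h.props.2.2.2.2) (lvPi_tri hj hE.gen hE.bd).2 hm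
    obtain ⟨c1, c2, c3, c4⟩ := step a1 a2 b1 b2
    exact ⟨_, c1, c2, .same (a3.congr c3) (c4 ▸ b3), fun x hx => by rw [a4 x hx, b4 x hx]⟩
  | @band m j A₀ ι g g' _ _ _ _ ih =>
    obtain ⟨Λ, a1, a2, a3, a4⟩ := ih (j.le_succ.trans hj) fun x hx => (hm hx).1
    obtain ⟨b3, b4⟩ := lvPi_new (M := M) hj hE.gen (hE.bd j hj)
    obtain ⟨c1, c2, c3, c4⟩ := step (χ := fun x => lvPi d (j + 1) x (Fin.last j)) a1 a2
      ((DF.apply _).comp (lvPi_df hj)) (special_an_coord (lvPi_an hj h.props.2.2.2.2) _)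
    exact ⟨_, c1, c2, .new (a3.congr c3) hj (c4 ▸ b3) (c4 ▸ b4), fun x hx => by
      rw [a4 x hx]; rfl⟩

theorem specialM (hS : PfClosed S) {A₀ : Set (Fin d → ℝ)} {ι : (Fin d → ℝ) → Fin m → ℝ}
    (hg : GCell (VM M) m d A₀ ι) (hy : Gen S y d) (hA : At (fun x => x ∈ A₀) y)
    {𝒯 : Set (Set (Fin m → ℝ) × Fn m)} (hT : 𝒯.Finite) (hp : ∀ p ∈ 𝒯, IsPf (PfM s M) m p.1 p.2) :
    ∃ A₁ ⊆ A₀, VM M d A₁ none ∧ At (fun x => x ∈ A₁) y ∧ Cmp 𝒯 (ι '' A₁) := by
  obtain ⟨Γ, hΓ⟩ := exists_sysM M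
  set P : ℕ → U := fun i => cl fun ω => rho (out (y i) ω) with hPdef
  have hout : ∀ i, ∀ᶠ ω in 𝔲, out (P i) ω = rho (out (y i) ω) := fun i =>
    out_cl ((sm_out (y i)).comp rho)
  have htp : ∀ᶠ ω in 𝔲, tp P d ω = fun i => rho (tp y d ω i) := by
    filter_upwards [eventually_all.2 fun i : Fin d => hout i] with ω h
    funext i
    exact h i
  have hb : ∀ i, |P i| < 1 := fun i => lt_iff.2 (by
    filter_upwards [out_abs (P i), hout i, out_one] with ω h1 h2 h3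
    rw [h1, h2, h3]
    exact abs_rho_lt _)
  have hP : Gen S P d := (hy.of_span fun i hi => by
    have : ev (fun x : Fin d → ℝ => rhoi (x ⟨i, hi⟩)) P = y i := ev_eq (by
      filter_upwards [htp] with ω h
      rw [h, rhoi_rho]
      rfl)
    rw [← this]
    exact ev_mem_dcl ((df_rhoi S).comp (DF.apply _))).1
  obtain ⟨C₀, t0⟩ := exists_stM hS Γ hP fun i _ => hb i
  obtain ⟨C₁, s1, t1, c1⟩ := StM.compat hS (hg.vm.toPfM s).gcell t0 (lvPi_df le_rfl)
    (lvPi_an le_rfl t0.props.2.2.2.2) ⟨_, (lvPi_tri le_rfl hP fun i _ => hb i).1⟩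
  rw [image_id] at c1
  have hm : MapsTo (lvPi d d) C₁ A₀ := by
    refine c1.resolve_right fun c => ?_
    obtain ⟨ω, h1, h2, h3⟩ := (htp.and (t1.props.2.1.and hA)).exists
    refine c _ h2 ?_
    rw [h1]
    simpa only [lvPi_self, rhoi_rho] using h3
  obtain ⟨Λ, dΛ, aΛ, bΛ, eΛ⟩ := special_param hS t1 (hg.mono fun _ _ _ h => h.toPfM s) le_rfl hm
  replace bΛ : ∃ k, STri S M P d (specialPt Λ P) m k := ⟨_, bΛ⟩
  obtain ⟨C₂, s2, t2, c2⟩ := special_iterM hT
    (fun p C' => MapsTo Λ C' p.1 ∨ ∀ x ∈ C', (Λ x) ∉ p.1)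
    (fun p u v h hs => h.imp (fun h => h.mono_left hs) fun h x hx => h x (hs hx)) t1
    fun p hp' C' s' t' => by
      obtain ⟨d', A', ι', hg', e, -⟩ := hp p hp'
      rw [e]
      exact StM.compat hS hg' t' dΛ (aΛ.mono s') bΛ
  obtain ⟨C₃, s3, t3, c3⟩ := special_iterM (hT.prod hT)
    (fun q C' => MapsTo Λ C₂ q.1.1 → MapsTo Λ C₂ q.2.1 →
      Tri (fun x => q.1.2 (Λ x) - q.2.2 (Λ x)) C')
    (fun p u v h hs h1 h2 => special_tri_mono (h h1 h2) hs) t2
    fun q hq C' s' t' => by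
      by_cases h1 : MapsTo Λ C₂ q.1.1
      · by_cases h2 : MapsTo Λ C₂ q.2.1
        · obtain ⟨φ, d1, a1, b1, e1⟩ := StM.compat_fun hS (hp _ hq.1) t' dΛ
            (aΛ.mono (s'.trans s2)) bΛ (h1.mono_left s')
          obtain ⟨ψ, d2, a2, b2, e2⟩ := StM.compat_fun hS (hp _ hq.2) t' dΛ
            (aΛ.mono (s'.trans s2)) bΛ (h2.mono_left s')
          obtain ⟨C'', s'', t'', c''⟩ := t'.refine hS (χ := fun x => φ x - ψ x) (d1.sub d2)
            (a1.sub a2) (by rw [ev_sub]; exact b1.sub le_rfl b2)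
          exact ⟨C'', s'', t'', fun _ _ => special_tri_congr c'' fun x hx => by
            rw [e1 x (s'' hx), e2 x (s'' hx)]⟩
        · exact ⟨C', Subset.rfl, t', fun _ h => absurd h h2⟩
      · exact ⟨C', Subset.rfl, t', fun h => absurd h h1⟩
  have hvs := hΓ d C₃ t3.props.1
  have e0 : ∀ x ∈ {x : Fin d → ℝ | (fun i => rho (x i)) ∈ C₃},
      ι x = Λ fun j => rho (x j) := fun x hx => by
    rw [eΛ _ (s2 (s3 hx))]
    simp only [lvPi_self, rhoi_rho]
  have key : ∀ p ∈ 𝒯, ι '' {x : Fin d → ℝ | (fun i => rho (x i)) ∈ C₃} ⊆ p.1 →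
      MapsTo Λ C₂ p.1 := fun p hp' hs => by
    refine (c2 p hp').resolve_right fun c => ?_
    obtain ⟨x, hx⟩ := hvs.basic.2.1
    exact c _ (s3 hx) (e0 x hx ▸ hs ⟨x, hx, rfl⟩)
  refine ⟨_, fun x hx => ?_, hvs, ?_, fun p hp' => ?_, fun p hp1 p' hp2 h1 h2 => ?_⟩
  · simpa only [lvPi_self, rhoi_rho] using hm (s2 (s3 hx))
  · filter_upwards [htp, t3.props.2.1] with ω h1 h2
    rw [h1] at h2
    exact h2
  · refine (c2 p hp').imp (fun c => ?_) fun c => disjoint_left.2 ?_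
    · rintro _ ⟨x, hx, rfl⟩
      rw [e0 x hx]
      exact c (s3 hx)
    · rintro _ ⟨x, hx, rfl⟩
      rw [e0 x hx]
      exact c _ (s3 hx)
  · have := c3 (p, p') ⟨hp1, hp2⟩ (key p hp1 h1) (key p' hp2 h2)
    rcases this with c | c | c
    · refine Or.inl ?_
      rintro _ ⟨x, hx, rfl⟩
      rw [e0 x hx]
      exact c _ hx
    · refine Or.inr (Or.inl ?_)
      rintro _ ⟨x, hx, rfl⟩
      rw [e0 x hx]
      exact c _ hx
    · refine Or.inr (Or.inr ?_)
      rintro _ ⟨x, hx, rfl⟩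
      rw [e0 x hx]
      exact c _ hx

end Pool.Agent.Lib.MP_1a1eb7_lc
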