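import Pool.Agent.Lib.MP_1a1eb7_lc.Lv.GAlg

/-! Towers of guarded differential algebras for the functions of level `M`. -/

namespace Pool.Agent.Lib.MP_1a1eb7_lc

open Set Filter Topology Pool.Agent.Shared.OMin
open Ordinal (omega0)

variable {S : OStr} {s : Bool} {M m d n j : ℕ} {A : Set (Fin m → ℝ)} {f g : Fn m}
  {o : Option (Fn m)} {P y : ℕ → U} {R R' : ∀ j, Subalgebra ℝ (Fn j)}
  {B : Set (Fin (m + 1) → ℝ)}

theorem prj_self (A : Set (Fin m → ℝ)) : prj A m = A := by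
  ext x
  constructor
  · rintro ⟨z, hz, e⟩
    rwa [show x = z from funext fun i => e i i rfl]
  · exact fun hx => ⟨x, hx, fun i i' e => by rw [Fin.ext e]⟩

theorem prj_up (hm : ∀ x ∈ A, Fin.snoc x (f x) ∈ B) (hj : j ≤ m) : prj A j ⊆ prj B j := by
  rintro x ⟨z, hz, e⟩
  refine ⟨_, hm z hz, fun i i' h => ?_⟩
  have h1 : (i : ℕ) < m := i.2.trans_le hj
  rw [show i' = Fin.castSucc ⟨i, h1⟩ from Fin.ext h.symm, Fin.snoc_castSucc]
  exact e i _ rfl

theorem prj_down (hs : ∀ z ∈ B, Fin.init z ∈ A) : prj B j ⊆ prj A j := by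
  rintro x ⟨z, hz, e⟩
  exact ⟨_, hs z hz, fun i i' h => e i i'.castSucc h⟩

theorem prj_at (h : At (fun x => x ∈ A) y) (j : ℕ) : At (fun x => x ∈ prj A j) y :=
  h.mono fun ω hω => ⟨_, hω, fun i i' e => by simp only [tp, e]⟩

theorem lowV_mono {E E' : Fld} (h : lowV R j y E) (hE : E ≤ E') : lowV R j y E' :=
  fun l hl φ hφ => hE (h l hl φ hφ)

theorem talg_base (S : OStr) (M : ℕ) (A : Set (Fin m → ℝ)) : TAlg S M A fun j =>
    Algebra.adjoin ℝ (range fun (i : Fin j) (x : Fin j → ℝ) => x i) :=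
  fun _ _ => galg_base S _ _ (thM_pos _ _)

theorem TAlg.sup (h : TAlg S M A R) (h' : TAlg S M A R') : TAlg S M A fun j => R j ⊔ R' j :=
  fun j hj => ((h j hj).mono Subset.rfl fun _ _ a l hl φ hφ =>
      a l hl φ ((le_sup_left : R l ≤ R l ⊔ R' l) hφ)).sup
    ((h' j hj).mono Subset.rfl fun _ _ a l hl φ hφ =>
      a l hl φ ((le_sup_right : R' l ≤ R l ⊔ R' l) hφ))
    (fun _ _ _ a e => lowV_mono a e) fun _ a _ a' => thM_add a a'

theorem TAlg.top (h : TAlg S M A R) : GAlg S A (R m) (lowV R m) (thM M m) := by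
  have := h m le_rfl
  rwa [prj_self] at this

theorem lowV_update {k : ℕ} (hj : j ≤ k) (T : Subalgebra ℝ (Fn k)) {E : Fld}
    (h : lowV (Function.update R k T) j y E) : lowV R j y E := fun l hl φ hφ =>
  h l hl φ (by rwa [Function.update_of_ne (by omega)])

theorem TAlg.update (h : ∀ j < m, GAlg S (prj A j) (R j) (lowV R j) (thM M j))
    {T : Subalgebra ℝ (Fn m)} (hT : GAlg S A T (lowV R m) (thM M m)) :
    TAlg S M A (Function.update R m T) := fun j hj => by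
  rcases hj.lt_or_eq with h1 | rfl
  · rw [Function.update_of_ne h1.ne]
    exact (h j h1).mono Subset.rfl fun _ _ a => lowV_update hj T a
  · rw [Function.update_self, prj_self]
    exact hT.mono Subset.rfl fun _ _ a => lowV_update le_rfl T a

theorem TAlg.down (h : TAlg S M B R) (hm : ∀ x ∈ A, Fin.snoc x (f x) ∈ B) : TAlg S M A R :=
  fun j hj => (h j (hj.trans m.le_succ)).mono (prj_up hm hj) fun _ _ a => a

theorem talg_guard (h : ∀ l, R' l ≤ R l) (y : ℕ → U) (E E' : Fld) (w : U) (h1 : lowV R m y E)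
    (h2 : E ≤ E') (h3 : ∀ φ ∈ R m, ev φ y ∈ E') : lowV R' (m + 1) (upd y m w) E' := by
  intro l hl φ hφ
  have hl' := Nat.lt_succ_iff.1 hl
  rw [((agree_upd w).mono hl').ev_eq]
  rcases hl'.lt_or_eq with h4 | rfl
  exacts [h2 (h1 l h4 φ (h l hφ)), h3 φ (h l hφ)]

theorem talg_fin {ι : Type} [Fintype ι] {φ : ι → Fn m}
    (h : ∀ i, ∃ R, TAlg S M A R ∧ ∃ f' ∈ R m, EqOn f' (φ i) A) :
    ∃ R, TAlg S M A R ∧ ∃ φ' : ι → Fn m, ∀ i, φ' i ∈ R m ∧ EqOn (φ' i) (φ i) A := by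
  classical
  have key : ∀ t : Finset ι, ∃ R, TAlg S M A R ∧ ∀ i ∈ t, ∃ f' ∈ R m, EqOn f' (φ i) A :=
    fun t => by
    induction t using Finset.induction_on with
    | empty => exact ⟨_, talg_base S M A, by simp⟩
    | insert j t _ ih =>
      obtain ⟨R, a1, a2⟩ := ih
      obtain ⟨R', b1, f', b2, b3⟩ := h j
      refine ⟨_, a1.sup b1, fun i hi => ?_⟩
      rcases Finset.mem_insert.1 hi with rfl | hi
      · exact ⟨f', (le_sup_right : R' m ≤ R m ⊔ R' m) b2, b3⟩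
      · exact (a2 i hi).imp fun _ c => ⟨(le_sup_left : R m ≤ R m ⊔ R' m) c.1, c.2⟩
  obtain ⟨R, a1, a2⟩ := key Finset.univ
  choose φ' h1 h2 using fun i => a2 i (Finset.mem_univ i)
  exact ⟨R, a1, φ', fun i => ⟨h1 i, h2 i⟩⟩

theorem talg_main (hS : PfClosed S) (h : PfM s M m A o) :
    ∀ f ∈ o, ∃ R, TAlg S M A R ∧ ∃ f' ∈ R m, EqOn f' f A := by
  have h0 := h
  induction h with
  | point => simp
  | band => simp
  | const c _ _ =>
    rintro _ ⟨rfl⟩
    exact ⟨_, talg_base S M _, _, algebraMap_mem _ c, fun _ _ => rfl⟩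
  | coord i _ _ =>
    rintro _ ⟨rfl⟩
    exact ⟨_, talg_base S M _, _, Algebra.subset_adjoin ⟨i, rfl⟩, fun _ _ => rfl⟩
  | @add m _ _ _ h1 h2 ih1 ih2 =>
    rintro _ ⟨rfl⟩
    obtain ⟨R, a1, f', a2, a3⟩ := ih1 h1 _ rfl
    obtain ⟨R', b1, g', b2, b3⟩ := ih2 h2 _ rfl
    exact ⟨_, a1.sup b1, f' + g', add_mem ((le_sup_left : R m ≤ R m ⊔ R' m) a2)
      ((le_sup_right : R' m ≤ R m ⊔ R' m) b2), fun x hx => by rw [Pi.add_apply, a3 hx, b3 hx]⟩
  | @mul m _ _ _ h1 h2 ih1 ih2 =>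
    rintro _ ⟨rfl⟩
    obtain ⟨R, a1, f', a2, a3⟩ := ih1 h1 _ rfl
    obtain ⟨R', b1, g', b2, b3⟩ := ih2 h2 _ rfl
    exact ⟨_, a1.sup b1, f' * g', mul_mem ((le_sup_left : R m ≤ R m ⊔ R' m) a2)
      ((le_sup_right : R' m ≤ R m ⊔ R' m) b2), fun x hx => by rw [Pi.mul_apply, a3 hx, b3 hx]⟩
  | @alg m A g k c h1 h2 h3 h4 ih =>
    rintro _ ⟨rfl⟩
    obtain ⟨hA, hc, ⟨x₀, hx₀⟩, -⟩ := h0.basic
    obtain ⟨dA, hg⟩ := h0.dp hS
    obtain ⟨g', g1, g2⟩ := hg _ rfl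
    obtain ⟨R, a1, c', a2⟩ := talg_fin fun i => ih i (h1 i) _ rfl
    let e : ℕ → Fn m := fun j => if hj : j < k + 1 then c' ⟨j, hj⟩ else 0
    obtain ⟨R', b1, b2⟩ := a1.top.alg hA hc dA (k := k) (c := fun i => e (k - i))
      (fun i => by
        simp only [e]
        split_ifs
        exacts [(a2 _).1, zero_mem _]) g1 (h2.congr hA g2.symm) (fun x hx => by
        rw [← h3 x hx, ← Finset.sum_flip, Finset.sum_range]
        refine Finset.sum_congr rfl fun i _ => ?_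
        simp only [e, Nat.sub_sub_self (Nat.lt_succ_iff.1 i.2), dif_pos i.2]
        rw [(a2 i).2 hx, g2 hx]) ⟨k, le_rfl, by
        simp only [e, Nat.sub_self, dif_pos k.succ_pos]
        split_ifs at h4
        · exact ⟨x₀, hx₀, ((a2 _).2 hx₀).trans_ne (h4 x₀ hx₀)⟩
        · exact h4.imp fun x hx => ⟨hx.1, ((a2 _).2 hx.1).trans_ne hx.2⟩⟩
    exact ⟨_, TAlg.update (fun j hj => a1 j hj.le) b1, g', by rwa [Function.update_self], g2⟩
  | @comp m A B f F h1 h2 h3 ih1 ih2 =>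
    rintro _ ⟨rfl⟩
    obtain ⟨R, a1, f', a2, a3⟩ := ih1 h1 _ rfl
    obtain ⟨RB, b1, F', b2, b3⟩ := ih2 h2 _ rfl
    have a4 := a1.sup (b1.down h3)
    obtain ⟨R', c1, c2⟩ := a4.top.comp b1.top ((le_sup_left : R m ≤ R m ⊔ RB m) a2)
      (fun x hx => a3 hx ▸ h3 x hx) (talg_guard fun l => le_sup_right)
      fun _ a _ a' => thM_add a (a'.trans_le (thM_anti m.le_succ))
    exact ⟨_, TAlg.update (fun j hj => a4 j hj.le) c1, _,
      by rw [Function.update_self]; exact c2 F' b2,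
      fun x hx => by simp only [a3 hx, b3 (h3 x hx)]⟩
  | @ode m A B f F hM h1 h2 h3 h4 h5 h6 _ _ ih =>
    rintro _ ⟨rfl⟩
    have hA := h1.basic.1
    obtain ⟨f', f1, f2⟩ := (h0.dp hS).2 _ rfl
    obtain ⟨RB, a1, F', a2⟩ := talg_fin fun i => ih i (h4 i) _ rfl
    have a4 := a1.down h5
    obtain ⟨R', b1, b2⟩ := a4.top.ode (F := fun i => if hi : i < m then F' ⟨i, hi⟩ else 0)
      (talg_guard fun l => le_rfl)
      (fun _ a _ a' => thM_add a (thM_node (by exact_mod_cast hM) a'))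
      h2.basic.1 (h2.dp hS).1 a1.top f1 (h3.congr hA f2.symm) (fun x hx => f2 hx ▸ h5 x hx)
      (fun i hi => by simpa only [dif_pos hi] using (a2 _).1) fun x hx i hi => by
        have e : uv m i = Pi.single ⟨i, hi⟩ 1 := funext fun j => by
          simp [uv, Pi.single_apply, Fin.ext_iff]
        rw [dif_pos hi, pre2_pdv_congr hA f2 i hx, f2 hx, (a2 _).2 (h5 x hx), pdv, e, h6 x hx]
    exact ⟨_, TAlg.update (fun j hj => a4 j hj.le) b1, f', by rwa [Function.update_self], f2⟩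
  | @lift m A B f h1 _ h3 ih _ =>
    rintro _ ⟨rfl⟩
    obtain ⟨R, a1, f', a2, a3⟩ := ih h1 _ rfl
    refine ⟨_, TAlg.update (R := R) (fun j hj => (a1 j (Nat.lt_succ_iff.1 hj)).mono (prj_down h3)
      fun _ _ a => a) (a1.top.lift h3 (fun _ _ a => a m m.lt_succ_self) (thM_pos _ _)),
      initH m f', ?_, fun z hz => a3 (h3 z hz)⟩
    rw [Function.update_self]
    exact ⟨f', a2, rfl⟩
  | congr h1 h2 ih =>
    rintro _ ⟨rfl⟩
    obtain ⟨R, a1, f', a2, a3⟩ := ih h1 _ rfl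
    exact ⟨R, a1, f', a2, a3.trans h2.symm⟩

end Pool.Agent.Lib.MP_1a1eb7_lc
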