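import Pool.Agent.Lib.MP_1a1eb7_lc.Lv.Defs
import Pool.Agent.Lib.MP_1a1eb7_lc.VSB

/-! The very strict class of level `M`: basic rules, derivatives, triangular substitutions. -/

namespace Pool.Agent.Lib.MP_1a1eb7_lc

open Set Filter Topology Pool.Agent.Shared.OMin

variable {S : OStr} {s : Bool} {M m d n : ℕ} {A : Set (Fin m → ℝ)} {f g : Fn m}
  {o : Option (Fn m)} {P y : ℕ → U}

theorem VM.cell (h : VM M m A o) : VM M m A none := by
  induction h with
  | point => exact .point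
  | band h1 h2 h3 h4 _ _ _ => exact .band h1 h2 h3 h4
  | const c h _ => exact h
  | coord i h _ => exact h
  | add _ _ ih _ => exact ih
  | mul _ _ ih _ => exact ih
  | alg d c _ _ _ _ _ ih => exact ih 0
  | comp _ _ _ ih _ => exact ih
  | ode F _ h _ _ _ _ _ _ _ _ => exact h
  | lift _ h _ _ _ => exact h
  | congr _ _ ih => exact ih

theorem VM.basic (h : VM M m A o) : IsOpen A ∧ A.Nonempty ∧ ∀ f ∈ o, AnalyticOnNhd ℝ f A := by
  induction h with
  | point => exact ⟨isOpen_univ, univ_nonempty, by simp⟩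
  | band _ _ _ h4 ih ihg ihh =>
    refine ⟨VS1_isOpen_eband ih.1 (fun g' hg' => (ihg g' hg').2.2 _ rfl)
      (fun h' hh' => (ihh h' hh').2.2 _ rfl), ?_, by simp⟩
    obtain ⟨x, hx⟩ := ih.2.1
    obtain ⟨t, h1, h2⟩ := VS1_exists_between (x := x) fun g' hg' h' hh' => h4 g' hg' h' hh' x hx
    exact ⟨_, VS1_snoc_mem.2 ⟨hx, h1, h2⟩⟩
  | const c _ ih =>
    refine ⟨ih.1, ih.2.1, ?_⟩
    rintro _ ⟨⟩
    exact analyticOnNhd_const
  | coord i _ ih =>
    refine ⟨ih.1, ih.2.1, ?_⟩
    rintro _ ⟨⟩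
    exact fun x _ => VS1_an_coord i x
  | add _ _ ih ih' =>
    refine ⟨ih.1, ih.2.1, ?_⟩
    rintro _ ⟨⟩
    exact (ih.2.2 _ rfl).add (ih'.2.2 _ rfl)
  | mul _ _ ih ih' =>
    refine ⟨ih.1, ih.2.1, ?_⟩
    rintro _ ⟨⟩
    exact (ih.2.2 _ rfl).mul (ih'.2.2 _ rfl)
  | alg d c _ ha _ _ _ ih =>
    refine ⟨(ih 0).1, (ih 0).2.1, ?_⟩
    rintro _ ⟨⟩
    exact ha
  | comp _ _ hB ih ih' =>
    refine ⟨ih.1, ih.2.1, ?_⟩
    rintro _ ⟨⟩ x hx
    exact AnalyticAt.comp_of_eq (ih'.2.2 _ rfl _ (hB x hx)) (VS1_an_snoc (ih.2.2 _ rfl x hx)) rfl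
  | ode F _ _ _ ha _ _ _ ih _ _ =>
    refine ⟨ih.1, ih.2.1, ?_⟩
    rintro _ ⟨⟩
    exact ha
  | lift _ _ hs ih ih' =>
    refine ⟨ih'.1, ih'.2.1, ?_⟩
    rintro _ ⟨⟩ z hz
    exact AnalyticAt.comp_of_eq (ih.2.2 _ rfl _ (hs z hz)) (VS1_an_init z) rfl
  | congr _ he ih =>
    refine ⟨ih.1, ih.2.1, ?_⟩
    rintro _ ⟨⟩
    exact (ih.2.2 _ rfl).congr ih.1 he.symm

theorem VM1_an (h : VM M m A (some f)) : AnalyticOnNhd ℝ f A := h.basic.2.2 f rfl

theorem VM.toPfM (h : VM M m A o) (s : Bool) : PfM s M m A o := by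
  induction h with
  | point => exact .point
  | band _ _ _ h4 ih ihg ihh => exact .band ih ihg ihh h4
  | const c _ ih => exact .const c ih
  | coord i _ ih => exact .coord i ih
  | add _ _ ih ih' => exact .add ih ih'
  | mul _ _ ih ih' => exact .mul ih ih'
  | @alg m A g d c hc ha h0 hd _ ih =>
    refine .alg d (fun i => c (d - i)) (fun i => ih _) ha (fun x hx => ?_) ?_
    · rw [Fin.sum_univ_eq_sum_range (fun i => c (d - i) x * g x ^ (d - i)) (d + 1),
        Finset.sum_flip (fun i => c i x * g x ^ i)]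
      exact h0 x hx
    · cases s with
      | true => simpa using hd
      | false =>
        obtain ⟨x, hx⟩ := (hc 0).basic.2.1
        simpa using ⟨x, hx, hd x hx⟩
  | comp _ _ hB ih ih' => exact .comp ih ih' hB
  | ode F hm _ _ ha _ hB hF ih ih' ihF =>
    refine .ode (fun i => F i) (by exact_mod_cast hm) ih ih' ha (fun i => ihF i i.2) hB fun x hx i => ?_
    rw [← hF x hx i i.2, pdv, VS1_uv]
  | lift _ _ hs ih ih' => exact .lift ih ih' hs
  | congr _ he ih => exact .congr ih he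

theorem VM.inv_band {B : Set (Fin (m + 1) → ℝ)} (h : VM M (m + 1) B none) :
    ∃ A g h, B = eband A g h ∧ VM M m A none ∧ (∀ g' ∈ g, VM M m A (some g')) ∧
      (∀ h' ∈ h, VM M m A (some h')) ∧ ∀ g' ∈ g, ∀ h' ∈ h, ∀ x ∈ A, g' x < h' x := by
  cases h with
  | band h1 h2 h3 h4 => exact ⟨_, _, _, rfl, h1, h2, h3, h4⟩

theorem VM1_sum {ι : Type} (t : Finset ι) {F : ι → Fn m} (hA : VM M m A none)
    (h : ∀ i ∈ t, VM M m A (some (F i))) : VM M m A (some fun x => ∑ i ∈ t, F i x) := by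
  classical
  induction t using Finset.induction_on with
  | empty => simpa using VM.const 0 hA
  | insert a t ha ih =>
    simp only [Finset.sum_insert ha]
    exact (h a (Finset.mem_insert_self _ _)).add
      (ih fun i hi => h i (Finset.mem_insert_of_mem hi))

theorem VM1_pow (h : VM M m A (some f)) (k : ℕ) : VM M m A (some fun x => f x ^ k) := by
  induction k with
  | zero => simpa using VM.const 1 h.cell
  | succ k ih =>
    simp only [pow_succ]
    exact ih.mul h

theorem VM.neg (h : VM M m A (some f)) : VM M m A (some fun x => - f x) :=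
  ((VM.const (-1) h.cell).mul h).congr fun x _ => by simp

theorem VM.sub (h : VM M m A (some f)) (h' : VM M m A (some g)) :
    VM M m A (some fun x => f x - g x) :=
  (h.add h'.neg).congr fun x _ => by simp [sub_eq_add_neg]

theorem VM.inv (h : VM M m A (some f)) (h0 : ∀ x ∈ A, f x ≠ 0) :
    VM M m A (some fun x => (f x)⁻¹) := by
  refine .alg 1 (fun i => if i = 0 then fun _ => -1 else f) (fun i => ?_)
    ((VM1_an h).fun_inv h0) (fun x hx => ?_) (fun x hx => ?_) fun x hx => ?_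
  · split_ifs
    · exact .const _ h.cell
    · exact h
  · simp [Finset.sum_range_succ, h0 x hx]
  · simpa using h0 x hx
  · simpa [Finset.sum_range_succ] using h0 x hx

theorem VM.sqrt (h : VM M m A (some f)) (h0 : ∀ x ∈ A, 0 < f x) :
    VM M m A (some fun x => √(f x)) := by
  refine .alg 2 (fun i => if i = 0 then fun x => - f x else fun _ => if i = 1 then 0 else 1)
    (fun i => ?_) (fun x hx => ?_) (fun x hx => ?_) (fun x hx => ?_) fun x hx => ?_
  · split_ifs
    · exact h.neg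
    · exact .const _ h.cell
    · exact .const _ h.cell
  · exact (((VM1_an h x hx).contDiffAt (n := ⊤)).sqrt (h0 x hx).ne').analyticAt
  · simp [Finset.sum_range_succ, Real.sq_sqrt (h0 x hx).le]
  · simp
  · simp [Finset.sum_range_succ, (Real.sqrt_pos.2 (h0 x hx)).ne']

theorem VM1_pdv (h : VM M m A o) : ∀ f ∈ o, ∀ i, VM M m A (some (pdv f i)) := by
  induction h with
  | point => simp
  | band => simp
  | const c h _ =>
    rintro _ ⟨⟩ j
    exact (VM.const 0 h).congr fun x _ => by simp [pdv]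
  | coord i h _ =>
    rintro _ ⟨⟩ j
    rw [VS1_pdv_coord]
    exact .const _ h
  | add h h' ih ih' =>
    rintro _ ⟨⟩ j
    refine ((ih _ rfl j).add (ih' _ rfl j)).congr fun x hx => ?_
    simp [pdv, fderiv_fun_add (VM1_an h x hx).differentiableAt (VM1_an h' x hx).differentiableAt]
  | mul h h' ih ih' =>
    rintro _ ⟨⟩ j
    refine ((h.mul (ih' _ rfl j)).add (h'.mul (ih _ rfl j))).congr fun x hx => ?_
    simp [pdv, fderiv_fun_mul (VM1_an h x hx).differentiableAt (VM1_an h' x hx).differentiableAt]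
  | @alg m A g k c hc ha h0 hd h1 ih =>
    rintro _ ⟨⟩ j
    have hA := (hc 0).cell
    have hg : VM M m A (some g) := .alg k c hc ha h0 hd h1
    have hN := VM1_sum (Finset.range (k + 1)) hA fun i _ => (ih i _ rfl j).mul (VM1_pow hg i)
    have hD := VM1_sum (Finset.range (k + 1)) hA fun i _ =>
      ((VM.const (i : ℝ) hA).mul (hc i)).mul (VM1_pow hg (i - 1))
    refine (hN.neg.mul (hD.inv h1)).congr fun x hx => ?_
    have e := VS1_pdv_alg (k := k + 1) (fun i => VM1_an (hc i) x hx) (ha x hx) j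
    have e0 : (fun x => ∑ i ∈ Finset.range (k + 1), c i x * g x ^ i) =ᶠ[𝓝 x] fun _ => 0 := by
      filter_upwards [hA.basic.1.mem_nhds hx] with w hw using h0 w hw
    rw [VS1_pdv_congr e0] at e
    have e1 : pdv (fun _ : Fin m → ℝ => (0 : ℝ)) j x = 0 := by simp [pdv]
    have := h1 x hx
    rw [e1] at e
    field_simp
    linarith
  | @comp m A B f F h h' hB ih ih' =>
    rintro _ ⟨⟩ j
    have hs : ∀ i : Fin (m + 1),
        VM M m A (some (pdv (fun x => (Fin.snoc x (f x) : Fin (m + 1) → ℝ) i) j)) := fun i => by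
      refine Fin.lastCases ?_ (fun l => ?_) i
      · simpa using ih _ rfl j
      · simp only [Fin.snoc_castSucc, VS1_pdv_coord]
        exact .const _ h.cell
    refine (VM1_sum Finset.univ h.cell fun (i : Fin (m + 1)) _ =>
      (VM.comp h (ih' _ rfl (i : ℕ)) hB).mul (hs i)).congr fun x hx => ?_
    exact VS1_chain (π := fun x => (Fin.snoc x (f x) : Fin (m + 1) → ℝ)) (VM1_an h' _ (hB x hx))
      (VS1_an_snoc (VM1_an h x hx)) j
  | @ode m A B f F hm hA hB ha hF hg he _ _ _ =>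
    rintro _ ⟨⟩ j
    by_cases hj : j < m
    · exact (VM.comp (.ode F hm hA hB ha hF hg he) (hF j hj) hg).congr fun x hx => he x hx j hj
    · refine (VM.const 0 hA).congr fun x _ => ?_
      have : uv m j = 0 := by
        funext i
        have := i.2
        simp only [uv, Pi.zero_apply, ite_eq_right_iff]
        omega
      simp [pdv, this]
  | @lift m A B f h hB hs ih _ =>
    rintro _ ⟨⟩ j
    have key : ∀ i : Fin m, pdv (fun z : Fin (m + 1) → ℝ => (Fin.init z : Fin m → ℝ) i) j =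
        fun _ => uv (m + 1) j i.castSucc := fun i => VS1_pdv_coord i.castSucc j
    refine (VM1_sum Finset.univ hB fun (i : Fin m) _ =>
      ((ih _ rfl (i : ℕ)).lift hB hs).mul (.const (uv (m + 1) j i.castSucc) hB)).congr
        fun z hz => ?_
    rw [VS1_chain (π := fun z : Fin (m + 1) → ℝ => (Fin.init z : Fin m → ℝ))
      (VM1_an h _ (hs z hz)) (VS1_an_init z) j]
    simp only [key]
  | congr h he ih =>
    rintro _ ⟨⟩ j
    exact (ih _ rfl j).congr fun x hx =>
      VS1_pdv_congr (he.eventuallyEq_of_mem (h.basic.1.mem_nhds hx)) j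

/-- Stage 2 -/
theorem VM.pdv (h : VM M m A (some f)) (i : ℕ) : VM M m A (some (pdv f i)) :=
  VM1_pdv h f rfl i

theorem TM.cell {π : (Fin d → ℝ) → Fin m → ℝ} {A' : Set (Fin d → ℝ)} (h : TM M m d A' π) :
    VM M d A' none := by
  induction h with
  | zero => exact .point
  | same _ _ ih => exact ih
  | new _ hg _ _ _ => exact hg.cell

theorem TM.le {π : (Fin d → ℝ) → Fin m → ℝ} {A' : Set (Fin d → ℝ)} (h : TM M m d A' π) :
    d ≤ m := by
  induction h with
  | zero => exact le_rfl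
  | same _ _ ih => omega
  | new _ _ _ _ ih => omega

theorem TM.comp {π : (Fin d → ℝ) → Fin m → ℝ} {A' : Set (Fin d → ℝ)} (h : TM M m d A' π)
    (i : Fin m) : VM M d A' (some fun x => π x i) := by
  induction h with
  | zero => exact i.elim0
  | same _ hg ih =>
    refine Fin.lastCases ?_ (fun j => ?_) i
    · simpa using hg
    · simpa using ih j
  | new _ hg hs _ ih =>
    refine Fin.lastCases ?_ (fun j => ?_) i
    · simpa using hg
    · simpa using (ih j).lift hg.cell hs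

/-- the statement for cells -/
def VM1Q (M : ℕ) : (m : ℕ) → Set (Fin m → ℝ) → Prop
  | 0, _ => True
  | m + 1, B => ∀ d A' π, TM M m d A' π →
      (∀ x ∈ A', ∃ t, (Fin.snoc (π x) t : Fin (m + 1) → ℝ) ∈ B) →
      VM M (d + 1) (VS1pull B A' π) none

theorem TM.ext {π : (Fin d → ℝ) → Fin m → ℝ} {A' : Set (Fin d → ℝ)} (h : TM M m d A' π)
    {B : Set (Fin (m + 1) → ℝ)} (hB : VM M (d + 1) (VS1pull B A' π) none)
    (hm : ∀ x ∈ A', ∃ t, (Fin.snoc (π x) t : Fin (m + 1) → ℝ) ∈ B) :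
    TM M (m + 1) (d + 1) (VS1pull B A' π)
      fun z => Fin.snoc (π (Fin.init z)) (z (Fin.last d)) :=
  h.new (.coord _ hB) (fun _ hz => hz.1) fun x hx =>
    (hm x hx).imp fun t ht => by simpa [VS1pull] using ⟨hx, ht⟩

theorem VM1_gen (h : VM M m A o) : VM1Q M m A ∧ ∀ f ∈ o, ∀ d A' π, TM M m d A' π →
      MapsTo π A' A → VM M d A' (some fun x => f (π x)) := by
  induction h with
  | point => exact ⟨trivial, by simp⟩
  | @band m A g h _ _ _ h4 ih ihg ihh =>
    refine ⟨fun d A' π hπ hm => ?_, by simp⟩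
    have hA' := hπ.cell
    have hm' : MapsTo π A' A := fun x hx => by
      obtain ⟨t, ht⟩ := hm x hx
      exact (VS1_snoc_mem.1 ht).1
    have e : VS1pull (eband A g h) A' π =
        eband A' (g.map fun g' x => g' (π x)) (h.map fun h' x => h' (π x)) := by
      ext z
      simp only [VS1pull, mem_ofPred_eq, VS1_snoc_mem]
      simp only [eband, mem_ofPred_eq, Option.mem_def, Option.map_eq_some_iff, forall_exists_index,
        and_imp, forall_apply_eq_imp_iff₂]
      exact ⟨fun h => ⟨h.1, h.2.2⟩, fun h => ⟨h.1, hm' h.1, h.2⟩⟩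
    rw [e]
    refine .band hA' ?_ ?_ ?_
    · simp only [Option.mem_def, Option.map_eq_some_iff, forall_exists_index, and_imp,
        forall_apply_eq_imp_iff₂]
      exact fun g' hg' => (ihg g' hg').2 _ rfl d A' π hπ hm'
    · simp only [Option.mem_def, Option.map_eq_some_iff, forall_exists_index, and_imp,
        forall_apply_eq_imp_iff₂]
      exact fun h' hh' => (ihh h' hh').2 _ rfl d A' π hπ hm'
    · simp only [Option.mem_def, Option.map_eq_some_iff, forall_exists_index, and_imp,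
        forall_apply_eq_imp_iff₂]
      exact fun g' hg' h' hh' x hx => h4 g' hg' h' hh' _ (hm' hx)
  | const c _ ih =>
    refine ⟨ih.1, ?_⟩
    rintro _ ⟨⟩ d A' π hπ _
    exact .const c hπ.cell
  | coord i _ ih =>
    refine ⟨ih.1, ?_⟩
    rintro _ ⟨⟩ d A' π hπ _
    exact hπ.comp i
  | add _ _ ih ih' =>
    refine ⟨ih.1, ?_⟩
    rintro _ ⟨⟩ d A' π hπ hm
    exact (ih.2 _ rfl d A' π hπ hm).add (ih'.2 _ rfl d A' π hπ hm)
  | mul _ _ ih ih' =>
    refine ⟨ih.1, ?_⟩
    rintro _ ⟨⟩ d A' π hπ hm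
    exact (ih.2 _ rfl d A' π hπ hm).mul (ih'.2 _ rfl d A' π hπ hm)
  | alg k c _ ha h0 hd h1 ih =>
    refine ⟨(ih 0).1, ?_⟩
    rintro _ ⟨⟩ d A' π hπ hm
    have hπa : AnalyticOnNhd ℝ π A' := fun x hx =>
      analyticAt_pi_iff.2 fun i => VM1_an (hπ.comp i) x hx
    exact .alg k (fun i x => c i (π x)) (fun i => (ih i).2 _ rfl d A' π hπ hm)
      (ha.comp hπa hm) (fun x hx => h0 _ (hm hx)) (fun x hx => hd _ (hm hx))
      fun x hx => h1 _ (hm hx)
  | @comp m A B f F _ _ hB ih ih' =>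
    refine ⟨ih.1, ?_⟩
    rintro _ ⟨⟩ d A' π hπ hm
    have hB' := ih'.1 d A' π hπ fun x hx => ⟨_, hB _ (hm hx)⟩
    have hE := hπ.ext hB' fun x hx => ⟨_, hB _ (hm hx)⟩
    have h1 := ih'.2 _ rfl _ _ _ hE fun z hz => hz.2
    have h2 := VM.comp (ih.2 _ rfl d A' π hπ hm) h1 fun x hx => by
      simpa [VS1pull] using ⟨hx, hB _ (hm hx)⟩
    simpa using h2
  | @ode m A B f F hM _ _ ha _ hB hF ih ih' ihF =>
    refine ⟨ih.1, ?_⟩
    rintro _ ⟨⟩ d A' π hπ hm
    have hπa : AnalyticOnNhd ℝ π A' := fun x hx =>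
      analyticAt_pi_iff.2 fun i => VM1_an (hπ.comp i) x hx
    have hB' := ih'.1 d A' π hπ fun x hx => ⟨_, hB _ (hm hx)⟩
    have hE := hπ.ext hB' fun x hx => ⟨_, hB _ (hm hx)⟩
    refine .ode (fun j z => ∑ i : Fin m, F i (Fin.snoc (π (Fin.init z)) (z (Fin.last d))) *
      pdv (fun x => π x i) j (Fin.init z)) (hπ.le.trans hM) hπ.cell hB' (ha.comp hπa hm) (fun j _ => ?_)
      (fun x hx => ?_) fun x hx j _ => ?_
    · refine VM1_sum _ hB' fun i _ => VM.mul ?_ (((hπ.comp i).pdv j).lift hB' fun z hz => hz.1)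
      exact (ihF i i.2).2 _ rfl _ _ _ hE fun z hz => hz.2
    · simpa [VS1pull] using ⟨hx, hB _ (hm hx)⟩
    · rw [VS1_chain (ha _ (hm hx)) (hπa x hx)]
      refine Finset.sum_congr rfl fun i _ => ?_
      simp [hF _ (hm hx) i i.2]
  | @lift m A B f _ _ hs ih ih' =>
    refine ⟨ih'.1, ?_⟩
    rintro _ ⟨⟩ d A' π hπ hm
    cases hπ with
    | same h0 hg =>
      simp only [Fin.init_snoc]
      exact ih.2 _ rfl _ _ _ h0 fun x hx => by simpa using hs _ (hm hx)
    | new h0 hg h1 h2 =>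
      simp only [Fin.init_snoc]
      refine (ih.2 _ rfl _ _ _ h0 fun x hx => ?_).lift hg.cell h1
      obtain ⟨t, ht⟩ := h2 x hx
      simpa using hs _ (hm ht)
  | congr _ he ih =>
    refine ⟨ih.1, ?_⟩
    rintro _ ⟨⟩ d A' π hπ hm
    exact (ih.2 _ rfl d A' π hπ hm).congr fun x hx => he (hm hx)

/-- triangular substitution -/
theorem VM.subst (h : VM M m A (some f)) {A' : Set (Fin d → ℝ)} {π : (Fin d → ℝ) → Fin m → ℝ}
    (hπ : TM M m d A' π) (hm : MapsTo π A' A) : VM M d A' (some fun x => f (π x)) :=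
  (VM1_gen h).2 f rfl d A' π hπ hm

theorem VM.tm_id (h : VM M m A none) : TM M m m A fun x => x := by
  induction m with
  | zero =>
    cases h
    exact .zero
  | succ m ih =>
    obtain ⟨A', g, k, rfl, h1, -, -, h4⟩ := h.inv_band
    have := (ih h1).new (.coord (Fin.last m) h) (fun z hz => hz.1) fun x hx => vsb_fibre h4 hx
    simpa only [Fin.snoc_init_self] using this

theorem VM.restrict (h : VM M m A (some f)) {A' : Set (Fin m → ℝ)} (h' : VM M m A' none)
    (hs : A' ⊆ A) : VM M m A' (some f) :=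
  h.subst h'.tm_id hs

end Pool.Agent.Lib.MP_1a1eb7_lc
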